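import Mathlib

/-!
Counting self-avoiding walks on graphs of degree three by recursion, and compositions into parts
two and three.
-/

set_option autoImplicit false

namespace Pool.Agent.H90.FS

open Finset

section
variable {V : Type} [DecidableEq V]

/-- the number of `n`-step self-avoiding walks from `x` which avoid `B` after the start; the
neighbours of `x` are the `nb c x` -/
def cnt (nb : Fin 3 → V → V) : ℕ → V → Finset V → ℕ
  | 0, _, _ => 1
  | n + 1, x, B => ∑ c : Fin 3,
      if nb c x ∈ insert x B then 0 else cnt nb n (nb c x) (insert x B)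

/-- the walks -/
def WS (nb : Fin 3 → V → V) (n : ℕ) (x : V) (B : Finset V) : Set (Fin (n + 1) → V) :=
  {f | f 0 = x ∧ Function.Injective f ∧ (∀ i : Fin n, ∃ c, f i.succ = nb c (f i.castSucc)) ∧
    ∀ i : Fin n, f i.succ ∉ B}

/-- the walks as a finite set -/
def wf (nb : Fin 3 → V → V) : (n : ℕ) → V → Finset V → Finset (Fin (n + 1) → V)
  | 0, x, _ => {fun _ => x}
  | n + 1, x, B => (univ.filter (fun c => nb c x ∉ insert x B)).biUnion
      (fun c => (wf nb n (nb c x) (insert x B)).image (Fin.cons x))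

theorem mem_wf (nb : Fin 3 → V → V) (n : ℕ) (x : V) (B : Finset V) (f : Fin (n + 1) → V) :
    f ∈ wf nb n x B ↔ f ∈ WS nb n x B := by
  induction n generalizing x B with
  | zero =>
    simp only [wf, WS, mem_singleton, Set.mem_ofPred_eq]
    constructor
    · rintro rfl
      refine ⟨rfl, fun i j _ => Fin.ext (by omega), fun i => i.elim0, fun i => i.elim0⟩
    · rintro ⟨h, -⟩
      funext i
      rw [← h]
      congr 1
      exact Fin.ext (by omega)
  | succ n ih =>
    simp only [wf, mem_biUnion, mem_filter, mem_univ, true_and, mem_image]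
    constructor
    · rintro ⟨c, hc, g, hg, rfl⟩
      rw [ih] at hg
      obtain ⟨g0, gi, gc, gB⟩ := hg
      refine ⟨rfl, ?_, ?_, ?_⟩
      · rw [Fin.cons_injective_iff]
        refine ⟨?_, gi⟩
        rintro ⟨i, hi⟩
        rcases Fin.eq_zero_or_eq_succ i with rfl | ⟨j, rfl⟩
        · rw [g0] at hi
          exact hc (by rw [hi]; exact mem_insert_self _ _)
        · exact gB j (by rw [hi]; exact mem_insert_self _ _)
      · intro i
        rcases Fin.eq_zero_or_eq_succ i with rfl | ⟨j, rfl⟩
        · exact ⟨c, by simpa using g0⟩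
        · obtain ⟨d, hd⟩ := gc j
          refine ⟨d, ?_⟩
          rw [Fin.cons_succ, hd, Fin.castSucc_succ, Fin.cons_succ]
      · intro i
        rw [Fin.cons_succ]
        rcases Fin.eq_zero_or_eq_succ i with rfl | ⟨j, rfl⟩
        · rw [g0]
          exact fun h => hc (mem_insert_of_mem h)
        · exact fun h => gB j (mem_insert_of_mem h)
    · rintro ⟨f0, fi, fc, fB⟩
      obtain ⟨c, hc⟩ := fc 0
      have e0 : f (Fin.castSucc (0 : Fin (n + 1))) = x := f0
      rw [e0] at hc
      have hx : ∀ i : Fin (n + 1), f i.succ ≠ x := by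
        intro i hi
        rw [← f0] at hi
        exact Fin.succ_ne_zero i (fi hi)
      refine ⟨c, ?_, Fin.tail f, ?_, ?_⟩
      · rw [← hc, mem_insert, not_or]
        exact ⟨hx 0, fB 0⟩
      · rw [ih]
        refine ⟨hc, fun i j hij => Fin.succ_injective _ (fi hij), fun i => ?_, fun i => ?_⟩
        · obtain ⟨d, hd⟩ := fc i.succ
          refine ⟨d, ?_⟩
          have : Fin.tail f i.castSucc = f (Fin.castSucc i.succ) := rfl
          rw [this]
          exact hd
        · rw [mem_insert, not_or]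
          exact ⟨hx _, fB _⟩
      · rw [← f0]
        exact Fin.cons_self_tail f

theorem card_wf (nb : Fin 3 → V → V) (hinj : ∀ x, Function.Injective (fun c => nb c x)) (n : ℕ)
    (x : V) (B : Finset V) : (wf nb n x B).card = cnt nb n x B := by
  induction n generalizing x B with
  | zero => rfl
  | succ n ih =>
    rw [wf, card_biUnion, cnt, sum_filter]
    · refine sum_congr rfl fun c _ => ?_
      rw [card_image_of_injective _ (Fin.cons_right_injective _), ih]
      by_cases h : nb c x ∈ insert x B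
      · simp [h]
      · simp [h]
    · intro c _ d _ hcd
      rw [Function.onFun, Finset.disjoint_left]
      rintro f hf hf'
      obtain ⟨g, hg, rfl⟩ := mem_image.1 hf
      obtain ⟨g', hg', he⟩ := mem_image.1 hf'
      have e : g' = g := Fin.cons_right_injective (α := fun _ => V) x he
      rw [e, mem_wf] at hg'
      rw [mem_wf] at hg
      have : nb c x = nb d x := by rw [← hg.1, ← hg'.1]
      exact hcd (hinj x this)

theorem ncard_eq (nb : Fin 3 → V → V) (hinj : ∀ x, Function.Injective (fun c => nb c x))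
    (A : V → V → Prop) (hA : ∀ x y, A x y ↔ ∃ c, y = nb c x) (n : ℕ) (x : V) :
    Set.ncard {f : Fin (n + 1) → V |
      f 0 = x ∧ Function.Injective f ∧ ∀ i : Fin n, A (f i.castSucc) (f i.succ)} =
      cnt nb n x ∅ := by
  rw [← card_wf nb hinj, ← Set.ncard_coe_finset]
  congr 1
  ext f
  rw [mem_coe, mem_wf]
  simp only [WS, Set.mem_ofPred_eq, notMem_empty, not_false_eq_true, implies_true, and_true, hA]

/-- symmetries -/
theorem cnt_map (nb : Fin 3 → V → V) (φ : V → V) (hφ : Function.Injective φ)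
    (π : Equiv.Perm (Fin 3)) (h : ∀ c x, φ (nb c x) = nb (π c) (φ x)) (n : ℕ) (x : V)
    (B : Finset V) : cnt nb n (φ x) (B.image φ) = cnt nb n x B := by
  induction n generalizing x B with
  | zero => rfl
  | succ n ih =>
    rw [cnt, cnt, ← Equiv.sum_comp π]
    refine sum_congr rfl fun c _ => ?_
    rw [← h, ← image_insert, ih]
    simp only [mem_image, hφ.eq_iff, exists_eq_right]

theorem cnt_pos_le (nb : Fin 3 → V → V) (n : ℕ) (x : V) (B : Finset V) :
    cnt nb n x B ≤ 3 ^ n := by
  induction n generalizing x B with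
  | zero => simp [cnt]
  | succ n ih =>
    rw [cnt]
    calc _ ≤ ∑ c : Fin 3, 3 ^ n := sum_le_sum fun c _ => by
            split_ifs
            · exact Nat.zero_le _
            · exact ih _ _
      _ = 3 ^ (n + 1) := by simp [pow_succ, mul_comm]

end

/-! ### compositions -/

/-- the number of compositions of `n, n - 1, …, n - M` into `k` parts two and three -/
def cc (M : ℕ) : ℕ → ℕ → ℕ
  | 0, n => if n ≤ M then 1 else 0
  | _ + 1, 0 => 0
  | _ + 1, 1 => 0
  | k + 1, 2 => cc M k 0
  | k + 1, n + 3 => cc M k (n + 1) + cc M k n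

theorem cc_zero (M : ℕ) (k n : ℕ) (h : n < 2 * k) : cc M k n = 0 := by
  induction k generalizing n with
  | zero => omega
  | succ k ih =>
    match n with
    | 0 => rfl
    | 1 => rfl
    | 2 => rw [cc]; exact ih 0 (by omega)
    | n + 3 => rw [cc, ih (n + 1) (by omega), ih n (by omega)]

theorem cc_zero' (M : ℕ) (k n : ℕ) (h : 3 * k + M < n) : cc M k n = 0 := by
  induction k generalizing n with
  | zero =>
    rw [cc, if_neg (by omega)]
  | succ k ih =>
    match n with
    | 0 => rfl
    | 1 => rfl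
    | 2 => omega
    | n + 3 => rw [cc, ih (n + 1) (by omega), ih n (by omega)]

theorem cc_mono (M k n : ℕ) : cc M k n ≤ cc (M + 1) k n := by
  induction k generalizing n with
  | zero =>
    rw [cc, cc]
    split_ifs <;> omega
  | succ k ih =>
    match n with
    | 0 => exact le_rfl
    | 1 => exact le_rfl
    | 2 => rw [cc, cc]; exact ih 0
    | n + 3 => rw [cc, cc]; exact add_le_add (ih _) (ih _)

theorem cc_shift (M k n : ℕ) : cc M k n ≤ cc (M + 1) k (n + 1) := by
  induction k generalizing n with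
  | zero =>
    rw [cc, cc]
    split_ifs <;> omega
  | succ k ih =>
    match n with
    | 0 => exact Nat.zero_le _
    | 1 => exact Nat.zero_le _
    | 2 =>
      rw [cc, show (2 + 1 : ℕ) = 0 + 3 from rfl, cc]
      exact (ih 0).trans (Nat.le_add_right _ _)
    | n + 3 =>
      rw [cc, show n + 3 + 1 = (n + 1) + 3 from rfl, cc]
      exact add_le_add (ih _) (ih _)

/-- sums over compositions -/
noncomputable def Sg (α : ℕ → ℝ) (M n : ℕ) : ℝ := ∑ k ∈ range (n + 1), α k * cc M k n

theorem Sg_big (α : ℕ → ℝ) (M n N : ℕ) (h : n + 1 ≤ N) :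
    ∑ k ∈ range N, α k * cc M k n = Sg α M n := by
  unfold Sg
  symm
  refine sum_subset (range_subset_range.2 h) fun k _ hk => ?_
  rw [mem_range, not_lt] at hk
  rw [cc_zero M k n (by omega), Nat.cast_zero, mul_zero]

theorem Sg_0 (α : ℕ → ℝ) (M : ℕ) : Sg α M 0 = α 0 := by
  simp [Sg, cc]

theorem Sg_1 (α : ℕ → ℝ) (M : ℕ) : Sg α M 1 = α 0 * (if 1 ≤ M then 1 else 0) := by
  simp [Sg, cc, sum_range_succ]

theorem Sg_2 (α : ℕ → ℝ) (M : ℕ) : Sg α M 2 = α 0 * (if 2 ≤ M then 1 else 0) +
    Sg (fun k => α (k + 1)) M 0 := by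
  simp [Sg, cc, sum_range_succ]

theorem Sg_3 (α : ℕ → ℝ) (M n : ℕ) : Sg α M (n + 3) = α 0 * (if n + 3 ≤ M then 1 else 0) +
    (Sg (fun k => α (k + 1)) M (n + 1) + Sg (fun k => α (k + 1)) M n) := by
  rw [Sg, sum_range_succ', add_comm]
  congr 1
  · rw [cc]
    push_cast
    rfl
  · rw [← Sg_big (fun k => α (k + 1)) M (n + 1) (n + 3) (by omega),
      ← Sg_big (fun k => α (k + 1)) M n (n + 3) (by omega), ← sum_add_distrib]
    refine sum_congr rfl fun k _ => ?_
    rw [cc]
    push_cast
    ring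

theorem Sg_mono {α β : ℕ → ℝ} (h : ∀ k, α k ≤ β k) (M n : ℕ) : Sg α M n ≤ Sg β M n :=
  sum_le_sum fun k _ => mul_le_mul_of_nonneg_right (h k) (Nat.cast_nonneg _)

theorem Sg_add (α β : ℕ → ℝ) (M n : ℕ) : Sg (fun k => α k + β k) M n = Sg α M n + Sg β M n := by
  unfold Sg
  rw [← sum_add_distrib]
  exact sum_congr rfl fun k _ => by ring

theorem Sg_sum {ι : Type} (s : Finset ι) (α : ι → ℕ → ℝ) (M n : ℕ) :
    Sg (fun k => ∑ i ∈ s, α i k) M n = ∑ i ∈ s, Sg (α i) M n := by
  unfold Sg
  rw [sum_comm]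
  exact sum_congr rfl fun k _ => by rw [sum_mul]

theorem Sg_smul (x : ℝ) (α : ℕ → ℝ) (M n : ℕ) : Sg (fun k => x * α k) M n = x * Sg α M n := by
  unfold Sg
  rw [mul_sum]
  exact sum_congr rfl fun k _ => by ring

theorem Sg_zero (M n : ℕ) : Sg (fun _ => 0) M n = 0 := by
  unfold Sg
  exact sum_eq_zero fun k _ => by ring

theorem Sg_nonneg {α : ℕ → ℝ} (h : ∀ k, 0 ≤ α k) (M n : ℕ) : 0 ≤ Sg α M n :=
  sum_nonneg fun k _ => mul_nonneg (h k) (Nat.cast_nonneg _)

theorem Sg_M {α : ℕ → ℝ} (h : ∀ k, 0 ≤ α k) (M n : ℕ) : Sg α M n ≤ Sg α (M + 1) n :=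
  sum_le_sum fun k _ => mul_le_mul_of_nonneg_left (by exact_mod_cast cc_mono M k n) (h k)

theorem Sg_shift {α : ℕ → ℝ} (h : ∀ k, 0 ≤ α k) (M n : ℕ) : Sg α M n ≤ Sg α (M + 1) (n + 1) := by
  rw [← Sg_big α M n (n + 1 + 1) (by omega)]
  exact sum_le_sum fun k _ => mul_le_mul_of_nonneg_left (by exact_mod_cast cc_shift M k n) (h k)

end Pool.Agent.H90.FS
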