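import Pool.Agent.H90.FS.Ker
import Pool.Graph.R_pool_sql_team_seeded_2aa45f1a.Q215.SAW.Dbl

/-!
Exponents are transferred through the renewal kernel.
-/

set_option autoImplicit false

namespace Pool.Agent.H90.FS

open Finset Filter Topology Q215.SAW.Cvx

/-- the data -/
structure Dat (μ z : ℝ) (r b : ℕ → ℝ) (c C m : ℝ) : Prop where
  P : Par μ z
  r1 : ∀ k, 1 ≤ r k
  c0 : 0 < c
  C0 : 0 < C
  m0 : 0 < m
  low : ∀ n, 2 ≤ n → m ≤ ∑ k ∈ range (n + 1), wt μ z 0 n k
  bl : ∀ n, c * ∑ k ∈ range (n + 1), r (k + 1) * wt μ z 0 n k ≤ b (n + 1)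
  bu : ∀ n, 3 ≤ n → b n ≤ C * ∑ k ∈ range (n + 1), r k * wt μ z 6 n k

variable {μ z : ℝ} {r b : ℕ → ℝ} {c C m : ℝ}

theorem Dat.up (D : Dat μ z r b c C m) {n : ℕ} (hn : 3 ≤ n) {X : ℝ} (hX0 : 0 ≤ X)
    (hX : ∀ k, 2 * k ≤ n → n ≤ 3 * k + 6 → r k ≤ X) : b n ≤ C * CM 6 * X := by
  refine (D.bu n hn).trans ?_
  rw [mul_assoc]
  refine mul_le_mul_of_nonneg_left ?_ D.C0.le
  calc _ ≤ ∑ k ∈ range (n + 1), X * wt μ z 6 n k := by
        refine sum_le_sum fun k _ => ?_
        have hw := wt_nonneg D.P 6 n k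
        rcases hw.eq_or_lt with h | h
        · rw [← h]; simp
        · obtain ⟨h1, h2⟩ := wt_supp 6 n k h.ne'
          exact mul_le_mul_of_nonneg_right (hX k h1 h2) hw
    _ = X * ∑ k ∈ range (n + 1), wt μ z 6 n k := by rw [mul_sum]
    _ ≤ X * CM 6 := mul_le_mul_of_nonneg_left (D.P.tot 6 n) hX0
    _ = _ := by ring

theorem Dat.lo (D : Dat μ z r b c C m) {n : ℕ} (hn : 2 ≤ n) {X : ℝ} (hX0 : 0 ≤ X)
    (hX : ∀ k, 2 * k ≤ n → n ≤ 3 * k → X ≤ r (k + 1)) : c * m * X ≤ b (n + 1) := by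
  refine le_trans ?_ (D.bl n)
  rw [mul_assoc]
  refine mul_le_mul_of_nonneg_left ?_ D.c0.le
  calc m * X ≤ (∑ k ∈ range (n + 1), wt μ z 0 n k) * X :=
        mul_le_mul_of_nonneg_right (D.low n hn) hX0
    _ = ∑ k ∈ range (n + 1), X * wt μ z 0 n k := by rw [← mul_sum, mul_comm]
    _ ≤ _ := by
        refine sum_le_sum fun k _ => ?_
        have hw := wt_nonneg D.P 0 n k
        rcases hw.eq_or_lt with h | h
        · rw [← h]; simp
        · obtain ⟨h1, h2⟩ := wt_supp 0 n k h.ne'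
          exact mul_le_mul_of_nonneg_right (hX k h1 (by omega)) hw

theorem Dat.b_low (D : Dat μ z r b c C m) {n : ℕ} (hn : 3 ≤ n) : c * m ≤ b n := by
  obtain ⟨n, rfl⟩ : ∃ j, n = j + 1 := ⟨n - 1, by omega⟩
  have := D.lo (n := n) (by omega) (X := 1) zero_le_one (fun k _ _ => D.r1 _)
  linarith

theorem Dat.b_pos (D : Dat μ z r b c C m) {n : ℕ} (hn : 3 ≤ n) : 0 < b n :=
  lt_of_lt_of_le (mul_pos D.c0 D.m0) (D.b_low hn)

theorem log_le_eps {ε : ℝ} (hε : 0 < ε) (A : ℝ) : ∀ᶠ n : ℕ in atTop, A ≤ ε * Real.log n := by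
  filter_upwards [log_tend.eventually_ge_atTop (A / ε)] with n hn
  rw [div_le_iff₀ hε] at hn
  linarith

/-- upper bounds, easy direction -/
theorem Dat.A1 (D : Dat μ z r b c C m) {g : ℝ} (hg : 0 ≤ g)
    (h : ∀ ε : ℝ, 0 < ε → ∀ᶠ k : ℕ in atTop, Real.log (r k) ≤ (g + ε) * Real.log k) :
    ∀ ε : ℝ, 0 < ε → ∀ᶠ n : ℕ in atTop, Real.log (b n) ≤ (g + ε) * Real.log n := by
  intro ε hε
  obtain ⟨K, hK⟩ := eventually_atTop.1 (h (ε / 2) (by positivity))
  have hC : 0 < C * CM 6 := mul_pos D.C0 (CM_pos 6)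
  filter_upwards [eventually_ge_atTop (3 * K + 10),
    log_le_eps (show 0 < ε / 2 by positivity) (Real.log (C * CM 6))] with n hn h1
  have h2 := D.up (n := n) (by omega) (X := Real.exp ((g + ε / 2) * Real.log n))
    (Real.exp_pos _).le (fun k h1 h2 => by
      have h3 := hK k (by omega)
      have h4 : 0 < r k := by linarith [D.r1 k]
      rw [← Real.log_le_iff_le_exp h4]
      refine h3.trans (mul_le_mul_of_nonneg_left ?_ (by positivity))
      refine Real.log_le_log (by exact_mod_cast (show 0 < k by omega)) ?_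
      exact_mod_cast (show k ≤ n by omega))
  have h3 := Real.log_le_log (D.b_pos (by omega)) h2
  rw [Real.log_mul hC.ne' (Real.exp_pos _).ne', Real.log_exp] at h3
  linarith

/-- lower bounds, easy direction -/
theorem Dat.A2 (D : Dat μ z r b c C m) {g : ℝ}
    (h : ∀ ε : ℝ, 0 < ε → ∀ᶠ k : ℕ in atTop, (g - ε) * Real.log k ≤ Real.log (r k)) :
    ∀ ε : ℝ, 0 < ε → ∀ᶠ n : ℕ in atTop, (g - ε) * Real.log n ≤ Real.log (b n) := by
  intro ε hε
  obtain ⟨K, hK⟩ := eventually_atTop.1 (h (ε / 2) (by positivity))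
  have hC : 0 < c * m := mul_pos D.c0 D.m0
  filter_upwards [eventually_ge_atTop (3 * K + 10),
    log_le_eps (show 0 < ε / 2 by positivity) (-Real.log (c * m) + |g - ε / 2| * Real.log 3)]
    with n hn h1
  obtain ⟨n, rfl⟩ : ∃ j, n = j + 1 := ⟨n - 1, by omega⟩
  have hn0 : (0 : ℝ) < ((n + 1 : ℕ) : ℝ) := by positivity
  have h2 := D.lo (n := n) (by omega) (X := Real.exp ((g - ε / 2) * Real.log ((n + 1 : ℕ) : ℝ) -
      |g - ε / 2| * Real.log 3)) (Real.exp_pos _).le (fun k h1 h2 => by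
      have h3 := hK (k + 1) (by omega)
      have h4 : 0 < r (k + 1) := by linarith [D.r1 (k + 1)]
      rw [← Real.le_log_iff_exp_le h4]
      refine le_trans ?_ h3
      have hk0 : (0 : ℝ) < ((k + 1 : ℕ) : ℝ) := by positivity
      have a1 : Real.log ((k + 1 : ℕ) : ℝ) ≤ Real.log ((n + 1 : ℕ) : ℝ) :=
        Real.log_le_log hk0 (by exact_mod_cast (show k + 1 ≤ n + 1 by omega))
      have a2 : Real.log ((n + 1 : ℕ) : ℝ) ≤ Real.log 3 + Real.log ((k + 1 : ℕ) : ℝ) := by
        rw [← Real.log_mul (by norm_num) hk0.ne']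
        exact Real.log_le_log hn0 (by exact_mod_cast (show n + 1 ≤ 3 * (k + 1) by omega))
      have a3 : (g - ε / 2) * (Real.log ((n + 1 : ℕ) : ℝ) - Real.log ((k + 1 : ℕ) : ℝ)) ≤
          |g - ε / 2| * Real.log 3 := by
        refine (mul_le_mul_of_nonneg_right (le_abs_self _) (by linarith)).trans ?_
        exact mul_le_mul_of_nonneg_left (by linarith) (abs_nonneg _)
      linarith)
  have h3 := Real.log_le_log (mul_pos hC (Real.exp_pos _)) h2
  rw [Real.log_mul hC.ne' (Real.exp_pos _).ne', Real.log_exp] at h3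
  linarith

/-- a good index in every window of length `L √n` -/
theorem Dat.good (D : Dat μ z r b c C m) : ∃ L : ℝ, 1 ≤ L ∧ ∀ n : ℕ, 2 ≤ n → L ≤ n →
    L * √n ≤ 2 * n → ∃ k : ℕ, |kap μ z * n - k| < L * √n ∧ r (k + 1) ≤ 4 / (c * m) * b (n + 1) := by
  have hm := D.m0
  have hC0 := CM_pos 0
  obtain ⟨L, hL⟩ : ∃ L : ℝ, L = 16 * CM 0 / m + 1 := ⟨_, rfl⟩
  have hL1 : 1 ≤ L := by
    rw [hL]
    have : 0 < 16 * CM 0 / m := by positivity
    linarith
  refine ⟨L, hL1, fun n hn hLn hL2 => ?_⟩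
  have hn0 : (0 : ℝ) < n := by exact_mod_cast (show 0 < n by omega)
  by_contra hcon
  push Not at hcon
  have htail := D.P.tail 0 n (by omega) (W := L * √n) (by positivity) hL2
  have e1 : (L * √n) ^ 2 / (4 * n) = L ^ 2 / 4 := by
    rw [mul_pow, Real.sq_sqrt hn0.le]
    field_simp
  rw [e1] at htail
  have h1 : Real.exp (-(L ^ 2 / 4)) ≤ m / (4 * CM 0) := by
    rw [Real.exp_neg]
    have h2 : 4 * CM 0 / m ≤ Real.exp (L ^ 2 / 4) := by
      have h3 := Real.add_one_le_exp (L ^ 2 / 4)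
      have h4 : L ≤ L ^ 2 := by nlinarith
      have h5 : 4 * CM 0 / m = (16 * CM 0 / m) / 4 := by ring
      rw [h5]
      linarith
    have h3 : m / (4 * CM 0) = (4 * CM 0 / m)⁻¹ := by rw [inv_div]
    rw [h3]
    exact inv_anti₀ (by positivity) h2
  have h2 : 2 * CM 0 * Real.exp (-(L ^ 2 / 4)) ≤ m / 2 := by
    calc _ ≤ 2 * CM 0 * (m / (4 * CM 0)) := mul_le_mul_of_nonneg_left h1 (by positivity)
      _ = m / 2 := by field_simp; ring
  have h3 := sum_filter_add_sum_filter_not (range (n + 1))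
    (fun k : ℕ => L * √n ≤ |kap μ z * n - k|) (fun k => wt μ z 0 n k)
  have h4 := D.low n hn
  have h5 : m / 2 ≤ ∑ k ∈ (range (n + 1)).filter (fun k : ℕ => ¬L * √n ≤ |kap μ z * n - k|),
      wt μ z 0 n k := by linarith
  have hb := D.b_pos (n := n + 1) (by omega)
  obtain ⟨X, hX⟩ : ∃ X : ℝ, X = 4 / (c * m) * b (n + 1) := ⟨_, rfl⟩
  have hc := D.c0
  have hX0 : 0 < X := by rw [hX]; positivity
  have h6 : X * (m / 2) ≤ ∑ k ∈ range (n + 1), r (k + 1) * wt μ z 0 n k := by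
    calc X * (m / 2) ≤ X * ∑ k ∈ (range (n + 1)).filter
          (fun k : ℕ => ¬L * √n ≤ |kap μ z * n - k|), wt μ z 0 n k :=
          mul_le_mul_of_nonneg_left h5 hX0.le
      _ = ∑ k ∈ (range (n + 1)).filter
          (fun k : ℕ => ¬L * √n ≤ |kap μ z * n - k|), X * wt μ z 0 n k := by rw [mul_sum]
      _ ≤ ∑ k ∈ (range (n + 1)).filter
          (fun k : ℕ => ¬L * √n ≤ |kap μ z * n - k|), r (k + 1) * wt μ z 0 n k := by
          refine sum_le_sum fun k hk => ?_
          obtain ⟨-, hk⟩ := mem_filter.1 hk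
          have := hcon k (not_le.1 hk)
          rw [hX]
          exact mul_le_mul_of_nonneg_right this.le (wt_nonneg D.P _ _ _)
      _ ≤ _ := by
          refine sum_le_sum_of_subset_of_nonneg (filter_subset _ _) fun k _ _ => ?_
          exact mul_nonneg (by linarith [D.r1 (k + 1)]) (wt_nonneg D.P _ _ _)
  have h7 := D.bl n
  have h8 := mul_le_mul_of_nonneg_left h6 hc.le
  have e2 : c * (X * (m / 2)) = 2 * b (n + 1) := by
    rw [hX]
    field_simp
    ring
  linarith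

/-- the exponents of the small lattice, upper bounds -/
theorem Dat.A3 (D : Dat μ z r b c C m) (E : Ser (fun k => Real.log (r k)) 2) {g : ℝ} (hg : 0 ≤ g)
    (h : ∀ ε : ℝ, 0 < ε → ∀ᶠ n : ℕ in atTop, Real.log (b n) ≤ (g + ε) * Real.log n) :
    ∀ ε : ℝ, 0 < ε → ∀ᶠ k : ℕ in atTop, Real.log (r k) ≤ (g + ε) * Real.log k := by
  obtain ⟨L, hL1, hL⟩ := D.good
  obtain ⟨κ1, κ2, κ0, -⟩ := D.P.kap_bd
  obtain ⟨J, hJ⟩ : ∃ J : ℕ, 12 * L + 10 ≤ J := exists_nat_ge _
  have hJ10 : 10 ≤ J := by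
    have : (10 : ℝ) ≤ J := by linarith
    exact_mod_cast this
  have hch : ∀ j : ℕ, ∃ k : ℕ, |kap μ z * ((j + J) ^ 2 : ℕ) - k| < L * (j + J) ∧
      r (k + 1) ≤ 4 / (c * m) * b ((j + J) ^ 2 + 1) := by
    intro j
    have hj : (J : ℝ) ≤ (j + J : ℕ) := by push_cast; linarith [(Nat.cast_nonneg j : (0 : ℝ) ≤ j)]
    have hJj : 10 ≤ j + J := by omega
    have hJ2 : 2 ≤ (j + J) ^ 2 := by nlinarith
    have e : √(((j + J) ^ 2 : ℕ) : ℝ) = (j + J : ℕ) := by
      rw [Nat.cast_pow]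
      exact Real.sqrt_sq (Nat.cast_nonneg _)
    have hsq : ((j + J : ℕ) : ℝ) ≤ (((j + J) ^ 2 : ℕ) : ℝ) := by
      rw [Nat.cast_pow]
      nlinarith
    obtain ⟨k, h1, h2⟩ := hL ((j + J) ^ 2) hJ2 (by linarith) (by
      rw [e]
      push_cast at *
      nlinarith)
    refine ⟨k, ?_, h2⟩
    rw [e] at h1
    push_cast at h1 ⊢
    exact h1
  choose κ hκ1 hκ2 using hch
  obtain ⟨t, ht⟩ : ∃ t : ℕ → ℕ, t = fun j => κ j + 1 := ⟨_, rfl⟩
  have htj : ∀ j, (t j : ℝ) = κ j + 1 := fun j => by rw [ht]; push_cast; ring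
  have hlow : ∀ j : ℕ, (1 / 4) * ((j : ℝ) + J) ^ 2 ≤ t j := by
    intro j
    have h1 := (abs_lt.1 (hκ1 j)).2
    have h2 : (J : ℝ) ≤ (j : ℝ) + J := by linarith [(Nat.cast_nonneg j : (0 : ℝ) ≤ j)]
    push_cast at h1
    rw [htj]
    nlinarith [sq_nonneg ((j : ℝ) + J)]
  have hup : ∀ j : ℕ, (t j : ℝ) ≤ ((j : ℝ) + J) ^ 2 := by
    intro j
    have h1 := (abs_lt.1 (hκ1 j)).1
    have h2 : (J : ℝ) ≤ (j : ℝ) + J := by linarith [(Nat.cast_nonneg j : (0 : ℝ) ≤ j)]
    push_cast at h1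
    rw [htj]
    nlinarith [sq_nonneg ((j : ℝ) + J)]
  have htend : Tendsto t atTop atTop := by
    refine tendsto_atTop_mono (fun j => ?_) tendsto_id
    have h1 := hlow j
    have h2 : (J : ℝ) ≤ (j : ℝ) + J := by linarith [(Nat.cast_nonneg j : (0 : ℝ) ≤ j)]
    have h3 : (10 : ℝ) ≤ J := by exact_mod_cast hJ10
    have h4 : (j : ℝ) ≤ t j := by nlinarith
    exact_mod_cast h4
  have hgap : ∀ j : ℕ, |(t (j + 1) : ℝ) - t j| ≤ 6 * L * ((j : ℝ) + J) := by
    intro j
    have h1 := abs_lt.1 (hκ1 j)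
    have h2 := abs_lt.1 (hκ1 (j + 1))
    have h3 : (J : ℝ) ≤ (j : ℝ) + J := by linarith [(Nat.cast_nonneg j : (0 : ℝ) ≤ j)]
    have h4 : (10 : ℝ) ≤ J := by exact_mod_cast hJ10
    push_cast at h1 h2
    rw [htj, htj, abs_le]
    have h5 : kap μ z * ((j : ℝ) + 1 + J) ^ 2 - kap μ z * ((j : ℝ) + J) ^ 2 =
        kap μ z * (2 * ((j : ℝ) + J) + 1) := by ring
    have h6 : kap μ z * (2 * ((j : ℝ) + J) + 1) ≤ 1 / 2 * (2 * ((j : ℝ) + J) + 1) :=
      mul_le_mul_of_nonneg_right κ2 (by linarith)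
    have h7 : 0 ≤ kap μ z * (2 * ((j : ℝ) + J) + 1) := mul_nonneg κ0.le (by linarith)
    have h8 : (j : ℝ) + J ≤ L * ((j : ℝ) + J) := le_mul_of_one_le_left (by linarith) hL1
    have h9 : L * ((j : ℝ) + 1 + J) = L * ((j : ℝ) + J) + L := by ring
    have h10 : L ≤ L * ((j : ℝ) + J) := le_mul_of_one_le_right (by linarith) (by linarith)
    constructor <;> linarith
  have hlogt : Tendsto (fun j => Real.log (t j)) atTop atTop := log_tend.comp htend
  have hsp : Sparse t := by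
    have h1 : Tendsto (fun j : ℕ => 12 * L / √(Real.log (t j))) atTop (𝓝 0) :=
      (Real.tendsto_sqrt_atTop.comp hlogt).const_div_atTop _
    refine squeeze_zero_norm' ?_ h1
    filter_upwards [hlogt.eventually_ge_atTop 1] with j hj
    have h3 : (J : ℝ) ≤ (j : ℝ) + J := by linarith [(Nat.cast_nonneg j : (0 : ℝ) ≤ j)]
    have h4 : (10 : ℝ) ≤ J := by exact_mod_cast hJ10
    have h5 : 0 < √(Real.log (t j)) := Real.sqrt_pos.2 (by linarith)
    have h6 : ((j : ℝ) + J) / 2 * √(Real.log (t j)) ≤ √(t j * Real.log (t j)) := by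
      rw [Real.sqrt_mul (Nat.cast_nonneg _)]
      refine mul_le_mul_of_nonneg_right ?_ h5.le
      refine Real.le_sqrt_of_sq_le ?_
      have := hlow j
      nlinarith
    have h7 : 0 < ((j : ℝ) + J) / 2 * √(Real.log (t j)) := mul_pos (by linarith) h5
    rw [Real.norm_eq_abs, abs_div, abs_of_nonneg (Real.sqrt_nonneg (t j * Real.log (t j)))]
    calc _ ≤ 6 * L * ((j : ℝ) + J) / (((j : ℝ) + J) / 2 * √(Real.log (t j))) :=
          div_le_div₀ (by positivity) (hgap j) h7 h6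
      _ = _ := by
          have : (j : ℝ) + J ≠ 0 := by linarith
          field_simp
          ring
  intro ε hε
  refine E.up htend hsp (b := g) (fun ε' hε' => ?_) hε
  have hcm : 0 < 4 / (c * m) := by
    have := D.c0
    have := D.m0
    positivity
  have hsqt : Tendsto (fun j : ℕ => (j + J) ^ 2 + 1) atTop atTop := by
    refine tendsto_atTop_mono (fun j => ?_) tendsto_id
    simp only [id]
    nlinarith
  filter_upwards [hsqt.eventually (h (ε' / 2) (by positivity)),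
    htend.eventually (log_le_eps (show 0 < ε' / 2 by positivity)
      (Real.log (4 / (c * m)) + (g + ε' / 2) * Real.log 8))] with j h1 h2
  have h3 : (J : ℝ) ≤ (j : ℝ) + J := by linarith [(Nat.cast_nonneg j : (0 : ℝ) ≤ j)]
  have h4 : (10 : ℝ) ≤ J := by exact_mod_cast hJ10
  have hJj : 10 ≤ j + J := by omega
  have hb := D.b_pos (n := (j + J) ^ 2 + 1) (by nlinarith)
  have h5 := hκ2 j
  have h6 : t j = κ j + 1 := by rw [ht]
  rw [← h6] at h5
  have h7 := Real.log_le_log (by linarith [D.r1 (t j)]) h5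
  rw [Real.log_mul hcm.ne' hb.ne'] at h7
  have h8 := hlow j
  have h9 : (0 : ℝ) < t j := by nlinarith
  have h10 : Real.log (((j + J) ^ 2 + 1 : ℕ) : ℝ) ≤ Real.log 8 + Real.log (t j) := by
    rw [← Real.log_mul (by norm_num) h9.ne']
    refine Real.log_le_log (by positivity) ?_
    push_cast
    nlinarith
  have h11 := mul_le_mul_of_nonneg_left h10 (show 0 ≤ g + ε' / 2 by positivity)
  linarith

/-- the exponents of the small lattice, lower bounds -/
theorem Dat.A4 (D : Dat μ z r b c C m) (E : Ser (fun k => Real.log (r k)) 2) {g : ℝ} (hg : 0 ≤ g)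
    (hup : ∀ ε : ℝ, 0 < ε → ∀ᶠ k : ℕ in atTop, Real.log (r k) ≤ (g + ε) * Real.log k)
    (hlo : ∀ ε : ℝ, 0 < ε → ∀ᶠ n : ℕ in atTop, (g - ε) * Real.log n ≤ Real.log (b n)) :
    ∀ ε : ℝ, 0 < ε → ∀ᶠ k : ℕ in atTop, (g - ε) * Real.log k ≤ Real.log (r k) := by
  intro ε hε
  obtain ⟨κ1, κ2, κ0, -⟩ := D.P.kap_bd
  have hC6 := CM_pos 6
  have hC := D.C0
  have hpos : ∀ k, 0 < r k := fun k => by linarith [D.r1 k]
  have hell : ∀ k, 0 ≤ Real.log (r k) := fun k => Real.log_nonneg (D.r1 k)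
  have hB : ∀ᶠ n : ℕ in atTop, |(fun k => Real.log (r k)) n| ≤ (g + 1) * Real.log n := by
    filter_upwards [hup 1 one_pos] with n hn
    rw [abs_of_nonneg (hell n)]
    exact hn
  obtain ⟨η, hη0, hη1, hosc⟩ := E.osc hB (show 0 < ε / 4 by positivity)
  obtain ⟨N1, hN1⟩ := eventually_atTop.1 hosc
  obtain ⟨η', hη'⟩ : ∃ η' : ℝ, η' = η / 8 := ⟨_, rfl⟩
  have hη'0 : 0 < η' := by rw [hη']; positivity
  obtain ⟨δ, hδ⟩ : ∃ δ : ℝ, δ = min (η' ^ 2 / 16) (ε / 8) := ⟨_, rfl⟩
  have hδ0 : 0 < δ := by rw [hδ]; exact lt_min (by positivity) (by positivity)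
  have hδ1 : δ ≤ η' ^ 2 / 16 := by rw [hδ]; exact min_le_left _ _
  have hδ2 : δ ≤ ε / 8 := by rw [hδ]; exact min_le_right _ _
  obtain ⟨N2, hN2⟩ := eventually_atTop.1 (hup δ hδ0)
  obtain ⟨x, hx⟩ : ∃ x : ℝ, x = g - δ - ε / 4 := ⟨_, rfl⟩
  -- facts about large `n`
  have hbig : ∀ᶠ n : ℕ in atTop, (g - δ) * Real.log n ≤ Real.log (b n) ∧
      6 * N1 + 3 * N2 + 100 ≤ n ∧ Real.log (4 * C * CM 6) ≤ 2 * δ * Real.log n ∧
      1 ≤ Real.log (n : ℝ) ∧ η' * √(n * Real.log n) + 1 ≤ n / 12 := by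
    have h1 : ∀ᶠ n : ℕ in atTop, η' * √((n : ℝ) * Real.log n) + 1 ≤ n / 12 := by
      have h2 : Tendsto (fun n : ℕ => Real.log (n : ℝ) / n) atTop (𝓝 0) := by
        have := Real.isLittleO_log_id_atTop.tendsto_div_nhds_zero
        exact this.comp tendsto_natCast_atTop_atTop
      filter_upwards [h2.eventually_lt_const (show (0 : ℝ) < 1 / 576 by norm_num),
        eventually_ge_atTop 100] with n h3 h4
      have hn0 : (0 : ℝ) < n := by exact_mod_cast (show 0 < n by omega)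
      have h5 : (100 : ℝ) ≤ n := by exact_mod_cast h4
      rw [div_lt_iff₀ hn0] at h3
      have h6 : √((n : ℝ) * Real.log n) ≤ n / 24 := by
        rw [Real.sqrt_le_left (by positivity)]
        nlinarith
      have h7 : η' ≤ 1 := by rw [hη']; linarith
      have h8 : 0 ≤ √((n : ℝ) * Real.log n) := Real.sqrt_nonneg _
      nlinarith
    filter_upwards [hlo δ hδ0, eventually_ge_atTop (6 * N1 + 3 * N2 + 100),
      log_le_eps (show 0 < 2 * δ by positivity) (Real.log (4 * C * CM 6)),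
      log_tend.eventually_ge_atTop 1, h1] with n a1 a2 a3 a4 a5
    exact ⟨a1, a2, a3, a4, a5⟩
  have hfl : Tendsto (fun k : ℕ => ⌊(k : ℝ) / kap μ z⌋₊) atTop atTop := by
    refine tendsto_atTop_mono (fun k => ?_) tendsto_id
    simp only [id]
    refine Nat.le_floor ?_
    rw [le_div_iff₀ κ0]
    have : (0 : ℝ) ≤ k := Nat.cast_nonneg _
    nlinarith
  have hosc2 : ∀ᶠ k : ℕ in atTop, 1 ≤ η / 2 * √((k : ℝ) / 2 * Real.log ((k : ℝ) / 2)) := by
    have h1 : Tendsto (fun k : ℕ => (k : ℝ) / 2) atTop atTop :=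
      tendsto_natCast_atTop_atTop.atTop_div_const (by norm_num)
    have h2 : Tendsto (fun k : ℕ => √((k : ℝ) / 2 * Real.log ((k : ℝ) / 2))) atTop atTop :=
      Real.tendsto_sqrt_atTop.comp (h1.atTop_mul_atTop₀ (Real.tendsto_log_atTop.comp h1))
    have h3 := h2.const_mul_atTop (show 0 < η / 2 by positivity)
    exact h3.eventually_ge_atTop 1
  filter_upwards [hfl.eventually hbig, hosc2,
    log_le_eps (show 0 < ε / 2 by positivity) (|x| * Real.log 3 + Real.log (2 * C * CM 6)),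
    eventually_ge_atTop 100] with k hk hk2 hk3 hk100
  obtain ⟨n, hn⟩ : ∃ n : ℕ, n = ⌊(k : ℝ) / kap μ z⌋₊ := ⟨_, rfl⟩
  rw [← hn] at hk
  obtain ⟨a1, a2, a3, a4, a5⟩ := hk
  have hk0 : (0 : ℝ) < k := by exact_mod_cast (show 0 < k by omega)
  have hn0 : (0 : ℝ) < n := by exact_mod_cast (show 0 < n by omega)
  have f1 : kap μ z * n ≤ k := by
    have := Nat.floor_le (show 0 ≤ (k : ℝ) / kap μ z by positivity)
    rw [← hn, le_div_iff₀ κ0] at this
    linarith
  have f2 : (k : ℝ) < kap μ z * n + kap μ z := by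
    have := Nat.lt_floor_add_one ((k : ℝ) / kap μ z)
    rw [← hn, div_lt_iff₀ κ0] at this
    linarith
  have f3 : (n : ℝ) ≤ 3 * k := by nlinarith
  have f4 : (k : ℝ) ≤ n := by
    have h1 : (k : ℝ) < 1 / 2 * n + 1 / 2 := by nlinarith
    have h2 : (1 : ℝ) ≤ n := by exact_mod_cast (show 1 ≤ n by omega)
    linarith
  obtain ⟨W, hW⟩ : ∃ W : ℝ, W = η' * √(n * Real.log n) := ⟨_, rfl⟩
  rw [← hW] at a5
  have hW0 : 0 ≤ W := by rw [hW]; positivity
  have hlogn : 0 < Real.log n := by linarith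
  have hW2 : W ^ 2 / (4 * n) = η' ^ 2 / 4 * Real.log n := by
    rw [hW, mul_pow, Real.sq_sqrt (by positivity)]
    field_simp
  -- inside
  have hin : ∀ k' ∈ (range (n + 1)).filter (fun k' : ℕ => ¬W ≤ |kap μ z * n - k'|),
      r k' * wt μ z 6 n k' ≤
        Real.exp (Real.log (r k) + ε / 4 * Real.log n) * wt μ z 6 n k' := by
    intro k' hk'
    obtain ⟨hk'1, hk'⟩ := mem_filter.1 hk'
    rw [mem_range] at hk'1
    refine mul_le_mul_of_nonneg_right ?_ (wt_nonneg D.P _ _ _)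
    rw [← Real.log_le_iff_le_exp (hpos k')]
    have g1 := abs_lt.1 (not_le.1 hk')
    have g2 : |(k' : ℝ) - k| < W + 1 := by
      rw [abs_lt]
      constructor <;> linarith
    have key : ∀ p q : ℕ, p ≤ q → (q : ℝ) - p < W + 1 → (k : ℝ) / 2 ≤ p → p ≤ n →
        |Real.log (r q) - Real.log (r p)| ≤ ε / 4 * Real.log n := by
      intro p q hpq h1 h2 hpn
      have hp0 : (0 : ℝ) < p := by linarith
      have h3 : (6 * N1 + 3 * N2 + 100 : ℝ) ≤ n := by exact_mod_cast a2
      have hN20 : (0 : ℝ) ≤ N2 := Nat.cast_nonneg _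
      have hN10 : (0 : ℝ) ≤ N1 := Nat.cast_nonneg _
      have hpN : N1 ≤ p := by
        have h4 : (N1 : ℝ) ≤ p := by linarith
        exact_mod_cast h4
      have hp6 : (6 : ℝ) ≤ p := by linarith
      have hlp : 0 < Real.log p := Real.log_pos (by linarith)
      have h4 : Real.log n ≤ 2 * Real.log p := by
        have h5 : Real.log n ≤ Real.log ((p : ℝ) ^ 2) :=
          Real.log_le_log hn0 (by nlinarith)
        rw [Real.log_pow] at h5
        exact_mod_cast h5
      have h5 : √((n : ℝ) * Real.log n) ≤ 4 * √((p : ℝ) * Real.log p) := by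
        rw [Real.sqrt_le_left (by positivity), mul_pow, Real.sq_sqrt (by positivity)]
        calc (n : ℝ) * Real.log n ≤ (6 * p) * (2 * Real.log p) :=
              mul_le_mul (by linarith) h4 (by linarith) (by positivity)
          _ ≤ _ := by
              have := mul_pos hp0 hlp
              linarith
      have h6 : √((k : ℝ) / 2 * Real.log ((k : ℝ) / 2)) ≤ √((p : ℝ) * Real.log p) := by
        have hk1 : (100 : ℝ) ≤ k := by exact_mod_cast hk100
        refine Real.sqrt_le_sqrt (mul_le_mul h2 (Real.log_le_log (by linarith) h2)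
          (Real.log_nonneg (by linarith)) (by positivity))
      have h7 := mul_le_mul_of_nonneg_left h5 hη'0.le
      have h8 := mul_le_mul_of_nonneg_left h6 (show 0 ≤ η / 2 by positivity)
      have h3 := hN1 p hpN (q - p) (by
        rw [Nat.cast_sub hpq]
        rw [hW, hη'] at h1
        rw [hη'] at h7
        linarith)
      have e : p + (q - p) = q := by omega
      simp only [e] at h3
      refine h3.trans (mul_le_mul_of_nonneg_left ?_ (by positivity))
      exact Real.log_le_log hp0 (by exact_mod_cast hpn)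
    have g3 := abs_lt.1 g2
    rcases le_total k k' with hc | hc
    · have := (abs_le.1 (key k k' hc (by linarith) (by linarith)
        (by exact_mod_cast f4))).2
      linarith
    · have := (abs_le.1 (key k' k hc (by linarith) (by linarith) (by omega))).1
      linarith
  have hS1 : ∑ k' ∈ (range (n + 1)).filter (fun k' : ℕ => ¬W ≤ |kap μ z * n - k'|),
      r k' * wt μ z 6 n k' ≤ Real.exp (Real.log (r k) + ε / 4 * Real.log n) * CM 6 := by
    refine (sum_le_sum hin).trans ?_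
    rw [← mul_sum]
    refine mul_le_mul_of_nonneg_left ?_ (Real.exp_pos _).le
    refine le_trans ?_ (D.P.tot 6 n)
    exact sum_le_sum_of_subset_of_nonneg (filter_subset _ _) fun k' _ _ => wt_nonneg D.P _ _ _
  have hS2 : ∑ k' ∈ (range (n + 1)).filter (fun k' : ℕ => W ≤ |kap μ z * n - k'|),
      r k' * wt μ z 6 n k' ≤ 2 * CM 6 * Real.exp ((g - 3 * δ) * Real.log n) := by
    have h1 : ∀ k' ∈ (range (n + 1)).filter (fun k' : ℕ => W ≤ |kap μ z * n - k'|),
        r k' * wt μ z 6 n k' ≤ Real.exp ((g + δ) * Real.log n) * wt μ z 6 n k' := by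
      intro k' _
      have hw := wt_nonneg D.P 6 n k'
      rcases hw.eq_or_lt with h | h
      · rw [← h]; simp
      · obtain ⟨s1, s2⟩ := wt_supp 6 n k' h.ne'
        refine mul_le_mul_of_nonneg_right ?_ hw
        rw [← Real.log_le_iff_le_exp (hpos k')]
        refine (hN2 k' (by omega)).trans (mul_le_mul_of_nonneg_left ?_ (by positivity))
        exact Real.log_le_log (by exact_mod_cast (show 0 < k' by omega))
          (by exact_mod_cast (show k' ≤ n by omega))
    refine (sum_le_sum h1).trans ?_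
    rw [← mul_sum]
    have h2 := D.P.tail 6 n (by omega) hW0 (by linarith)
    rw [hW2] at h2
    refine (mul_le_mul_of_nonneg_left h2 (Real.exp_pos _).le).trans ?_
    have e : Real.exp ((g + δ) * Real.log n) *
        (2 * CM 6 * Real.exp (-(η' ^ 2 / 4 * Real.log n))) =
        2 * CM 6 * Real.exp ((g + δ) * Real.log n + -(η' ^ 2 / 4 * Real.log n)) := by
      rw [Real.exp_add]
      ring
    rw [e]
    refine mul_le_mul_of_nonneg_left (Real.exp_le_exp.2 ?_) (by positivity)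
    nlinarith
  have hbn := D.bu n (by omega)
  rw [← sum_filter_add_sum_filter_not (range (n + 1))
    (fun k' : ℕ => W ≤ |kap μ z * n - k'|)] at hbn
  have hbp := D.b_pos (n := n) (by omega)
  have h1 : Real.exp ((g - δ) * Real.log n) ≤ b n := by
    rw [← Real.le_log_iff_exp_le hbp]
    exact a1
  have h2 : 4 * C * CM 6 * Real.exp ((g - 3 * δ) * Real.log n) ≤
      Real.exp ((g - δ) * Real.log n) := by
    have h3 : 4 * C * CM 6 ≤ Real.exp (2 * δ * Real.log n) := by
      rw [← Real.log_le_iff_le_exp (by positivity)]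
      exact a3
    calc _ ≤ Real.exp (2 * δ * Real.log n) * Real.exp ((g - 3 * δ) * Real.log n) :=
          mul_le_mul_of_nonneg_right h3 (Real.exp_pos _).le
      _ = _ := by
          rw [← Real.exp_add]
          congr 1
          ring
  have h3 : Real.exp ((g - δ) * Real.log n) ≤
      2 * C * CM 6 * Real.exp (Real.log (r k) + ε / 4 * Real.log n) := by
    have h4 := mul_le_mul_of_nonneg_left (add_le_add hS2 hS1) hC.le
    nlinarith
  have h4 := Real.log_le_log (Real.exp_pos _) h3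
  rw [Real.log_exp, Real.log_mul (by positivity) (Real.exp_pos _).ne', Real.log_exp] at h4
  have hlk : 0 ≤ Real.log (k : ℝ) := Real.log_nonneg (by exact_mod_cast (show 1 ≤ k by omega))
  have h5 : Real.log k ≤ Real.log n := Real.log_le_log hk0 f4
  have h6 : Real.log n ≤ Real.log 3 + Real.log k := by
    rw [← Real.log_mul (by norm_num) hk0.ne']
    exact Real.log_le_log hn0 f3
  have h7 : -(|x| * Real.log 3) ≤ x * (Real.log n - Real.log k) := by
    have h8 : |x * (Real.log n - Real.log k)| ≤ |x| * Real.log 3 := by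
      rw [abs_mul, abs_of_nonneg (show 0 ≤ Real.log n - Real.log k by linarith)]
      exact mul_le_mul_of_nonneg_left (by linarith) (abs_nonneg _)
    exact (abs_le.1 h8).1
  have h8 : x * Real.log n = (g - δ) * Real.log n - ε / 4 * Real.log n := by rw [hx]; ring
  have h9 : x * Real.log k = (g - δ - ε / 4) * Real.log k := by rw [hx]
  have h10 := mul_le_mul_of_nonneg_right hδ2 hlk
  have h11 : 0 ≤ ε * Real.log k := mul_nonneg hε.le hlk
  nlinarith

end Pool.Agent.H90.FS
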