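import Pool.Agent.H90.FS.Geo
import Pool.Agent.H90.FS.Tau
import Pool.Graph.R_pool_sql_team_seeded_2aa45f1a.Results.MP_8c6f77_pr.PerfectSquares
import Pool.Graph.R_pool_sql_team_seeded_843ab51a.Results.MP_8c6f77_pr.EquivalenceWithGrowth
import Pool.Graph.R_seed8.TH232.Hex.Low

/-!
The comparison of the exponents of the honeycomb and of the (3.12²) lattice.
-/

set_option autoImplicit false

namespace Pool.Agent.H90.FS

open Finset Filter Topology Q215.SAW.Cvx

/-- the honeycomb lattice in the form of the library -/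
def A0 : ℤ × ℤ → ℤ × ℤ → Prop := fun p q : ℤ × ℤ =>
  q - p = (1, 0) ∨ q - p = (-1, 0) ∨ (q - p = (0, 1) ∧ Even (p.1 + p.2)) ∨
    (q - p = (0, -1) ∧ Even (q.1 + q.2))

theorem A0_iff (p q : ℤ × ℤ) : A0 p q ↔ ∃ c, q = nbr c p := by
  obtain ⟨x, y⟩ := p
  obtain ⟨u, v⟩ := q
  unfold A0
  simp only [Prod.mk_sub_mk, Prod.mk.injEq, Int.even_iff]
  rcases Int.emod_two_eq_zero_or_one (x + y) with h | h
  · constructor
    · rintro (h1 | h1 | ⟨h1, h2⟩ | ⟨h1, h2⟩)
      · exact ⟨0, by rw [n0e h, Prod.mk.injEq]; omega⟩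
      · exact ⟨1, by rw [n1e h, Prod.mk.injEq]; omega⟩
      · exact ⟨2, by rw [n2e h, Prod.mk.injEq]; omega⟩
      · omega
    · rintro ⟨c, hc⟩
      revert hc
      revert c
      refine cases3 ?_ ?_ ?_
      · rw [n0e h, Prod.mk.injEq]; omega
      · rw [n1e h, Prod.mk.injEq]; omega
      · rw [n2e h, Prod.mk.injEq]; omega
  · constructor
    · rintro (h1 | h1 | ⟨h1, h2⟩ | ⟨h1, h2⟩)
      · exact ⟨1, by rw [n1o h, Prod.mk.injEq]; omega⟩
      · exact ⟨0, by rw [n0o h, Prod.mk.injEq]; omega⟩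
      · omega
      · exact ⟨2, by rw [n2o h, Prod.mk.injEq]; omega⟩
    · rintro ⟨c, hc⟩
      revert hc
      revert c
      refine cases3 ?_ ?_ ?_
      · rw [n0o h, Prod.mk.injEq]; omega
      · rw [n1o h, Prod.mk.injEq]; omega
      · rw [n2o h, Prod.mk.injEq]; omega

open Pool.Agent.Results.MP_8c6f77_pr

theorem a_aH (n : ℕ) : PerfectSquares.a A0 n = aH n := by
  unfold PerfectSquares.a aH hc
  rw [ncard_eq nbr nbr_inj A0 A0_iff n 0]

theorem isLat : PerfectSquares.IsLattice A0 2 := Or.inr (Or.inr ⟨rfl, rfl⟩)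

theorem mu_eq : PerfectSquares.mu A0 = √(2 + √2) := Q215.SAW.hex_mu'

/-- ratios -/
noncomputable def rH (k : ℕ) : ℝ := aH k / √(2 + √2) ^ k

theorem mu_pos : 0 < √(2 + √2) := by positivity

theorem basic : 1 ≤ √(2 + √2) ∧ Ser (fun k => Real.log (rH k)) 2 ∧ (∀ k, 1 ≤ rH k) ∧
    ∃ K : ℝ, 0 ≤ K ∧ ∀ n : ℕ, 2 ≤ n → rH n ≤ Real.exp (K * Real.log n ^ 2) := by
  obtain ⟨Z, K, hs, G⟩ := PerfectSquares.facts isLat
  have E := Q215.SAW.ser G (PerfectSquares.fn_all A0)
  rw [hs] at E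
  have hcard : ∀ n, aH n = ((TH966.AK.Kw A0 n).card : ℝ) := fun n => by
    rw [← a_aH, PerfectSquares.a_eq Z, TH966.AK.WF_one]
  have e : (fun n : ℕ => Real.log (TH966.AK.WF A0 (fun _ => 1) n / PerfectSquares.mu A0 ^ n)) =
      fun k => Real.log (rH k) := by
    funext n
    rw [← PerfectSquares.a_eq Z, a_aH, mu_eq]
    rfl
  rw [e] at E
  have hμ := G.hμ
  have hlow := G.low
  have hup := G.up
  rw [mu_eq] at hμ hlow hup
  refine ⟨hμ, E, fun k => ?_, K, G.hK, fun n hn => ?_⟩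
  · unfold rH
    rw [one_le_div (pow_pos mu_pos k), hcard]
    exact hlow k
  · unfold rH
    rw [div_le_iff₀ (pow_pos mu_pos n), hcard, mul_comm]
    exact hup n hn

theorem low75 (n : ℕ) : 2 / 5 * (n : ℝ) ^ ((1 : ℝ) / 75) ≤ rH n := by
  have h := Pool.Agent.TH232.Hex.lower75 n
  have e : (Set.ncard (H978R2.Hex.saws n) : ℝ) = aH n := by
    rw [← a_aH]
    rfl
  rw [e] at h
  unfold rH
  rw [le_div_iff₀ (pow_pos mu_pos n)]
  have e2 : H978R2.Hex.mu0 = √(2 + √2) := rfl
  rw [e2] at h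
  linarith

/-- everything about the two sequences -/
theorem dat : ∃ z c C m : ℝ, Dat (√(2 + √2)) z rH (fun n => aF n * z ^ n) c C m := by
  obtain ⟨hμ, -, hr1, -⟩ := basic
  obtain ⟨z, P⟩ := par_exists hμ
  obtain ⟨m, m0, hm⟩ := P.tot_low
  have hz := P.hz
  refine ⟨z, z * √(2 + √2) / 3, 20, m, P, hr1, by positivity, by norm_num, m0, hm, ?_, ?_⟩
  · intro n
    have h1 := aF_low n
    have h2 := Sg_wt P (fun k => aH (k + 1)) 0 n
    have e : ∑ k ∈ range (n + 1), aH (k + 1) / √(2 + √2) ^ k * wt (√(2 + √2)) z 0 n k =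
        √(2 + √2) * ∑ k ∈ range (n + 1), rH (k + 1) * wt (√(2 + √2)) z 0 n k := by
      rw [mul_sum]
      refine sum_congr rfl fun k _ => ?_
      unfold rH
      have h3 := mu_pos.ne'
      have h4 : √(2 + √2) ^ k ≠ 0 := pow_ne_zero _ h3
      rw [pow_succ]
      field_simp
    rw [e] at h2
    have h3 : z * √(2 + √2) / 3 * ∑ k ∈ range (n + 1), rH (k + 1) * wt (√(2 + √2)) z 0 n k =
        z * (z ^ n * Sg (fun k => aH (k + 1)) 0 n) / 3 := by
      rw [h2]
      ring
    rw [h3]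
    have h4 : z * (z ^ n * Sg (fun k => aH (k + 1)) 0 n) ≤ z * (z ^ n * (3 * aF (n + 1))) := by
      gcongr
    have h5 : aF (n + 1) * z ^ (n + 1) = z * (z ^ n * (3 * aF (n + 1))) / 3 := by
      rw [pow_succ]
      ring
    rw [h5]
    linarith
  · intro n hn
    have h1 := aF_up n hn
    have h2 := Sg_wt P aH 6 n
    calc aF n * z ^ n ≤ 20 * Sg aH 6 n * z ^ n := by gcongr
      _ = 20 * (z ^ n * Sg aH 6 n) := by ring
      _ = _ := by rw [h2]; rfl

/-- limits in terms of inequalities -/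
theorem tend_iff (s : ℕ → ℝ) (g : ℝ) :
    Tendsto (fun n : ℕ => s n / Real.log n) atTop (𝓝 g) ↔
      (∀ ε : ℝ, 0 < ε → ∀ᶠ n : ℕ in atTop, s n ≤ (g + ε) * Real.log n) ∧
      (∀ ε : ℝ, 0 < ε → ∀ᶠ n : ℕ in atTop, (g - ε) * Real.log n ≤ s n) := by
  have hl : ∀ᶠ n : ℕ in atTop, 0 < Real.log (n : ℝ) := log_tend.eventually_gt_atTop 0
  constructor
  · intro h
    constructor
    · intro ε hε
      filter_upwards [h.eventually (gt_mem_nhds (show g < g + ε by linarith)), hl] with n h1 h2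
      rw [div_lt_iff₀ h2] at h1
      exact h1.le
    · intro ε hε
      filter_upwards [h.eventually (lt_mem_nhds (show g - ε < g by linarith)), hl] with n h1 h2
      rw [lt_div_iff₀ h2] at h1
      exact h1.le
  · rintro ⟨h1, h2⟩
    rw [Metric.tendsto_nhds]
    intro ε hε
    filter_upwards [h1 (ε / 2) (by positivity), h2 (ε / 2) (by positivity), hl] with n a1 a2 a3
    rw [Real.dist_eq, abs_lt]
    have b1 : s n / Real.log n ≤ g + ε / 2 := by rw [div_le_iff₀ a3]; exact a1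
    have b2 : g - ε / 2 ≤ s n / Real.log n := by rw [le_div_iff₀ a3]; exact a2
    constructor <;> linarith

theorem nonneg_of_up {s : ℕ → ℝ} {g A : ℝ} (hA : ∀ᶠ n : ℕ in atTop, A ≤ s n)
    (h : ∀ ε : ℝ, 0 < ε → ∀ᶠ n : ℕ in atTop, s n ≤ (g + ε) * Real.log n) : 0 ≤ g := by
  by_contra hg
  push Not at hg
  obtain ⟨n, h1, h2, h3⟩ := (hA.and ((h (-g / 2) (by linarith)).and
    (log_le_eps (show 0 < -g / 2 by linarith) (-A + 1)))).exists
  have e : (g + -g / 2) * Real.log n = -(-g / 2 * Real.log n) := by ring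
  rw [e] at h2
  linarith

section
variable {z c C m : ℝ} (D : Dat (√(2 + √2)) z rH (fun n => aF n * z ^ n) c C m)
include D

/-- the exponents agree -/
theorem exp_iff (α : ℝ) :
    Tendsto (fun n : ℕ => Real.log (aF n * z ^ n) / Real.log n) atTop (𝓝 α) ↔
      Tendsto (fun n : ℕ => Real.log (rH n) / Real.log n) atTop (𝓝 α) := by
  obtain ⟨-, E, hr1, -⟩ := basic
  rw [tend_iff (fun n => Real.log (aF n * z ^ n)), tend_iff (fun n => Real.log (rH n))]
  constructor
  · rintro ⟨h1, h2⟩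
    have hα : 0 ≤ α := by
      refine nonneg_of_up (A := Real.log (c * m)) ?_ h1
      filter_upwards [eventually_ge_atTop 3] with n hn
      exact Real.log_le_log (mul_pos D.c0 D.m0) (D.b_low hn)
    have h3 := D.A3 E hα h1
    exact ⟨h3, D.A4 E hα h3 h2⟩
  · rintro ⟨h1, h2⟩
    have hα : 0 ≤ α := by
      refine nonneg_of_up (A := 0) (Eventually.of_forall fun n => ?_) h1
      exact Real.log_nonneg (hr1 n)
    exact ⟨D.A1 hα h1, D.A2 h2⟩

/-- the upper exponents agree -/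
theorem up_iff {β : ℝ} (hβ : 0 ≤ β) :
    (∀ ε : ℝ, 0 < ε → ∀ᶠ n : ℕ in atTop, Real.log (aF n * z ^ n) ≤ (β + ε) * Real.log n) ↔
      ∀ ε : ℝ, 0 < ε → ∀ᶠ n : ℕ in atTop, Real.log (rH n) ≤ (β + ε) * Real.log n := by
  obtain ⟨-, E, hr1, -⟩ := basic
  exact ⟨D.A3 E hβ, D.A1 hβ⟩

/-- unconditional bounds -/
theorem uncond : ∃ c' K : ℝ, 0 < c' ∧ 0 ≤ K ∧ ∀ n : ℕ, 3 ≤ n →
    c' * (n : ℝ) ^ ((1 : ℝ) / 75) ≤ aF n * z ^ n ∧ c' ≤ aF n * z ^ n ∧
    aF n * z ^ n ≤ Real.exp (K * Real.log n ^ 2) ∧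
    Real.exp (-(K * Real.log n ^ 2)) ≤ aF (2 * n) * z ^ (2 * n) / (aF n * z ^ n) ^ 2 := by
  obtain ⟨-, -, hr1, K0, hK0, hK⟩ := basic
  have hc := D.c0
  have hm := D.m0
  have hz := D.P.hz
  have hz1 := D.P.hz1
  have hCC : 0 < C * CM 6 := mul_pos D.C0 (CM_pos 6)
  obtain ⟨c', hc'⟩ : ∃ c' : ℝ, c' = c * m * (2 / 5 * (1 / 3 : ℝ) ^ ((1 : ℝ) / 75)) := ⟨_, rfl⟩
  have h13 : 0 < (1 / 3 : ℝ) ^ ((1 : ℝ) / 75) := Real.rpow_pos_of_pos (by norm_num) _
  have h13' : (1 / 3 : ℝ) ^ ((1 : ℝ) / 75) ≤ 1 :=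
    Real.rpow_le_one (by norm_num) (by norm_num) (by norm_num)
  have hc'0 : 0 < c' := by rw [hc']; positivity
  have hc'1 : c' ≤ c * m := by
    rw [hc']
    refine mul_le_of_le_one_right (by positivity) ?_
    linarith
  obtain ⟨K1, hK1⟩ : ∃ K1 : ℝ, K1 = K0 + |Real.log (C * CM 6)| + 12 * Real.log 3 := ⟨_, rfl⟩
  have hlog3 : 0 < Real.log 3 := Real.log_pos (by norm_num)
  have hK10 : 0 ≤ K1 := by rw [hK1]; positivity
  have hup : ∀ n : ℕ, 3 ≤ n → aF n * z ^ n ≤ Real.exp (K1 * Real.log n ^ 2) := by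
    intro n hn
    have hn1 : 1 ≤ Real.log n := by
      rw [Real.le_log_iff_exp_le (by exact_mod_cast (show 0 < n by omega))]
      have := Real.exp_one_lt_d9
      have h3 : (3 : ℝ) ≤ n := by exact_mod_cast hn
      linarith
    have hn2 : 1 ≤ Real.log n ^ 2 := by nlinarith
    rcases Nat.lt_or_ge n 12 with h | h
    · have h1 : aF n ≤ 3 ^ n := by
        unfold aF
        exact_mod_cast cnt_pos_le fb n _ _
      have h2 : aF n * z ^ n ≤ 3 ^ n * 1 := by
        have h3 : z ^ n ≤ 1 := pow_le_one₀ hz.le hz1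
        have h4 : 0 ≤ aF n := Nat.cast_nonneg _
        exact mul_le_mul h1 h3 (by positivity) (by positivity)
      have h3 : (3 : ℝ) ^ n = Real.exp (n * Real.log 3) := by
        rw [mul_comm, Real.exp_mul, Real.exp_log (by norm_num), Real.rpow_natCast]
      rw [mul_one, h3] at h2
      refine h2.trans (Real.exp_le_exp.2 ?_)
      have h4 : (n : ℝ) ≤ 12 := by exact_mod_cast h.le
      have h5 : n * Real.log 3 ≤ 12 * Real.log 3 := mul_le_mul_of_nonneg_right h4 hlog3.le
      have h6 : 12 * Real.log 3 ≤ K1 := by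
        rw [hK1]
        have := abs_nonneg (Real.log (C * CM 6))
        linarith
      have h7 : K1 ≤ K1 * Real.log n ^ 2 := le_mul_of_one_le_right hK10 hn2
      linarith
    · have h1 := D.up (n := n) hn (X := Real.exp (K0 * Real.log n ^ 2)) (Real.exp_pos _).le
        (fun k h1 h2 => by
          refine (hK k (by omega)).trans (Real.exp_le_exp.2 ?_)
          refine mul_le_mul_of_nonneg_left ?_ hK0
          have h3 : 0 ≤ Real.log (k : ℝ) :=
            Real.log_nonneg (by exact_mod_cast (show 1 ≤ k by omega))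
          have h4 : Real.log k ≤ Real.log n :=
            Real.log_le_log (by exact_mod_cast (show 0 < k by omega))
              (by exact_mod_cast (show k ≤ n by omega))
          exact pow_le_pow_left₀ h3 h4 2)
      refine h1.trans ?_
      rw [← Real.exp_log hCC, ← Real.exp_add]
      refine Real.exp_le_exp.2 ?_
      rw [hK1]
      have h5 := le_abs_self (Real.log (C * CM 6))
      have h6 := le_mul_of_one_le_right (abs_nonneg (Real.log (C * CM 6))) hn2
      have h7 : 0 ≤ 12 * Real.log 3 * Real.log n ^ 2 := by positivity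
      rw [add_mul, add_mul]
      linarith
  refine ⟨c', 2 * K1 + |Real.log (c * m)|, hc'0, by positivity, fun n hn => ⟨?_, ?_, ?_, ?_⟩⟩
  · obtain ⟨j, rfl⟩ : ∃ j, n = j + 1 := ⟨n - 1, by omega⟩
    have h1 := D.lo (n := j) (by omega) (X := 2 / 5 * ((1 / 3 : ℝ) ^ ((1 : ℝ) / 75) *
        ((j + 1 : ℕ) : ℝ) ^ ((1 : ℝ) / 75))) (by positivity) (fun k _ h2 => by
        refine le_trans ?_ (low75 (k + 1))
        refine mul_le_mul_of_nonneg_left ?_ (by norm_num)
        rw [← Real.mul_rpow (by norm_num) (Nat.cast_nonneg _)]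
        refine Real.rpow_le_rpow (by positivity) ?_ (by norm_num)
        have h3 : ((j + 1 : ℕ) : ℝ) ≤ 3 * ((k + 1 : ℕ) : ℝ) := by
          exact_mod_cast (show j + 1 ≤ 3 * (k + 1) by omega)
        linarith)
    refine le_trans (le_of_eq ?_) h1
    rw [hc']
    ring
  · exact hc'1.trans (D.b_low hn)
  · refine (hup n hn).trans (Real.exp_le_exp.2 ?_)
    refine mul_le_mul_of_nonneg_right ?_ (sq_nonneg _)
    have := abs_nonneg (Real.log (c * m))
    linarith
  · have h1 := D.b_low (n := 2 * n) (by omega)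
    have h2 := hup n hn
    have h3 := D.b_pos hn
    have hn1 : 1 ≤ Real.log n := by
      rw [Real.le_log_iff_exp_le (by exact_mod_cast (show 0 < n by omega))]
      have := Real.exp_one_lt_d9
      have h3 : (3 : ℝ) ≤ n := by exact_mod_cast hn
      linarith
    have hn2 : 1 ≤ Real.log n ^ 2 := by nlinarith
    rw [le_div_iff₀ (by positivity)]
    refine le_trans ?_ h1
    have h4 : (aF n * z ^ n) ^ 2 ≤ Real.exp (2 * K1 * Real.log n ^ 2) := by
      have h5 := pow_le_pow_left₀ h3.le h2 2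
      refine h5.trans (le_of_eq ?_)
      rw [← Real.exp_nat_mul]
      congr 1
      push_cast
      ring
    refine (mul_le_mul_of_nonneg_left h4 (Real.exp_pos _).le).trans ?_
    rw [← Real.exp_add, ← Real.le_log_iff_exp_le (by positivity)]
    have h5 := neg_abs_le (Real.log (c * m))
    have h6 := le_mul_of_one_le_right (abs_nonneg (Real.log (c * m))) hn2
    rw [add_mul]
    linarith

/-- the connective constant -/
theorem conn : Tendsto (fun n : ℕ => (cnt fb n ((0, 0), 0) ∅ : ℝ) ^ (1 / (n : ℝ))) atTop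
    (𝓝 (1 / z)) := by
  obtain ⟨c', K, hc', hK, h⟩ := uncond D
  have hz := D.P.hz
  have h1 : Tendsto (fun n : ℕ => Real.log (n : ℝ) ^ 2 / n) atTop (𝓝 0) := by
    have := Real.isLittleO_pow_log_id_atTop (n := 2)
    exact this.tendsto_div_nhds_zero.comp tendsto_natCast_atTop_atTop
  have h2 : Tendsto (fun n : ℕ => Real.log (aF n * z ^ n) / n) atTop (𝓝 0) := by
    have h3 : Tendsto (fun n : ℕ => (-|Real.log c'|) / (n : ℝ)) atTop (𝓝 0) :=
      tendsto_const_nhds.div_atTop tendsto_natCast_atTop_atTop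
    have h4 : Tendsto (fun n : ℕ => K * (Real.log (n : ℝ) ^ 2 / n)) atTop (𝓝 0) := by
      have := h1.const_mul K
      rwa [mul_zero] at this
    refine tendsto_of_tendsto_of_tendsto_of_le_of_le' h3 h4 ?_ ?_
    · filter_upwards [eventually_ge_atTop 3] with n hn
      refine div_le_div_of_nonneg_right ?_ (Nat.cast_nonneg _)
      exact (neg_abs_le _).trans (Real.log_le_log hc' (h n hn).2.1)
    · filter_upwards [eventually_ge_atTop 3] with n hn
      have h5 := (h n hn).2.2.1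
      rw [← mul_div_assoc]
      refine div_le_div_of_nonneg_right ?_ (Nat.cast_nonneg _)
      rw [Real.log_le_iff_le_exp (D.b_pos hn)]
      exact h5
  have h3 := (Real.continuous_exp.tendsto _).comp (h2.add_const (Real.log (1 / z)))
  rw [zero_add, Real.exp_log (by positivity)] at h3
  refine h3.congr' ?_
  filter_upwards [eventually_ge_atTop 3] with n hn
  have hn0 : (n : ℝ) ≠ 0 := by exact_mod_cast (show n ≠ 0 by omega)
  have hb : 0 < aF n * z ^ n := D.b_pos hn
  have ha : 0 < aF n := pos_of_mul_pos_left hb (by positivity)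
  have e0 : (cnt fb n ((0, 0), 0) ∅ : ℝ) = aF n := rfl
  simp only [Function.comp]
  rw [e0, Real.rpow_def_of_pos ha]
  congr 1
  rw [Real.log_mul ha.ne' (by positivity), Real.log_pow, one_div, Real.log_inv]
  field_simp
  ring

end

end Pool.Agent.H90.FS
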