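import Pool.Agent.H90.FS.Reg2

/-!
Exponents from the doubling relation along sparse sequences (the arguments of the library module
`Q215.SAW.Dbl` for the sequences with the regularity `NR`).
-/

set_option autoImplicit false

namespace Pool.Agent.H90.FS

open Finset Filter Topology Q215.SAW.Cvx

variable {ell : ℕ → ℝ}

theorem NR.dbl_up (E : NR ell) {B B0 : ℝ} (hB : 0 ≤ B)
    (hb : ∀ᶠ n : ℕ in atTop, |ell n| ≤ B * Real.log n ^ 2 + B0)
    {t : ℕ → ℕ} (ht : Tendsto t atTop atTop) (hsp : Sparse t) {b : ℝ}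
    (hc : ∀ ε : ℝ, 0 < ε → ∀ᶠ j in atTop, 2 * ell (t j) - ell (2 * t j) ≤
      (b + ε) * Real.log (t j)) {ε : ℝ} (hε : 0 < ε) :
    ∀ᶠ n : ℕ in atTop, ell n ≤ (b + ε) * Real.log n := by
  obtain ⟨M0, hM0⟩ := eventually_atTop.1 hb
  obtain ⟨δ, hδ⟩ : ∃ δ : ℝ, δ = ε / 8 := ⟨_, rfl⟩
  have hδ0 : 0 < δ := by rw [hδ]; positivity
  obtain ⟨j1, hj1⟩ := eventually_atTop.1 (hc δ hδ0)
  obtain ⟨N0, hN0⟩ := E.near t ht hsp δ hδ0 j1
  obtain ⟨b', hb'⟩ : ∃ b' : ℝ, b' = b + 4 * δ := ⟨_, rfl⟩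
  have h1 := iter_up (z := fun n => ell n - b' * Real.log n) (N0 := max N0 M0 + 1)
    (θ := 1 / 2) (C := |b'| * Real.log 4 + |b + δ| * Real.log 2) (B := B + |b'|)
    (B0 := B0 + |b'|) (by norm_num) (by norm_num) (by positivity) (by omega)
    (fun n hn => by
      have h2 := (le_abs_self _).trans (hM0 n (by omega))
      have h3 : 0 ≤ Real.log (n : ℝ) := Real.log_nonneg (by exact_mod_cast (show 1 ≤ n by omega))
      have h4 : -(b' * Real.log n) ≤ |b'| * Real.log n := by
        have := mul_le_mul_of_nonneg_right (neg_abs_le b') h3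
        linarith
      have h5 : |b'| * Real.log n ≤ |b'| * (Real.log n ^ 2 + 1) :=
        mul_le_mul_of_nonneg_left (by nlinarith [sq_nonneg (Real.log (n : ℝ) - 1)])
          (abs_nonneg _)
      linarith)
    (fun n hn => by
      obtain ⟨j, a1, a2, a3, a4⟩ := hN0 n (by omega)
      have a5 := hj1 j a1
      have hn1 : 1 ≤ n := by omega
      have hL0 : 0 ≤ Real.log (n : ℝ) := Real.log_nonneg (by exact_mod_cast hn1)
      have a6 := log_two_near hn1 a2 a3
      refine ⟨2 * t j, by omega, by omega, ?_⟩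
      have hm1 : 1 ≤ 2 * t j := by omega
      have hn0 : (0 : ℝ) < n := by exact_mod_cast hn1
      have hm0 : (0 : ℝ) < ((2 * t j : ℕ) : ℝ) := by exact_mod_cast hm1
      have a7 : Real.log ((2 * t j : ℕ) : ℝ) ≤ Real.log n + Real.log 4 := by
        rw [← Real.log_mul hn0.ne' (by norm_num)]
        refine Real.log_le_log hm0 ?_
        have : ((2 * t j : ℕ) : ℝ) ≤ ((4 * n : ℕ) : ℝ) := by exact_mod_cast (by omega)
        push_cast at this ⊢
        linarith
      have a8 : Real.log (n : ℝ) ≤ Real.log ((2 * t j : ℕ) : ℝ) :=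
        Real.log_le_log hn0 (by exact_mod_cast a2)
      have a9 : (b + δ) * Real.log (t j) ≤ (b + δ) * Real.log n + |b + δ| * Real.log 2 := by
        have : (b + δ) * (Real.log (t j) - Real.log n) ≤ |b + δ| * Real.log 2 := by
          refine (le_abs_self _).trans ?_
          rw [abs_mul]
          exact mul_le_mul_of_nonneg_left a6 (abs_nonneg _)
        linarith
      have a10 : b' / 2 * (Real.log ((2 * t j : ℕ) : ℝ) - Real.log n) ≤
          |b'| / 2 * Real.log 4 := by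
        refine (le_abs_self _).trans ?_
        rw [abs_mul, abs_div, abs_of_pos (show (0 : ℝ) < 2 by norm_num),
          abs_of_nonneg (sub_nonneg.2 a8)]
        exact mul_le_mul_of_nonneg_left (by linarith) (by positivity)
      have h2 : 0 ≤ |b'| * Real.log 4 := by positivity
      have h3 : 0 ≤ |b + δ| * Real.log 2 := by positivity
      nlinarith)
  have hfin : ∀ᶠ n : ℕ in atTop,
      (|b'| * Real.log 4 + |b + δ| * Real.log 2) / (1 - 1 / 2) ≤ (ε / 2) * Real.log n := by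
    filter_upwards [log_tend.eventually_ge_atTop
      ((|b'| * Real.log 4 + |b + δ| * Real.log 2) / (1 - 1 / 2) / (ε / 2))] with n hn
    rw [div_le_iff₀ (by positivity)] at hn
    linarith
  filter_upwards [hfin, eventually_ge_atTop (max N0 M0 + 1)] with n h2 h3
  have h4 := h1 n h3
  have e : b' = b + ε / 2 := by rw [hb', hδ]; ring
  rw [e] at h4 h2
  linarith

theorem NR.near2 (E : NR ell) {B : ℝ} (hB : ∀ᶠ n : ℕ in atTop, |ell n| ≤ B * Real.log n)
    {t : ℕ → ℕ} (ht : Tendsto t atTop atTop) (hsp : Sparse t) {ε : ℝ} (hε : 0 < ε) (j1 : ℕ) :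
    ∃ N0 : ℕ, ∀ n, N0 ≤ n → ∃ j, j1 ≤ j ∧ t j ≤ n ∧ n ≤ 2 * t j ∧
      |ell n - ell (t j)| ≤ ε * Real.log (t j) ∧
      |ell (2 * n) - ell (2 * t j)| ≤ 2 * ε * Real.log (t j) := by
  obtain ⟨η, hη0, hη1, hosc⟩ := E.osc B hB ε hε
  obtain ⟨M, hM⟩ := eventually_atTop.1 hosc
  obtain ⟨j0, hj0⟩ := eventually_atTop.1 ((large ht hsp (show 0 < η / 2 by positivity) 1).and
    (ht.eventually_ge_atTop M))
  obtain ⟨N0, hN0⟩ := index ht (max j0 j1)
  refine ⟨N0, fun n hn => ?_⟩
  obtain ⟨j, hj, h1, h2⟩ := hN0 n hn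
  obtain ⟨⟨a1, a2, a3, a4, a5⟩, a6⟩ := hj0 j ((le_max_left _ _).trans hj)
  obtain ⟨T, hT⟩ : ∃ T, T = t j := ⟨_, rfl⟩
  rw [← hT] at a1 a2 a3 a4 a5 a6 h1
  obtain ⟨i, rfl⟩ : ∃ i, n = T + i := ⟨n - T, by omega⟩
  have hT0 : (0 : ℝ) < T := by exact_mod_cast (show 0 < T by omega)
  have hi : (i : ℝ) ≤ η / 2 * √(T * Real.log T) := by
    have : ((T + i : ℕ) : ℝ) ≤ t (j + 1) := by exact_mod_cast h2.le
    push_cast at this
    linarith
  have hL0 : 0 < Real.log (T : ℝ) := by linarith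
  have hsq0 : 0 ≤ √((T : ℝ) * Real.log T) := Real.sqrt_nonneg _
  have h3 := hM T a6 i (by nlinarith)
  have hlog2 : Real.log (2 * (T : ℝ)) ≤ 2 * Real.log T := by
    calc Real.log (2 * (T : ℝ)) ≤ Real.log ((T : ℝ) ^ 2) := Real.log_le_log (by positivity) (by
            have : (3 : ℝ) ≤ T := by exact_mod_cast a1
            nlinarith)
      _ = 2 * Real.log T := by rw [Real.log_pow]; norm_num
  have h4 := hM (2 * T) (by omega) (2 * i) (by
    push_cast
    have h5 : √((T : ℝ) * Real.log T) ≤ √(2 * (T : ℝ) * Real.log (2 * (T : ℝ))) := by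
      refine Real.sqrt_le_sqrt ?_
      have h6 : Real.log (T : ℝ) ≤ Real.log (2 * (T : ℝ)) := Real.log_le_log hT0 (by linarith)
      nlinarith
    calc 2 * (i : ℝ) ≤ 2 * (η / 2 * √(T * Real.log T)) := by linarith
      _ = η * √(T * Real.log T) := by ring
      _ ≤ _ := mul_le_mul_of_nonneg_left h5 hη0.le)
  have hiT : (i : ℝ) ≤ T := by
    have h5 : √((T : ℝ) * Real.log T) ≤ T := by
      rw [Real.sqrt_le_left hT0.le]
      nlinarith
    nlinarith
  have hiT' : i ≤ T := by exact_mod_cast hiT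
  refine ⟨j, (le_max_right _ _).trans hj, by rw [← hT]; omega, by rw [← hT]; omega, ?_, ?_⟩
  · rw [← hT]; exact h3
  · rw [← hT]
    have e : 2 * (T + i) = 2 * T + 2 * i := by ring
    rw [e]
    refine h4.trans ?_
    push_cast
    have := mul_le_mul_of_nonneg_left hlog2 hε.le
    linarith

/-- **the exponent** from `2 ell (t) - ell (2 t)` -/
theorem NR.dbl_lim (E : NR ell) {B B0 : ℝ} (hB : 0 ≤ B)
    (hb : ∀ᶠ n : ℕ in atTop, |ell n| ≤ B * Real.log n ^ 2 + B0)
    (hpos : ∀ᶠ n : ℕ in atTop, 0 ≤ ell n)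
    {t : ℕ → ℕ} (ht : Tendsto t atTop atTop) (hsp : Sparse t) {c : ℝ}
    (hc : Tendsto (fun j => (2 * ell (t j) - ell (2 * t j)) / Real.log (t j)) atTop (𝓝 c)) :
    Tendsto (fun n : ℕ => ell n / Real.log n) atTop (𝓝 c) := by
  have hlogt : ∀ᶠ j in atTop, 0 < Real.log (t j) := (log_tend.comp ht).eventually_gt_atTop 0
  have hc1 : ∀ ε : ℝ, 0 < ε → ∀ᶠ j in atTop, 2 * ell (t j) - ell (2 * t j) ≤
      (c + ε) * Real.log (t j) := by
    intro ε hε
    filter_upwards [hlogt, hc.eventually_lt_const (show c < c + ε by linarith)] with j h1 h2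
    rw [div_lt_iff₀ h1] at h2
    exact h2.le
  have hc2 : ∀ ε : ℝ, 0 < ε → ∀ᶠ j in atTop, (c - ε) * Real.log (t j) ≤
      2 * ell (t j) - ell (2 * t j) := by
    intro ε hε
    filter_upwards [hlogt, hc.eventually_const_lt (show c - ε < c by linarith)] with j h1 h2
    rw [lt_div_iff₀ h1] at h2
    exact h2.le
  have hup : ∀ ε : ℝ, 0 < ε → ∀ᶠ n : ℕ in atTop, ell n ≤ (c + ε) * Real.log n :=
    fun ε hε => E.dbl_up hB hb ht hsp hc1 hε
  have habs : ∀ᶠ n : ℕ in atTop, |ell n| ≤ (c + 1) * Real.log n := by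
    filter_upwards [hup 1 one_pos, hpos] with n h1 h2
    rwa [abs_of_nonneg h2]
  obtain ⟨M1, hM1⟩ := eventually_atTop.1 hpos
  have hlo : ∀ ε : ℝ, 0 < ε → ∀ᶠ n : ℕ in atTop, (c - ε) * Real.log n ≤ ell n := by
    intro ε hε
    obtain ⟨δ, hδ⟩ : ∃ δ : ℝ, δ = ε / 8 := ⟨_, rfl⟩
    have hδ0 : 0 < δ := by rw [hδ]; positivity
    obtain ⟨j1, hj1⟩ := eventually_atTop.1 (hc2 δ hδ0)
    obtain ⟨N0, hN0⟩ := E.near2 habs ht hsp hδ0 j1
    obtain ⟨b', hb'⟩ : ∃ b' : ℝ, b' = c - 4 * δ := ⟨_, rfl⟩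
    have h1 := iter_up (z := fun n => b' * Real.log n - ell n) (N0 := max N0 M1 + 1)
      (θ := 1 / 2) (C := |b'| * Real.log 4 + |c - δ| * Real.log 2) (B := |b'|)
      (B0 := |b'|) (by norm_num) (by norm_num) (by positivity) (by omega)
      (fun n hn => by
        have h2 := hM1 n (by omega)
        have h3 : 0 ≤ Real.log (n : ℝ) :=
          Real.log_nonneg (by exact_mod_cast (show 1 ≤ n by omega))
        have h4 : b' * Real.log n ≤ |b'| * Real.log n :=
          mul_le_mul_of_nonneg_right (le_abs_self b') h3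
        have h5 : |b'| * Real.log n ≤ |b'| * (Real.log n ^ 2 + 1) :=
          mul_le_mul_of_nonneg_left (by nlinarith [sq_nonneg (Real.log (n : ℝ) - 1)])
            (abs_nonneg _)
        linarith)
      (fun n hn => by
        obtain ⟨j, a1, a2, a3, a4, -⟩ := hN0 n (by omega)
        have a5 := hj1 j a1
        have hn1 : 1 ≤ n := by omega
        have hL0 : 0 ≤ Real.log (n : ℝ) := Real.log_nonneg (by exact_mod_cast hn1)
        have a6 := log_two_near hn1 a3 (by omega)
        refine ⟨2 * t j, by omega, by omega, ?_⟩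
        have hm1 : 1 ≤ 2 * t j := by omega
        have hn0 : (0 : ℝ) < n := by exact_mod_cast hn1
        have hm0 : (0 : ℝ) < ((2 * t j : ℕ) : ℝ) := by exact_mod_cast hm1
        have htj : (0 : ℝ) < (t j : ℝ) := by exact_mod_cast (show 0 < t j by omega)
        have htn : Real.log (t j : ℝ) ≤ Real.log n := Real.log_le_log htj (by exact_mod_cast a2)
        have a7 : Real.log ((2 * t j : ℕ) : ℝ) ≤ Real.log n + Real.log 4 := by
          rw [← Real.log_mul hn0.ne' (by norm_num)]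
          refine Real.log_le_log hm0 ?_
          have : ((2 * t j : ℕ) : ℝ) ≤ ((4 * n : ℕ) : ℝ) := by exact_mod_cast (by omega)
          push_cast at this ⊢
          linarith
        have a8 : Real.log (n : ℝ) ≤ Real.log ((2 * t j : ℕ) : ℝ) :=
          Real.log_le_log hn0 (by exact_mod_cast a3)
        have a9 : (c - δ) * Real.log n - |c - δ| * Real.log 2 ≤ (c - δ) * Real.log (t j) := by
          have : (c - δ) * (Real.log n - Real.log (t j)) ≤ |c - δ| * Real.log 2 := by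
            refine (le_abs_self _).trans ?_
            rw [abs_mul, abs_sub_comm (Real.log (n : ℝ))]
            exact mul_le_mul_of_nonneg_left a6 (abs_nonneg _)
          linarith
        have a10 : -(b' / 2 * (Real.log ((2 * t j : ℕ) : ℝ) - Real.log n)) ≤
            |b'| / 2 * Real.log 4 := by
          refine (neg_le_abs _).trans ?_
          rw [abs_mul, abs_div, abs_of_pos (show (0 : ℝ) < 2 by norm_num),
            abs_of_nonneg (sub_nonneg.2 a8)]
          exact mul_le_mul_of_nonneg_left (by linarith) (by positivity)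
        have a11 := (abs_le.1 a4).1
        have a12 : δ * Real.log (t j) ≤ δ * Real.log n := mul_le_mul_of_nonneg_left htn hδ0.le
        have h2 : 0 ≤ |b'| * Real.log 4 := by positivity
        have h3 : 0 ≤ |c - δ| * Real.log 2 := by positivity
        nlinarith)
    have hfin : ∀ᶠ n : ℕ in atTop,
        (|b'| * Real.log 4 + |c - δ| * Real.log 2) / (1 - 1 / 2) ≤ (ε / 2) * Real.log n := by
      filter_upwards [log_tend.eventually_ge_atTop
        ((|b'| * Real.log 4 + |c - δ| * Real.log 2) / (1 - 1 / 2) / (ε / 2))] with n hn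
      rw [div_le_iff₀ (by positivity)] at hn
      linarith
    filter_upwards [hfin, eventually_ge_atTop (max N0 M1 + 1)] with n h2 h3
    have h4 := h1 n h3
    have e : b' = c - ε / 2 := by rw [hb', hδ]; ring
    rw [e] at h4 h2
    linarith
  have hlog : ∀ᶠ n : ℕ in atTop, 0 < Real.log (n : ℝ) := log_tend.eventually_gt_atTop 0
  rw [Metric.tendsto_nhds]
  intro ε hε
  filter_upwards [hlog, hup (ε / 2) (by positivity), hlo (ε / 2) (by positivity)] with n h1 h2 h3
  rw [Real.dist_eq, abs_lt]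
  constructor
  · have : c - ε / 2 ≤ ell n / Real.log n := by rwa [le_div_iff₀ h1]
    linarith
  · have : ell n / Real.log n ≤ c + ε / 2 := by rwa [div_le_iff₀ h1]
    linarith

/-- **lower bounds** for `ell (2 n) - 2 ell n` -/
theorem NR.dbl_low (E : NR ell) {B B0 : ℝ} (hB : 0 ≤ B)
    (hb : ∀ᶠ n : ℕ in atTop, |ell n| ≤ B * Real.log n ^ 2 + B0)
    (hpos : ∀ᶠ n : ℕ in atTop, 0 ≤ ell n)
    {t : ℕ → ℕ} (ht : Tendsto t atTop atTop) (hsp : Sparse t) {b : ℝ} (hb0 : 0 ≤ b)
    (hc : ∀ᶠ j in atTop, -(b * Real.log (t j)) ≤ ell (2 * t j) - 2 * ell (t j))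
    {ε : ℝ} (hε : 0 < ε) :
    ∀ᶠ n : ℕ in atTop, -((b + ε) * Real.log n) ≤ ell (2 * n) - 2 * ell n := by
  have hlogt : ∀ᶠ j in atTop, 0 < Real.log (t j) := (log_tend.comp ht).eventually_gt_atTop 0
  have hup : ∀ᶠ n : ℕ in atTop, ell n ≤ (b + 1) * Real.log n := by
    refine E.dbl_up hB hb ht hsp (fun δ hδ => ?_) one_pos
    filter_upwards [hc, hlogt] with j h1 h2
    nlinarith
  have habs : ∀ᶠ n : ℕ in atTop, |ell n| ≤ (b + 1) * Real.log n := by
    filter_upwards [hup, hpos] with n h1 h2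
    rwa [abs_of_nonneg h2]
  obtain ⟨j1, hj1⟩ := eventually_atTop.1 (hc.and hlogt)
  obtain ⟨N0, hN0⟩ := E.near2 habs ht hsp (show 0 < ε / 4 by positivity) j1
  filter_upwards [eventually_ge_atTop N0] with n hn
  obtain ⟨j, a1, a2, a3, a4, a5⟩ := hN0 n hn
  obtain ⟨a6, a7⟩ := hj1 j a1
  have htj : (0 : ℝ) < (t j : ℝ) := by
    rcases Nat.eq_zero_or_pos (t j) with h | h
    · rw [h] at a7; simp at a7
    · exact_mod_cast h
  have htn : Real.log (t j : ℝ) ≤ Real.log n := Real.log_le_log htj (by exact_mod_cast a2)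
  rw [abs_le] at a4 a5
  have h1 : (b + ε) * Real.log (t j) ≤ (b + ε) * Real.log n :=
    mul_le_mul_of_nonneg_left htn (by positivity)
  nlinarith [a4.1, a4.2, a5.1, a5.2]
end Pool.Agent.H90.FS
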