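import Pool.Agent.H90.FS.Fin
import Pool.Agent.H90.FS.Reg3

/-!
Sparse sequences of lengths on the (3.12²) lattice.
-/

set_option autoImplicit false

namespace Pool.Agent.H90.FS

open Finset Filter Topology Q215.SAW.Cvx

/-- upper bounds along a sparse sequence -/
theorem NR.up {ell : ℕ → ℝ} (E : NR ell) {t : ℕ → ℕ} (ht : Tendsto t atTop atTop)
    (hsp : Sparse t) {β : ℝ}
    (h : ∀ ε : ℝ, 0 < ε → ∀ᶠ j in atTop, ell (t j) ≤ (β + ε) * Real.log (t j)) :
    ∀ ε : ℝ, 0 < ε → ∀ᶠ n : ℕ in atTop, ell n ≤ (β + ε) * Real.log n := by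
  intro ε hε
  obtain ⟨j1, hj1⟩ := eventually_atTop.1 (h (ε / 4) (by positivity))
  obtain ⟨N0, hN0⟩ := E.near t ht hsp (ε / 4) (by positivity) j1
  filter_upwards [eventually_ge_atTop (N0 + 1),
    log_le_eps (show 0 < ε / 2 by positivity) (|β + ε / 4| * Real.log 2)] with n hn h2
  obtain ⟨j, a1, a2, a3, a4⟩ := hN0 n (by omega)
  have a5 := hj1 j a1
  have a6 := log_two_near (show 1 ≤ n by omega) a2 a3
  have a7 : (β + ε / 4) * (Real.log (t j) - Real.log n) ≤ |β + ε / 4| * Real.log 2 := by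
    refine (le_abs_self _).trans ?_
    rw [abs_mul]
    exact mul_le_mul_of_nonneg_left a6 (abs_nonneg _)
  linarith

/-- limits along a sparse sequence -/
theorem NR.lim {ell : ℕ → ℝ} (E : NR ell) (hpos : ∀ᶠ n : ℕ in atTop, 0 ≤ ell n) {t : ℕ → ℕ}
    (ht : Tendsto t atTop atTop) (hsp : Sparse t) {α : ℝ}
    (h : Tendsto (fun j => ell (t j) / Real.log (t j)) atTop (𝓝 α)) :
    Tendsto (fun n : ℕ => ell n / Real.log n) atTop (𝓝 α) := by
  have hlogt : ∀ᶠ j in atTop, 0 < Real.log (t j) := (log_tend.comp ht).eventually_gt_atTop 0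
  have h1 : ∀ ε : ℝ, 0 < ε → ∀ᶠ j in atTop, ell (t j) ≤ (α + ε) * Real.log (t j) := by
    intro ε hε
    filter_upwards [hlogt, h.eventually_lt_const (show α < α + ε by linarith)] with j a1 a2
    rw [div_lt_iff₀ a1] at a2
    exact a2.le
  have h2 : ∀ ε : ℝ, 0 < ε → ∀ᶠ j in atTop, (α - ε) * Real.log (t j) ≤ ell (t j) := by
    intro ε hε
    filter_upwards [hlogt, h.eventually_const_lt (show α - ε < α by linarith)] with j a1 a2
    rw [lt_div_iff₀ a1] at a2
    exact a2.le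
  have h3 := E.up ht hsp h1
  rw [tend_iff ell]
  refine ⟨h3, fun ε hε => ?_⟩
  have habs : ∀ᶠ n : ℕ in atTop, |ell n| ≤ (α + 1) * Real.log n := by
    filter_upwards [h3 1 one_pos, hpos] with n a1 a2
    rwa [abs_of_nonneg a2]
  obtain ⟨j1, hj1⟩ := eventually_atTop.1 ((h2 (ε / 4) (by positivity)).and hlogt)
  obtain ⟨N0, hN0⟩ := E.near2 habs ht hsp (show 0 < ε / 4 by positivity) j1
  filter_upwards [eventually_ge_atTop (N0 + 1),
    log_le_eps (show 0 < ε / 2 by positivity) (|α - ε / 4| * Real.log 2)] with n hn h4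
  obtain ⟨j, a1, a2, a3, a4, -⟩ := hN0 n (by omega)
  obtain ⟨a5, a5'⟩ := hj1 j a1
  have a6 := log_two_near (show 1 ≤ n by omega) a3 (by omega)
  have a7 : (α - ε / 4) * (Real.log n - Real.log (t j)) ≤ |α - ε / 4| * Real.log 2 := by
    refine (le_abs_self _).trans ?_
    rw [abs_mul, abs_sub_comm (Real.log (n : ℝ))]
    exact mul_le_mul_of_nonneg_left a6 (abs_nonneg _)
  have htj : (0 : ℝ) < (t j : ℝ) := by
    rcases Nat.eq_zero_or_pos (t j) with h | h
    · rw [h] at a5'; simp at a5'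
    · exact_mod_cast h
  have a8 : Real.log (t j : ℝ) ≤ Real.log n := Real.log_le_log htj (by exact_mod_cast a2)
  have a9 := (abs_le.1 a4).1
  have a10 : ε / 4 * Real.log (t j) ≤ ε / 4 * Real.log n :=
    mul_le_mul_of_nonneg_left a8 (by positivity)
  linarith

section
variable {z c C m : ℝ} (D : Dat (√(2 + √2)) z rH (fun n => aF n * z ^ n) c C m)
include D

theorem nrF : NR (fun n => Real.log (aF n * z ^ n)) := D.nr basic.2.1

theorem lF_pos : ∀ᶠ n : ℕ in atTop, 0 ≤ Real.log (aF n * z ^ n) := by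
  obtain ⟨c', K, hc', hK, h⟩ := uncond D
  filter_upwards [eventually_ge_atTop 3,
    log_le_eps (show (0 : ℝ) < 1 / 75 by norm_num) (-Real.log c')] with n h1 h2
  have hn0 : (0 : ℝ) < n := by exact_mod_cast (show 0 < n by omega)
  have h3 := Real.log_le_log (by positivity) (h n h1).1
  rw [Real.log_mul hc'.ne' (Real.rpow_pos_of_pos hn0 _).ne', Real.log_rpow hn0] at h3
  linarith

theorem lF_bd : ∃ B : ℝ, 0 ≤ B ∧ ∀ᶠ n : ℕ in atTop,
    |Real.log (aF n * z ^ n)| ≤ B * Real.log n ^ 2 + 0 := by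
  obtain ⟨c', K, hc', hK, h⟩ := uncond D
  refine ⟨K, hK, ?_⟩
  filter_upwards [lF_pos D, eventually_ge_atTop 3] with n h1 h2
  rw [abs_of_nonneg h1, add_zero, Real.log_le_iff_le_exp (D.b_pos h2)]
  exact (h n h2).2.2.1

end

end Pool.Agent.H90.FS
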