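import Pool.Agent.H90.FS.Cnt

/-!
Self-avoiding walks on the honeycomb lattice and on the (3.12²) lattice: comparison of their
numbers.
-/

set_option autoImplicit false

namespace Pool.Agent.H90.FS

open Finset

/-! ### the honeycomb lattice -/

/-- the neighbour of `p` along the edge of direction `i` -/
def nbr (i : Fin 3) (p : ℤ × ℤ) : ℤ × ℤ :=
  if Even (p.1 + p.2) then p + ![(1, 0), (-1, 0), (0, 1)] i
  else p - ![(1, 0), (-1, 0), (0, 1)] i

theorem nbr_eq (i : Fin 3) (x y : ℤ) : nbr i (x, y) =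
    if (x + y) % 2 = 0 then (if i = 0 then (x + 1, y) else if i = 1 then (x - 1, y) else (x, y + 1))
    else (if i = 0 then (x - 1, y) else if i = 1 then (x + 1, y) else (x, y - 1)) := by
  unfold nbr
  simp only [Int.even_iff]
  fin_cases i
  · split_ifs with h <;> simp_all
  · split_ifs with h <;> simp_all [sub_eq_add_neg]
  · split_ifs with h <;> simp_all

theorem nbr_inj (p : ℤ × ℤ) : Function.Injective (fun c => nbr c p) := by
  obtain ⟨x, y⟩ := p
  intro c d h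
  simp only [nbr_eq] at h
  fin_cases c <;> fin_cases d <;> first
    | rfl
    | (exfalso; split_ifs at h <;> simp_all <;> omega)

theorem nbr_ne (c : Fin 3) (p : ℤ × ℤ) : nbr c p ≠ p := by
  obtain ⟨x, y⟩ := p
  intro h
  rw [nbr_eq] at h
  split_ifs at h <;> (rw [Prod.mk.injEq] at h; omega)

theorem n0e {x y : ℤ} (h : (x + y) % 2 = 0) : nbr 0 (x, y) = (x + 1, y) := by
  rw [nbr_eq, if_pos h]; rfl
theorem n0o {x y : ℤ} (h : (x + y) % 2 = 1) : nbr 0 (x, y) = (x - 1, y) := by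
  rw [nbr_eq, if_neg (show ¬(x + y) % 2 = 0 by omega)]; rfl
theorem n1e {x y : ℤ} (h : (x + y) % 2 = 0) : nbr 1 (x, y) = (x - 1, y) := by
  rw [nbr_eq, if_pos h]; rfl
theorem n1o {x y : ℤ} (h : (x + y) % 2 = 1) : nbr 1 (x, y) = (x + 1, y) := by
  rw [nbr_eq, if_neg (show ¬(x + y) % 2 = 0 by omega)]; rfl
theorem n2e {x y : ℤ} (h : (x + y) % 2 = 0) : nbr 2 (x, y) = (x, y + 1) := by
  rw [nbr_eq, if_pos h]; rfl
theorem n2o {x y : ℤ} (h : (x + y) % 2 = 1) : nbr 2 (x, y) = (x, y - 1) := by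
  rw [nbr_eq, if_neg (show ¬(x + y) % 2 = 0 by omega)]; rfl

theorem cases3 {p : Fin 3 → Prop} (h0 : p 0) (h1 : p 1) (h2 : p 2) (c : Fin 3) : p c := by
  fin_cases c
  · exact h0
  · exact h1
  · exact h2

theorem nbr_nbr (c : Fin 3) (p : ℤ × ℤ) : nbr c (nbr c p) = p := by
  obtain ⟨x, y⟩ := p
  rcases Int.emod_two_eq_zero_or_one (x + y) with h | h
  · revert c
    refine cases3 ?_ ?_ ?_
    · rw [n0e h, n0o (by omega), Prod.mk.injEq]; omega
    · rw [n1e h, n1o (by omega), Prod.mk.injEq]; omega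
    · rw [n2e h, n2o (by omega), Prod.mk.injEq]; omega
  · revert c
    refine cases3 ?_ ?_ ?_
    · rw [n0o h, n0e (by omega), Prod.mk.injEq]; omega
    · rw [n1o h, n1e (by omega), Prod.mk.injEq]; omega
    · rw [n2o h, n2e (by omega), Prod.mk.injEq]; omega

/-- an automorphism which takes the origin to `v` and respects the directions -/
def tau (v p : ℤ × ℤ) : ℤ × ℤ :=
  if (v.1 + v.2) % 2 = 0 then (v.1 + p.1, v.2 + p.2) else (v.1 - p.1, v.2 - p.2)

theorem tau_e {a b : ℤ} (h : (a + b) % 2 = 0) (x y : ℤ) : tau (a, b) (x, y) = (a + x, b + y) :=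
  if_pos h

theorem tau_o {a b : ℤ} (h : (a + b) % 2 = 1) (x y : ℤ) : tau (a, b) (x, y) = (a - x, b - y) :=
  if_neg (show ¬(a + b) % 2 = 0 by omega)

theorem tau_inj (v : ℤ × ℤ) : Function.Injective (tau v) := by
  obtain ⟨a, b⟩ := v
  rintro ⟨x, y⟩ ⟨x', y'⟩ h
  rcases Int.emod_two_eq_zero_or_one (a + b) with h' | h'
  · rw [tau_e h', tau_e h', Prod.mk.injEq] at h
    rw [Prod.mk.injEq]; omega
  · rw [tau_o h', tau_o h', Prod.mk.injEq] at h
    rw [Prod.mk.injEq]; omega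

theorem tau_nbr (v : ℤ × ℤ) (c : Fin 3) (p : ℤ × ℤ) :
    tau v (nbr c p) = nbr ((Equiv.refl (Fin 3)) c) (tau v p) := by
  obtain ⟨x, y⟩ := p
  obtain ⟨a, b⟩ := v
  rw [Equiv.refl_apply]
  rcases Int.emod_two_eq_zero_or_one (x + y) with h | h <;>
  rcases Int.emod_two_eq_zero_or_one (a + b) with h' | h'
  · revert c
    refine cases3 ?_ ?_ ?_
    · rw [n0e h, tau_e h', tau_e h', n0e (by omega), Prod.mk.injEq]; omega
    · rw [n1e h, tau_e h', tau_e h', n1e (by omega), Prod.mk.injEq]; omega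
    · rw [n2e h, tau_e h', tau_e h', n2e (by omega), Prod.mk.injEq]; omega
  · revert c
    refine cases3 ?_ ?_ ?_
    · rw [n0e h, tau_o h', tau_o h', n0o (by omega), Prod.mk.injEq]; omega
    · rw [n1e h, tau_o h', tau_o h', n1o (by omega), Prod.mk.injEq]; omega
    · rw [n2e h, tau_o h', tau_o h', n2o (by omega), Prod.mk.injEq]; omega
  · revert c
    refine cases3 ?_ ?_ ?_
    · rw [n0o h, tau_e h', tau_e h', n0o (by omega), Prod.mk.injEq]; omega
    · rw [n1o h, tau_e h', tau_e h', n1o (by omega), Prod.mk.injEq]; omega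
    · rw [n2o h, tau_e h', tau_e h', n2o (by omega), Prod.mk.injEq]; omega
  · revert c
    refine cases3 ?_ ?_ ?_
    · rw [n0o h, tau_o h', tau_o h', n0e (by omega), Prod.mk.injEq]; omega
    · rw [n1o h, tau_o h', tau_o h', n1e (by omega), Prod.mk.injEq]; omega
    · rw [n2o h, tau_o h', tau_o h', n2e (by omega), Prod.mk.injEq]; omega

/-- the automorphism which fixes the origin and interchanges its neighbours `0` and `1` -/
def ps1 (p : ℤ × ℤ) : ℤ × ℤ := (-p.1, p.2)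

theorem ps1_inj : Function.Injective ps1 := by
  rintro ⟨x, y⟩ ⟨x', y'⟩ h
  simp only [ps1, Prod.mk.injEq] at h ⊢
  omega

theorem ps1_eq (x y : ℤ) : ps1 (x, y) = (-x, y) := rfl

theorem ps1_nbr (c : Fin 3) (p : ℤ × ℤ) :
    ps1 (nbr c p) = nbr ((Equiv.swap (0 : Fin 3) 1) c) (ps1 p) := by
  obtain ⟨x, y⟩ := p
  have e0 : (Equiv.swap (0 : Fin 3) 1) 0 = 1 := by decide
  have e1 : (Equiv.swap (0 : Fin 3) 1) 1 = 0 := by decide
  have e2 : (Equiv.swap (0 : Fin 3) 1) 2 = 2 := by decide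
  rcases Int.emod_two_eq_zero_or_one (x + y) with h | h
  · revert c
    refine cases3 ?_ ?_ ?_
    · rw [e0, n0e h, ps1_eq, ps1_eq, n1e (by omega), Prod.mk.injEq]; omega
    · rw [e1, n1e h, ps1_eq, ps1_eq, n0e (by omega), Prod.mk.injEq]; omega
    · rw [e2, n2e h, ps1_eq, ps1_eq, n2e (by omega)]
  · revert c
    refine cases3 ?_ ?_ ?_
    · rw [e0, n0o h, ps1_eq, ps1_eq, n1o (by omega), Prod.mk.injEq]; omega
    · rw [e1, n1o h, ps1_eq, ps1_eq, n0o (by omega), Prod.mk.injEq]; omega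
    · rw [e2, n2o h, ps1_eq, ps1_eq, n2o (by omega)]

/-- the automorphism which fixes the origin and interchanges its neighbours `1` and `2` -/
def ps2 (p : ℤ × ℤ) : ℤ × ℤ :=
  (((p.1 + p.2) % 2 - p.2 + p.1) / 2 - p.2, ((p.1 + p.2) % 2 - p.2 - p.1) / 2)

theorem ps2_inj : Function.Injective ps2 := by
  rintro ⟨x, y⟩ ⟨x', y'⟩ h
  simp only [ps2, Prod.mk.injEq] at h ⊢
  omega

theorem ps2_eq (x y : ℤ) : ps2 (x, y) =
    (((x + y) % 2 - y + x) / 2 - y, ((x + y) % 2 - y - x) / 2) := rfl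

theorem ps2_nbr (c : Fin 3) (p : ℤ × ℤ) :
    ps2 (nbr c p) = nbr ((Equiv.swap (1 : Fin 3) 2) c) (ps2 p) := by
  obtain ⟨x, y⟩ := p
  have e0 : (Equiv.swap (1 : Fin 3) 2) 0 = 0 := by decide
  have e1 : (Equiv.swap (1 : Fin 3) 2) 1 = 2 := by decide
  have e2 : (Equiv.swap (1 : Fin 3) 2) 2 = 1 := by decide
  rcases Int.emod_two_eq_zero_or_one (x + y) with h | h
  · revert c
    refine cases3 ?_ ?_ ?_
    · rw [e0, n0e h, ps2_eq, ps2_eq, n0e (by omega), Prod.mk.injEq]; omega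
    · rw [e1, n1e h, ps2_eq, ps2_eq, n2e (by omega), Prod.mk.injEq]; omega
    · rw [e2, n2e h, ps2_eq, ps2_eq, n1e (by omega), Prod.mk.injEq]; omega
  · revert c
    refine cases3 ?_ ?_ ?_
    · rw [e0, n0o h, ps2_eq, ps2_eq, n0o (by omega), Prod.mk.injEq]; omega
    · rw [e1, n1o h, ps2_eq, ps2_eq, n2o (by omega), Prod.mk.injEq]; omega
    · rw [e2, n2o h, ps2_eq, ps2_eq, n1o (by omega), Prod.mk.injEq]; omega

/-- walks on the honeycomb lattice which avoid `A` -/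
noncomputable def hc (v : ℤ × ℤ) (A : Finset (ℤ × ℤ)) (k : ℕ) : ℝ := cnt nbr k v A

theorem hc_nonneg (v : ℤ × ℤ) (A : Finset (ℤ × ℤ)) (k : ℕ) : 0 ≤ hc v A k := Nat.cast_nonneg _

theorem hc_zero (v : ℤ × ℤ) (A : Finset (ℤ × ℤ)) : hc v A 0 = 1 := by simp [hc, cnt]

theorem hc_succ (v : ℤ × ℤ) (A : Finset (ℤ × ℤ)) (k : ℕ) : hc v A (k + 1) =
    ∑ c : Fin 3, if nbr c v ∈ insert v A then 0 else hc (nbr c v) (insert v A) k := by
  unfold hc
  rw [cnt]
  push_cast
  refine sum_congr rfl fun c _ => ?_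
  split_ifs <;> simp

theorem hc_all (v : ℤ × ℤ) (k : ℕ) : hc v ∅ k = hc 0 ∅ k := by
  unfold hc
  have h := cnt_map nbr (tau v) (tau_inj v) _ (tau_nbr v) k 0 ∅
  have e : tau v 0 = v := by
    unfold tau
    split_ifs <;> simp
  rw [e, image_empty] at h
  rw [h]

theorem hc_dir (c : Fin 3) (k : ℕ) : hc (nbr c 0) {0} k = hc (nbr 0 0) {0} k := by
  have h1 : hc (nbr 1 0) {0} k = hc (nbr 0 0) {0} k := by
    unfold hc
    have h := cnt_map nbr ps1 ps1_inj _ ps1_nbr k (nbr 0 0) {0}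
    have e : (Equiv.swap (0 : Fin 3) 1) 0 = 1 := by decide
    have e0 : ps1 0 = 0 := by simp [ps1]
    rw [ps1_nbr, e, e0, image_singleton, e0] at h
    rw [h]
  have h2 : hc (nbr 2 0) {0} k = hc (nbr 1 0) {0} k := by
    unfold hc
    have h := cnt_map nbr ps2 ps2_inj _ ps2_nbr k (nbr 1 0) {0}
    have e : (Equiv.swap (1 : Fin 3) 2) 1 = 2 := by decide
    have e0 : ps2 0 = 0 := by simp [ps2]
    rw [ps2_nbr, e, e0, image_singleton, e0] at h
    rw [h]
  fin_cases c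
  · rfl
  · exact h1
  · exact h2.trans h1

theorem hc_first (k : ℕ) : hc 0 ∅ (k + 1) = 3 * hc (nbr 0 0) {0} k := by
  rw [hc_succ]
  have h : ∀ c : Fin 3, (if nbr c 0 ∈ (insert 0 ∅ : Finset (ℤ × ℤ)) then 0 else
      hc (nbr c 0) (insert 0 ∅) k) = hc (nbr 0 0) {0} k := by
    intro c
    rw [if_neg (by simpa using nbr_ne c 0)]
    exact hc_dir c k
  rw [sum_congr rfl fun c _ => h c]
  simp

/-! ### the (3.12²) lattice -/

/-- the neighbours on the (3.12²) lattice -/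
def fb (c : Fin 3) (x : (ℤ × ℤ) × Fin 3) : (ℤ × ℤ) × Fin 3 :=
  if c = 0 then (nbr x.2 x.1, x.2) else (x.1, x.2 + c)

theorem fb_inj (x : (ℤ × ℤ) × Fin 3) : Function.Injective (fun c => fb c x) := by
  obtain ⟨v, i⟩ := x
  have hn := nbr_ne i v
  have hn' : v ≠ nbr i v := fun h => hn h.symm
  intro c d h
  simp only [fb] at h
  split_ifs at h with h1 h2 h2
  · rw [h1, h2]
  · rw [Prod.mk.injEq] at h
    exact absurd h.1 hn
  · rw [Prod.mk.injEq] at h
    exact absurd h.1 hn'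
  · rw [Prod.mk.injEq] at h
    exact add_left_cancel h.2

/-- walks on the (3.12²) lattice which avoid `B`, also at the start -/
noncomputable def gc (n : ℕ) (x : (ℤ × ℤ) × Fin 3) (B : Finset ((ℤ × ℤ) × Fin 3)) : ℝ :=
  if x ∈ B then 0 else cnt fb n x B

theorem gc_nonneg (n : ℕ) (x : (ℤ × ℤ) × Fin 3) (B : Finset ((ℤ × ℤ) × Fin 3)) :
    0 ≤ gc n x B := by
  unfold gc
  split_ifs
  · exact le_rfl
  · exact Nat.cast_nonneg _

theorem gc_le (n : ℕ) (x : (ℤ × ℤ) × Fin 3) (B : Finset ((ℤ × ℤ) × Fin 3)) :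
    gc n x B ≤ cnt fb n x B := by
  unfold gc
  split_ifs
  · exact Nat.cast_nonneg _
  · exact le_rfl

theorem gc_mem {n : ℕ} {x : (ℤ × ℤ) × Fin 3} {B : Finset ((ℤ × ℤ) × Fin 3)} (h : x ∈ B) :
    gc n x B = 0 := if_pos h

theorem gc_not {n : ℕ} {x : (ℤ × ℤ) × Fin 3} {B : Finset ((ℤ × ℤ) × Fin 3)} (h : x ∉ B) :
    gc n x B = cnt fb n x B := if_neg h

theorem gc_0 (x : (ℤ × ℤ) × Fin 3) (B : Finset ((ℤ × ℤ) × Fin 3)) : gc 0 x B ≤ 1 := by
  refine (gc_le _ _ _).trans ?_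
  simp [cnt]

theorem cnt_fb (n : ℕ) (v : ℤ × ℤ) (i : Fin 3) (B : Finset ((ℤ × ℤ) × Fin 3)) :
    (cnt fb (n + 1) (v, i) B : ℝ) = gc n (nbr i v, i) (insert (v, i) B) +
      gc n (v, i + 1) (insert (v, i) B) + gc n (v, i + 2) (insert (v, i) B) := by
  rw [cnt, Fin.sum_univ_three, Nat.cast_add, Nat.cast_add, Nat.cast_ite, Nat.cast_ite,
    Nat.cast_ite, Nat.cast_zero]
  rfl

theorem f3 (i j : Fin 3) (h : j ≠ i) : (j + 1 = i ∧ j + 2 = -(i + j)) ∨
    (j + 2 = i ∧ j + 1 = -(i + j)) := by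
  revert i j; decide

theorem f3' (i j : Fin 3) (h : j ≠ i) : (-(i + j) + 1 = i ∨ -(i + j) + 1 = j) ∧
    (-(i + j) + 2 = i ∨ -(i + j) + 2 = j) ∧ -(i + j) ≠ i ∧ -(i + j) ≠ j := by
  revert i j; decide

theorem f3t (i j a b : Fin 3) (h : j ≠ i) (hab : a ≠ b) : a = i ∨ a = j ∨ b = i ∨ b = j := by
  revert i j a b; decide

theorem f3s (i : Fin 3) : -(i + (i + 1)) = i + 2 ∧ -(i + (i + 2)) = i + 1 ∧ i + 1 ≠ i ∧
    i + 2 ≠ i := by
  revert i; decide

/-- inside a triangle, upper bound -/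
theorem in1 (n : ℕ) (v : ℤ × ℤ) (i j : Fin 3) (B : Finset ((ℤ × ℤ) × Fin 3)) (h : j ≠ i)
    (hi : (v, i) ∈ B) : gc (n + 1) (v, j) B ≤ gc n (nbr j v, j) (insert (v, j) B) +
      gc n (v, -(i + j)) (insert (v, j) B) := by
  refine (gc_le _ _ _).trans ?_
  rw [cnt_fb]
  rcases f3 i j h with ⟨h1, h2⟩ | ⟨h1, h2⟩
  · rw [h1, h2, gc_mem (mem_insert_of_mem hi)]
    linarith
  · rw [h1, h2, gc_mem (mem_insert_of_mem hi)]
    linarith

theorem in2 (n : ℕ) (v : ℤ × ℤ) (i j : Fin 3) (B : Finset ((ℤ × ℤ) × Fin 3)) (h : j ≠ i)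
    (hi : (v, i) ∈ B) (hj : (v, j) ∈ B) : gc (n + 1) (v, -(i + j)) B ≤
      gc n (nbr (-(i + j)) v, -(i + j)) (insert (v, -(i + j)) B) := by
  refine (gc_le _ _ _).trans ?_
  rw [cnt_fb]
  obtain ⟨h1, h2, -⟩ := f3' i j h
  have e1 : (v, -(i + j) + 1) ∈ B := by
    rcases h1 with h1 | h1 <;> rw [h1] <;> assumption
  have e2 : (v, -(i + j) + 2) ∈ B := by
    rcases h2 with h2 | h2 <;> rw [h2] <;> assumption
  rw [gc_mem (mem_insert_of_mem e1), gc_mem (mem_insert_of_mem e2)]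
  linarith

/-- inside a triangle, lower bound -/
theorem lo1 (n : ℕ) (v : ℤ × ℤ) (i j : Fin 3) (B : Finset ((ℤ × ℤ) × Fin 3)) (h : j ≠ i)
    (hj : (v, j) ∉ B) : gc n (nbr j v, j) (insert (v, j) B) +
      gc n (v, -(i + j)) (insert (v, j) B) ≤ gc (n + 1) (v, j) B := by
  rw [gc_not hj, cnt_fb]
  have h1 := gc_nonneg n (v, i) (insert (v, j) B)
  rcases f3 i j h with ⟨h1, h2⟩ | ⟨h1, h2⟩
  · rw [h1, h2]
    linarith
  · rw [h1, h2]
    linarith

theorem lo2 (n : ℕ) (v : ℤ × ℤ) (j : Fin 3) (B : Finset ((ℤ × ℤ) × Fin 3))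
    (hj : (v, j) ∉ B) : gc n (nbr j v, j) (insert (v, j) B) ≤ gc (n + 1) (v, j) B := by
  rw [gc_not hj, cnt_fb]
  have h1 := gc_nonneg n (v, j + 1) (insert (v, j) B)
  have h2 := gc_nonneg n (v, j + 2) (insert (v, j) B)
  linarith

/-- the contribution of the neighbour `c` -/
noncomputable def Q (v : ℤ × ℤ) (A : Finset (ℤ × ℤ)) (M : ℕ) (c : Fin 3) (m : ℕ) : ℝ :=
  if nbr c v ∈ insert v A then 0 else Sg (hc (nbr c v) (insert v A)) M m

theorem Q_nonneg (v : ℤ × ℤ) (A : Finset (ℤ × ℤ)) (M : ℕ) (c : Fin 3) (m : ℕ) :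
    0 ≤ Q v A M c m := by
  unfold Q
  split_ifs
  · exact le_rfl
  · exact Sg_nonneg (hc_nonneg _ _) _ _

theorem Sg_Q (v : ℤ × ℤ) (A : Finset (ℤ × ℤ)) (M m : ℕ) :
    Sg (fun k => hc v A (k + 1)) M m = ∑ c : Fin 3, Q v A M c m := by
  have e : (fun k => hc v A (k + 1)) = fun k => ∑ c : Fin 3,
      (fun (c : Fin 3) (k : ℕ) => if nbr c v ∈ insert v A then 0 else
        hc (nbr c v) (insert v A) k) c k := by
    funext k
    rw [hc_succ]
  rw [e, Sg_sum]
  refine sum_congr rfl fun c _ => ?_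
  unfold Q
  split_ifs with h
  · exact Sg_zero M m
  · rfl

theorem sum3 (i : Fin 3) (F : Fin 3 → ℝ) : ∑ c : Fin 3, F c = F i + F (i + 1) + F (i + 2) := by
  rw [Fin.sum_univ_three]
  fin_cases i
  · rfl
  · show F 0 + F 1 + F 2 = F 1 + F (1 + 1) + F (1 + 2)
    have e1 : (1 + 1 : Fin 3) = 2 := by decide
    have e2 : (1 + 2 : Fin 3) = 0 := by decide
    rw [e1, e2]; ring
  · show F 0 + F 1 + F 2 = F 2 + F (2 + 1) + F (2 + 2)
    have e1 : (2 + 1 : Fin 3) = 0 := by decide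
    have e2 : (2 + 2 : Fin 3) = 1 := by decide
    rw [e1, e2]; ring

/-- at most one vertex of each triangle of `A` is not in `B` -/
def Full (A : Finset (ℤ × ℤ)) (B : Finset ((ℤ × ℤ) × Fin 3)) : Prop :=
  ∀ u ∈ A, ∀ a b : Fin 3, a ≠ b → (u, a) ∈ B ∨ (u, b) ∈ B

theorem Full.mono {A : Finset (ℤ × ℤ)} {B B' : Finset ((ℤ × ℤ) × Fin 3)} (h : Full A B)
    (hB : B ⊆ B') : Full A B' := fun u hu a b hab => (h u hu a b hab).imp (@hB _) (@hB _)

theorem Full.ins {A : Finset (ℤ × ℤ)} {B : Finset ((ℤ × ℤ) × Fin 3)} (h : Full A B) {v : ℤ × ℤ}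
    {i j : Fin 3} (hij : j ≠ i) (hi : (v, i) ∈ B) (hj : (v, j) ∈ B) : Full (insert v A) B := by
  intro u hu a b hab
  rcases mem_insert.1 hu with rfl | hu
  · rcases f3t i j a b hij hab with rfl | rfl | rfl | rfl
    · exact Or.inl hi
    · exact Or.inl hj
    · exact Or.inr hi
    · exact Or.inr hj
  · exact h u hu a b hab

/-- **upper bound** -/
theorem ub (n : ℕ) : ∀ (v : ℤ × ℤ) (i : Fin 3) (A : Finset (ℤ × ℤ))
    (B : Finset ((ℤ × ℤ) × Fin 3)), v ∉ A → (nbr i v, i) ∈ B → Full A B →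
    (cnt fb n (v, i) B : ℝ) ≤ 4 * Sg (hc v A) 3 n := by
  induction n using Nat.strong_induction_on with
  | _ n ih =>
    intro v i A B hv hi hF
    obtain ⟨s1, s2, s3, s4⟩ := f3s i
    have hex : ∀ m, m < n → ∀ (c : Fin 3) (B' : Finset ((ℤ × ℤ) × Fin 3)), (v, c) ∈ B' →
        Full (insert v A) B' → gc m (nbr c v, c) B' ≤ (if m = 0 then 1 else 0) + 4 * Q v A 3 c m := by
      intro m hm c B' hc' hF'
      have hQ := Q_nonneg v A 3 c m
      by_cases hA : nbr c v ∈ insert v A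
      · by_cases hB : (nbr c v, c) ∈ B'
        · rw [gc_mem hB]
          split_ifs <;> linarith
        · rcases Nat.eq_zero_or_pos m with rfl | hm0
          · rw [if_pos rfl]
            have := gc_0 (nbr c v, c) B'
            linarith
          · obtain ⟨m, rfl⟩ : ∃ m', m = m' + 1 := ⟨m - 1, by omega⟩
            obtain ⟨-, -, t3, t4⟩ := f3s c
            have k1 : (nbr c v, c + 1) ∈ B' :=
              (hF' _ hA c (c + 1) t3.symm).resolve_left hB
            have k2 : (nbr c v, c + 2) ∈ B' :=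
              (hF' _ hA c (c + 2) t4.symm).resolve_left hB
            rw [gc_not hB, cnt_fb, nbr_nbr, gc_mem (mem_insert_of_mem hc'),
              gc_mem (mem_insert_of_mem k1), gc_mem (mem_insert_of_mem k2)]
            split_ifs <;> linarith
      · have h1 := ih m hm (nbr c v) c (insert v A) B' hA (by rw [nbr_nbr]; exact hc') hF'
        have h2 := gc_le m (nbr c v, c) B'
        have e : Q v A 3 c m = Sg (hc (nbr c v) (insert v A)) 3 m := if_neg hA
        rw [e]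
        split_ifs <;> linarith
    match n, ih, hex with
    | 0, _, _ =>
      rw [Sg_0, hc_zero]
      simp [cnt]
    | 1, _, _ =>
      have e2 := cnt_fb 0 v i B
      rw [gc_mem (mem_insert_of_mem hi)] at e2
      rw [Sg_1, hc_zero]
      refine e2.le.trans ?_
      have h1 := gc_0 (v, i + 1) (insert (v, i) B)
      have h2 := gc_0 (v, i + 2) (insert (v, i) B)
      norm_num
      linarith
    | 2, _, _ =>
      have e2 := cnt_fb 1 v i B
      rw [gc_mem (mem_insert_of_mem hi)] at e2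
      rw [Sg_2, hc_zero]
      refine e2.le.trans ?_
      have h1 := in1 0 v i (i + 1) (insert (v, i) B) s3 (mem_insert_self _ _)
      have h2 := in1 0 v i (i + 2) (insert (v, i) B) s4 (mem_insert_self _ _)
      have h3 := gc_0 (nbr (i + 1) v, i + 1) (insert (v, i + 1) (insert (v, i) B))
      have h4 := gc_0 (v, -(i + (i + 1))) (insert (v, i + 1) (insert (v, i) B))
      have h5 := gc_0 (nbr (i + 2) v, i + 2) (insert (v, i + 2) (insert (v, i) B))
      have h6 := gc_0 (v, -(i + (i + 2))) (insert (v, i + 2) (insert (v, i) B))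
      have h7 : 0 ≤ Sg (fun k => hc v A (k + 1)) 3 0 := Sg_nonneg (fun k => hc_nonneg _ _ _) _ _
      change gc 1 _ _ ≤ _ at h1
      change gc 1 _ _ ≤ _ at h2
      norm_num
      linarith
    | n + 3, ih, hex =>
      rw [Sg_3, hc_zero, Sg_Q, Sg_Q, sum3 i, sum3 i, cnt_fb, gc_mem (mem_insert_of_mem hi)]
      have a1 := in1 (n + 1) v i (i + 1) (insert (v, i) B) s3 (mem_insert_self _ _)
      have a2 := in1 (n + 1) v i (i + 2) (insert (v, i) B) s4 (mem_insert_self _ _)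
      have b1 := in2 n v i (i + 1) (insert (v, i + 1) (insert (v, i) B)) s3
        (mem_insert_of_mem (mem_insert_self _ _)) (mem_insert_self _ _)
      have b2 := in2 n v i (i + 2) (insert (v, i + 2) (insert (v, i) B)) s4
        (mem_insert_of_mem (mem_insert_self _ _)) (mem_insert_self _ _)
      have F0 : Full A (insert (v, i) B) := hF.mono (subset_insert _ _)
      have F1 : ∀ j, j ≠ i → Full (insert v A) (insert (v, j) (insert (v, i) B)) := fun j hj =>
        (F0.mono (subset_insert _ _)).ins hj (mem_insert_of_mem (mem_insert_self _ _))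
          (mem_insert_self _ _)
      have c1 := hex (n + 1) (by omega) (i + 1) _ (mem_insert_self _ _) (F1 _ s3)
      have c2 := hex (n + 1) (by omega) (i + 2) _ (mem_insert_self _ _) (F1 _ s4)
      have d1 := hex n (by omega) (-(i + (i + 1))) _ (mem_insert_self _ _)
        ((F1 _ s3).mono (subset_insert (v, -(i + (i + 1))) _))
      have d2 := hex n (by omega) (-(i + (i + 2))) _ (mem_insert_self _ _)
        ((F1 _ s4).mono (subset_insert (v, -(i + (i + 2))) _))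
      rw [if_neg (by omega)] at c1 c2
      rw [s1] at b1 d1 a1
      rw [s2] at b2 d2 a2
      have q1 := Q_nonneg v A 3 i (n + 1)
      have q2 := Q_nonneg v A 3 i n
      by_cases hn : n = 0
      · rw [if_pos hn] at d1 d2
        rw [if_pos (by omega)]
        linarith
      · rw [if_neg hn] at d1 d2
        rw [if_neg (by omega)]
        linarith

/-- **lower bound** -/
theorem lb (n : ℕ) : ∀ (v : ℤ × ℤ) (i : Fin 3) (A : Finset (ℤ × ℤ))
    (B : Finset ((ℤ × ℤ) × Fin 3)), v ∉ A → nbr i v ∈ A → (∀ x ∈ B, x.1 ∈ A) →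
    Sg (hc v A) 0 n ≤ cnt fb n (v, i) B := by
  induction n using Nat.strong_induction_on with
  | _ n ih =>
    intro v i A B hv hi hF
    obtain ⟨s1, s2, s3, s4⟩ := f3s i
    have hex : ∀ m, m < n → ∀ (c : Fin 3) (B' : Finset ((ℤ × ℤ) × Fin 3)),
        (∀ x ∈ B', x.1 ∈ insert v A) → Q v A 0 c m ≤ gc m (nbr c v, c) B' := by
      intro m hm c B' hF'
      unfold Q
      split_ifs with hA
      · exact gc_nonneg _ _ _
      · rw [gc_not (fun h => hA (hF' _ h))]
        exact ih m hm (nbr c v) c (insert v A) B' hA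
          (by rw [nbr_nbr]; exact mem_insert_self _ _) hF'
    have Qi : ∀ m, Q v A 0 i m = 0 := fun m => if_pos (mem_insert_of_mem hi)
    have hB : ∀ j, (v, j) ∉ B := fun j h => hv (hF _ h)
    have n1 : ∀ j, j ≠ i → (v, j) ∉ insert (v, i) B := by
      intro j hj h
      rcases mem_insert.1 h with h | h
      · exact hj (Prod.mk.inj h).2
      · exact hB j h
    have hF1 : ∀ x ∈ insert (v, i) B, x.1 ∈ insert v A := by
      intro x hx
      rcases mem_insert.1 hx with rfl | hx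
      · exact mem_insert_self _ _
      · exact mem_insert_of_mem (hF x hx)
    have hF2 : ∀ (j : Fin 3) (B' : Finset ((ℤ × ℤ) × Fin 3)), (∀ x ∈ B', x.1 ∈ insert v A) →
        ∀ x ∈ insert (v, j) B', x.1 ∈ insert v A := by
      intro j B' h x hx
      rcases mem_insert.1 hx with rfl | hx
      · exact mem_insert_self _ _
      · exact h x hx
    match n, ih, hex with
    | 0, _, _ =>
      rw [Sg_0, hc_zero]
      simp [cnt]
    | 1, _, _ =>
      rw [Sg_1]
      simp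
    | 2, _, hex =>
      rw [Sg_2, Sg_Q, sum3 i, Qi]
      refine le_trans ?_ (cnt_fb 1 v i B).ge
      have g0 := gc_nonneg 1 (nbr i v, i) (insert (v, i) B)
      have a1 := lo2 0 v (i + 1) (insert (v, i) B) (n1 _ s3)
      have a2 := lo2 0 v (i + 2) (insert (v, i) B) (n1 _ s4)
      have c1 := hex 0 (by omega) (i + 1) _ (hF2 (i + 1) _ hF1)
      have c2 := hex 0 (by omega) (i + 2) _ (hF2 (i + 2) _ hF1)
      norm_num at a1 a2 ⊢
      linarith
    | n + 3, _, hex =>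
      rw [Sg_3, Sg_Q, Sg_Q, sum3 i, sum3 i, Qi, Qi, cnt_fb, if_neg (by omega)]
      have g0 := gc_nonneg (n + 2) (nbr i v, i) (insert (v, i) B)
      have a1 := lo1 (n + 1) v i (i + 1) (insert (v, i) B) s3 (n1 _ s3)
      have a2 := lo1 (n + 1) v i (i + 2) (insert (v, i) B) s4 (n1 _ s4)
      have m1 : (v, -(i + (i + 1))) ∉ insert (v, i + 1) (insert (v, i) B) := by
        obtain ⟨-, -, u1, u2⟩ := f3' i (i + 1) s3
        intro h
        rcases mem_insert.1 h with h | h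
        · exact u2 (Prod.mk.inj h).2
        · exact n1 _ u1 h
      have m2 : (v, -(i + (i + 2))) ∉ insert (v, i + 2) (insert (v, i) B) := by
        obtain ⟨-, -, u1, u2⟩ := f3' i (i + 2) s4
        intro h
        rcases mem_insert.1 h with h | h
        · exact u2 (Prod.mk.inj h).2
        · exact n1 _ u1 h
      have b1 := lo2 n v (-(i + (i + 1))) _ m1
      have b2 := lo2 n v (-(i + (i + 2))) _ m2
      have c1 := hex (n + 1) (by omega) (i + 1) _ (hF2 (i + 1) _ hF1)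
      have c2 := hex (n + 1) (by omega) (i + 2) _ (hF2 (i + 2) _ hF1)
      have d1 := hex n (by omega) (-(i + (i + 1))) _ (hF2 (-(i + (i + 1))) _ (hF2 (i + 1) _ hF1))
      have d2 := hex n (by omega) (-(i + (i + 2))) _ (hF2 (-(i + (i + 2))) _ (hF2 (i + 2) _ hF1))
      rw [s1] at b1 d1 a1
      rw [s2] at b2 d2 a2
      linarith

/-- the numbers of walks -/
noncomputable def aH (n : ℕ) : ℝ := hc 0 ∅ n

noncomputable def aF (n : ℕ) : ℝ := cnt fb n ((0, 0), 0) ∅

theorem aF_low (n : ℕ) : Sg (fun k => aH (k + 1)) 0 n ≤ 3 * aF (n + 1) := by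
  have e : (fun k => aH (k + 1)) = fun k => 3 * hc (nbr 0 0) {0} k := by
    funext k
    exact hc_first k
  rw [e, Sg_smul]
  have h1 : aF (n + 1) = _ := cnt_fb n (0, 0) 0 ∅
  have h2 := gc_nonneg n (((0, 0) : ℤ × ℤ), (0 : Fin 3) + 1) (insert ((0, 0), 0) ∅)
  have h3 := gc_nonneg n (((0, 0) : ℤ × ℤ), (0 : Fin 3) + 2) (insert ((0, 0), 0) ∅)
  have h4 : (nbr 0 (0, 0), (0 : Fin 3)) ∉ (insert (((0, 0) : ℤ × ℤ), (0 : Fin 3)) ∅ :
      Finset ((ℤ × ℤ) × Fin 3)) := by
    intro h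
    rcases mem_insert.1 h with h | h
    · exact nbr_ne 0 (0, 0) (Prod.mk.inj h).1
    · exact notMem_empty _ h
  have h5 := lb n (nbr 0 0) 0 {0} (insert ((0, 0), 0) ∅) (by simpa using nbr_ne 0 0)
    (by rw [nbr_nbr]; exact mem_singleton_self _) (by
      intro x hx
      rcases mem_insert.1 hx with rfl | h
      · exact mem_singleton_self _
      · exact absurd h (notMem_empty _))
  rw [gc_not h4] at h1
  have h6 : (nbr 0 (0 : ℤ × ℤ)) = nbr 0 (0, 0) := rfl
  rw [h6] at h5 ⊢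
  linarith

theorem aF_up (n : ℕ) (hn : 3 ≤ n) : aF n ≤ 20 * Sg aH 6 n := by
  obtain ⟨n, rfl⟩ : ∃ m, n = m + 3 := ⟨n - 3, by omega⟩
  have key : ∀ m (c : Fin 3) (B : Finset ((ℤ × ℤ) × Fin 3)), ((0, 0), c) ∈ B →
      gc m (nbr c (0, 0), c) B ≤ 4 * Sg aH 3 m := by
    intro m c B hB
    refine (gc_le _ _ _).trans ?_
    have h1 := ub m (nbr c (0, 0)) c ∅ B (notMem_empty _) (by rw [nbr_nbr]; exact hB)
      (fun u hu => absurd hu (notMem_empty _))
    have e : hc (nbr c (0, 0)) ∅ = aH := by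
      funext k
      exact hc_all _ _
    rw [e] at h1
    exact h1
  have hpos : ∀ k, 0 ≤ aH k := fun k => hc_nonneg _ _ _
  have k0 : aF (n + 3) = _ := cnt_fb (n + 2) (0, 0) 0 ∅
  have a1 := in1 (n + 1) (0, 0) 0 1 (insert ((0, 0), 0) ∅) (by decide) (mem_insert_self _ _)
  have a2 := in1 (n + 1) (0, 0) 0 2 (insert ((0, 0), 0) ∅) (by decide) (mem_insert_self _ _)
  have b1 := in2 n (0, 0) 0 1 (insert ((0, 0), 1) (insert ((0, 0), 0) ∅)) (by decide)
    (mem_insert_of_mem (mem_insert_self _ _)) (mem_insert_self _ _)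
  have b2 := in2 n (0, 0) 0 2 (insert ((0, 0), 2) (insert ((0, 0), 0) ∅)) (by decide)
    (mem_insert_of_mem (mem_insert_self _ _)) (mem_insert_self _ _)
  have c0 := key (n + 2) 0 (insert ((0, 0), 0) ∅) (mem_insert_self _ _)
  have c1 := key (n + 1) 1 (insert ((0, 0), 1) (insert ((0, 0), 0) ∅)) (mem_insert_self _ _)
  have c2 := key (n + 1) 2 (insert ((0, 0), 2) (insert ((0, 0), 0) ∅)) (mem_insert_self _ _)
  have d1 := key n (-(0 + 1)) (insert ((0, 0), -(0 + 1)) (insert ((0, 0), 1)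
    (insert ((0, 0), 0) ∅))) (mem_insert_self _ _)
  have d2 := key n (-(0 + 2)) (insert ((0, 0), -(0 + 2)) (insert ((0, 0), 2)
    (insert ((0, 0), 0) ∅))) (mem_insert_self _ _)
  have e1 : Sg aH 3 (n + 2) ≤ Sg aH 6 (n + 3) :=
    (Sg_shift hpos 3 (n + 2)).trans ((Sg_M hpos 4 _).trans (Sg_M hpos 5 _))
  have e2 : Sg aH 3 (n + 1) ≤ Sg aH 6 (n + 3) :=
    (Sg_shift hpos 3 (n + 1)).trans ((Sg_shift hpos 4 _).trans (Sg_M hpos 5 _))
  have e3 : Sg aH 3 n ≤ Sg aH 6 (n + 3) :=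
    (Sg_shift hpos 3 n).trans ((Sg_shift hpos 4 _).trans (Sg_shift hpos 5 _))
  have i1 : (0 : Fin 3) + 1 = 1 := by decide
  have i2 : (0 : Fin 3) + 2 = 2 := by decide
  rw [i1, i2] at k0
  linarith

end Pool.Agent.H90.FS
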