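import Pool.Agent.H90.FS.Cnt

/-!
The renewal kernel of the comparison: total mass and tails.
-/

set_option autoImplicit false

namespace Pool.Agent.H90.FS

open Finset

/-- the parameters -/
structure Par (μ z : ℝ) : Prop where
  hμ : 1 ≤ μ
  hz : 0 < z
  hz1 : z ≤ 1
  h : (z ^ 2 + z ^ 3) * μ = 1

/-- the inverse of the mean part -/
noncomputable def kap (μ z : ℝ) : ℝ := 1 / (2 + z ^ 3 * μ)

/-- the weights -/
noncomputable def wt (μ z : ℝ) (M n k : ℕ) : ℝ := cc M k n * z ^ n * μ ^ k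

/-- the exponential moments -/
noncomputable def Vm (μ z : ℝ) (M : ℕ) (θ : ℝ) (n : ℕ) : ℝ :=
  z ^ n * Real.exp (θ * kap μ z * n) * Sg (fun k => μ ^ k * Real.exp (-(θ * k))) M n

variable {μ z : ℝ}

theorem Par.kap_bd (P : Par μ z) : 1 / 3 ≤ kap μ z ∧ kap μ z ≤ 1 / 2 ∧ 0 < kap μ z ∧
    z ^ 2 * μ * (2 * kap μ z - 1) + z ^ 3 * μ * (3 * kap μ z - 1) = 0 := by
  obtain ⟨hμ, hz, hz1, h⟩ := P
  have h1 : 0 < z ^ 3 * μ := by positivity
  have h2 : 0 < z ^ 2 * μ := by positivity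
  have h3 : z ^ 3 * μ ≤ 1 := by nlinarith
  unfold kap
  refine ⟨?_, ?_, by positivity, ?_⟩
  · exact one_div_le_one_div_of_le (by positivity) (by linarith)
  · exact one_div_le_one_div_of_le (by positivity) (by linarith)
  · have h4 : z ^ 2 * μ = 1 - z ^ 3 * μ := by linarith
    rw [h4]
    field_simp
    ring

theorem wt_nonneg (P : Par μ z) (M n k : ℕ) : 0 ≤ wt μ z M n k := by
  have := P.hz
  have := P.hμ
  unfold wt
  positivity

theorem Vm_sum (M : ℕ) (θ : ℝ) (n : ℕ) : Vm μ z M θ n =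
    ∑ k ∈ range (n + 1), wt μ z M n k * Real.exp (θ * (kap μ z * n - k)) := by
  unfold Vm Sg wt
  rw [mul_sum]
  refine sum_congr rfl fun k _ => ?_
  have e : θ * (kap μ z * n - k) = θ * kap μ z * n + -(θ * k) := by ring
  rw [e, Real.exp_add]
  ring

theorem al_succ (μ θ : ℝ) : (fun k : ℕ => μ ^ (k + 1) * Real.exp (-(θ * ((k + 1 : ℕ) : ℝ)))) =
    fun k : ℕ => μ * Real.exp (-θ) * (μ ^ k * Real.exp (-(θ * k))) := by
  funext k
  have e : -(θ * ((k + 1 : ℕ) : ℝ)) = -θ + -(θ * k) := by push_cast; ring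
  rw [e, Real.exp_add, pow_succ]
  ring

theorem Vm_0 (M : ℕ) (θ : ℝ) : Vm μ z M θ 0 = 1 := by
  unfold Vm
  rw [Sg_0]
  simp

theorem Vm_1 (M : ℕ) (θ : ℝ) : Vm μ z M θ 1 =
    z * Real.exp (θ * kap μ z) * (if 1 ≤ M then 1 else 0) := by
  unfold Vm
  rw [Sg_1]
  simp

theorem Vm_2 (M : ℕ) (θ : ℝ) : Vm μ z M θ 2 =
    z ^ 2 * Real.exp (θ * kap μ z * 2) * (if 2 ≤ M then 1 else 0) +
      z ^ 2 * μ * Real.exp (θ * (2 * kap μ z - 1)) := by
  unfold Vm
  rw [Sg_2, al_succ, Sg_smul, Sg_0]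
  have e : θ * (2 * kap μ z - 1) = θ * kap μ z * 2 + -θ := by ring
  rw [e, Real.exp_add]
  split_ifs <;> simp <;> ring

theorem Vm_3 (M : ℕ) (θ : ℝ) (n : ℕ) : Vm μ z M θ (n + 3) =
    z ^ (n + 3) * Real.exp (θ * kap μ z * (n + 3 : ℕ)) * (if n + 3 ≤ M then 1 else 0) +
      (z ^ 2 * μ * Real.exp (θ * (2 * kap μ z - 1)) * Vm μ z M θ (n + 1) +
      z ^ 3 * μ * Real.exp (θ * (3 * kap μ z - 1)) * Vm μ z M θ n) := by
  unfold Vm
  rw [Sg_3, al_succ, Sg_smul, Sg_smul]
  have e1 : Real.exp (θ * kap μ z * (n + 3 : ℕ)) * Real.exp (-θ) =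
      Real.exp (θ * (2 * kap μ z - 1)) * Real.exp (θ * kap μ z * (n + 1 : ℕ)) := by
    rw [← Real.exp_add, ← Real.exp_add]
    congr 1
    push_cast
    ring
  have e2 : Real.exp (θ * kap μ z * (n + 3 : ℕ)) * Real.exp (-θ) =
      Real.exp (θ * (3 * kap μ z - 1)) * Real.exp (θ * kap μ z * n) := by
    rw [← Real.exp_add, ← Real.exp_add]
    congr 1
    push_cast
    ring
  have e0 : μ ^ 0 * Real.exp (-(θ * ((0 : ℕ) : ℝ))) = 1 := by simp
  rw [e0]
  generalize Sg (fun k => μ ^ k * Real.exp (-(θ * k))) M (n + 1) = S1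
  generalize Sg (fun k => μ ^ k * Real.exp (-(θ * k))) M n = S2
  have e3 : z ^ (n + 3) * Real.exp (θ * kap μ z * (n + 3 : ℕ)) * (1 * (if n + 3 ≤ M then 1 else 0) +
      (μ * Real.exp (-θ) * S1 + μ * Real.exp (-θ) * S2)) =
      z ^ (n + 3) * Real.exp (θ * kap μ z * (n + 3 : ℕ)) * (if n + 3 ≤ M then 1 else 0) +
      (z ^ (n + 3) * μ * S1 * (Real.exp (θ * kap μ z * (n + 3 : ℕ)) * Real.exp (-θ)) +
      z ^ (n + 3) * μ * S2 * (Real.exp (θ * kap μ z * (n + 3 : ℕ)) * Real.exp (-θ))) := by ring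
  rw [e3]
  nth_rewrite 1 [e1]
  rw [e2]
  ring

theorem Par.gen (P : Par μ z) {θ : ℝ} (hθ : |θ| ≤ 1) :
    z ^ 2 * μ * Real.exp (θ * (2 * kap μ z - 1)) + z ^ 3 * μ * Real.exp (θ * (3 * kap μ z - 1)) ≤
      Real.exp (θ ^ 2) := by
  obtain ⟨k1, k2, k3, k4⟩ := P.kap_bd
  obtain ⟨hμ, hz, hz1, h⟩ := P
  have h1 : 0 < z ^ 3 * μ := by positivity
  have h2 : 0 < z ^ 2 * μ := by positivity
  have hx : ∀ c : ℝ, |c| ≤ 1 → Real.exp (θ * c) ≤ 1 + θ * c + θ ^ 2 := by
    intro c hc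
    have h3 : |θ * c| ≤ 1 := by
      rw [abs_mul]
      exact mul_le_one₀ hθ (abs_nonneg _) hc
    have h4 := (abs_le.1 (Real.abs_exp_sub_one_sub_id_le h3)).2
    have h5 : c ^ 2 ≤ 1 := by
      rw [← sq_abs]
      exact pow_le_one₀ (abs_nonneg _) hc
    have h6 : (θ * c) ^ 2 ≤ θ ^ 2 := by
      rw [mul_pow]
      nlinarith [sq_nonneg θ]
    linarith
  have a1 := hx (2 * kap μ z - 1) (by rw [abs_le]; constructor <;> linarith)
  have a2 := hx (3 * kap μ z - 1) (by rw [abs_le]; constructor <;> linarith)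
  have b1 := mul_le_mul_of_nonneg_left a1 h2.le
  have b2 := mul_le_mul_of_nonneg_left a2 h1.le
  have e : z ^ 2 * μ * (1 + θ * (2 * kap μ z - 1) + θ ^ 2) +
      z ^ 3 * μ * (1 + θ * (3 * kap μ z - 1) + θ ^ 2) = 1 + θ ^ 2 := by
    have : z ^ 2 * μ * (1 + θ * (2 * kap μ z - 1) + θ ^ 2) +
      z ^ 3 * μ * (1 + θ * (3 * kap μ z - 1) + θ ^ 2) = (z ^ 2 + z ^ 3) * μ * (1 + θ ^ 2) +
      θ * (z ^ 2 * μ * (2 * kap μ z - 1) + z ^ 3 * μ * (3 * kap μ z - 1)) := by ring
    rw [this, h, k4]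
    ring
  have h7 := Real.add_one_le_exp (θ ^ 2)
  linarith

theorem Vm_nonneg (P : Par μ z) (M : ℕ) (θ : ℝ) (n : ℕ) : 0 ≤ Vm μ z M θ n := by
  rw [Vm_sum]
  exact sum_nonneg fun k _ => mul_nonneg (wt_nonneg P _ _ _) (Real.exp_pos _).le

/-- exponential moments -/
theorem Par.mom (P : Par μ z) (M : ℕ) {θ : ℝ} (hθ : |θ| ≤ 1) (n : ℕ) :
    Vm μ z M θ n ≤ ((min n M : ℕ) + 1 : ℝ) * Real.exp M * Real.exp (θ ^ 2 * n) := by
  have hM : (1 : ℝ) ≤ Real.exp M := Real.one_le_exp (Nat.cast_nonneg _)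
  have hA := P.gen hθ
  have hκ := P.kap_bd
  have hz := P.hz
  have hμ := P.hμ
  have hf : ∀ m : ℕ, z ^ m * Real.exp (θ * kap μ z * m) * (if m ≤ M then 1 else 0) ≤
      Real.exp M * (if m ≤ M then 1 else 0) := by
    intro m
    split_ifs with hm
    · rw [mul_one, mul_one]
      have h1 : z ^ m ≤ 1 := pow_le_one₀ P.hz.le P.hz1
      have h2 : Real.exp (θ * kap μ z * m) ≤ Real.exp M := by
        refine Real.exp_le_exp.2 ?_
        have h3 : θ * kap μ z ≤ 1 := by
          have := (abs_le.1 hθ)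
          nlinarith
        have h4 : (m : ℝ) ≤ M := by exact_mod_cast hm
        have h5 : (0 : ℝ) ≤ m := Nat.cast_nonneg _
        nlinarith
      calc _ ≤ 1 * Real.exp (θ * kap μ z * m) :=
            mul_le_mul_of_nonneg_right h1 (Real.exp_pos _).le
        _ ≤ _ := by linarith
    · simp
  induction n using Nat.strong_induction_on with
  | _ n ih =>
    match n, ih with
    | 0, _ =>
      rw [Vm_0]
      simp
    | 1, _ =>
      have h1 := hf 1
      rw [pow_one, Nat.cast_one, mul_one] at h1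
      rw [Vm_1]
      refine h1.trans ?_
      have h2 : (1 : ℝ) ≤ Real.exp (θ ^ 2 * (1 : ℕ)) := Real.one_le_exp (by positivity)
      have h3 : Real.exp M * (if 1 ≤ M then 1 else 0) ≤ ((min 1 M : ℕ) + 1 : ℝ) * Real.exp M := by
        have h4 : (0 : ℝ) ≤ (min 1 M : ℕ) := Nat.cast_nonneg _
        split_ifs <;> nlinarith
      calc _ ≤ ((min 1 M : ℕ) + 1 : ℝ) * Real.exp M := h3
        _ ≤ _ := le_mul_of_one_le_right (by positivity) h2
    | 2, _ =>
      have h1 := hf 2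
      rw [Vm_2]
      have h0 : 0 ≤ z ^ 3 * μ * Real.exp (θ * (3 * kap μ z - 1)) := by positivity
      have h2 : Real.exp (θ ^ 2) ≤ Real.exp (θ ^ 2 * (2 : ℕ)) :=
        Real.exp_le_exp.2 (by push_cast; nlinarith [sq_nonneg θ])
      have h3 : (1 : ℝ) ≤ Real.exp (θ ^ 2 * (2 : ℕ)) := Real.one_le_exp (by positivity)
      have h5 : Real.exp M * (if 2 ≤ M then 1 else 0) + 1 ≤
          ((min 2 M : ℕ) + 1 : ℝ) * Real.exp M := by
        by_cases h : 2 ≤ M
        · rw [if_pos h, min_eq_left h]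
          push_cast
          nlinarith
        · rw [if_neg h]
          have h4 : (0 : ℝ) ≤ (min 2 M : ℕ) := Nat.cast_nonneg _
          nlinarith
      have h6 : Real.exp M * (if 2 ≤ M then 1 else 0) ≤
          Real.exp M * (if 2 ≤ M then 1 else 0) * Real.exp (θ ^ 2 * (2 : ℕ)) :=
        le_mul_of_one_le_right (by split_ifs <;> positivity) h3
      have h7 := mul_le_mul_of_nonneg_right h5 (Real.exp_pos (θ ^ 2 * (2 : ℕ))).le
      rw [Nat.cast_ofNat] at h1
      rw [add_mul] at h7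
      linarith
    | n + 3, ih =>
      have h1 := hf (n + 3)
      rw [Vm_3]
      have i1 := ih (n + 1) (by omega)
      have i2 := ih n (by omega)
      obtain ⟨F1, hF1⟩ : ∃ F1 : ℝ, F1 = ((min (n + 1) M : ℕ) + 1 : ℝ) * Real.exp M := ⟨_, rfl⟩
      obtain ⟨E, hE⟩ : ∃ E : ℝ, E = Real.exp (θ ^ 2 * (n + 1 : ℕ)) := ⟨_, rfl⟩
      rw [← hF1, ← hE] at i1
      have hF0 : 0 ≤ F1 := by rw [hF1]; positivity
      have hE0 : 0 ≤ E := by rw [hE]; positivity
      have i2' : Vm μ z M θ n ≤ F1 * E := by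
        refine i2.trans ?_
        rw [hF1, hE]
        refine mul_le_mul ?_ ?_ (by positivity) (by positivity)
        · refine mul_le_mul_of_nonneg_right ?_ (by positivity)
          have : (min n M : ℕ) ≤ min (n + 1) M := min_le_min_right _ (by omega)
          have : ((min n M : ℕ) : ℝ) ≤ (min (n + 1) M : ℕ) := by exact_mod_cast this
          linarith
        · refine Real.exp_le_exp.2 (mul_le_mul_of_nonneg_left ?_ (sq_nonneg _))
          push_cast
          linarith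
      have c1 : 0 ≤ z ^ 2 * μ * Real.exp (θ * (2 * kap μ z - 1)) := by positivity
      have c2 : 0 ≤ z ^ 3 * μ * Real.exp (θ * (3 * kap μ z - 1)) := by positivity
      have j1 := mul_le_mul_of_nonneg_left i1 c1
      have j2 := mul_le_mul_of_nonneg_left i2' c2
      have j3 := mul_le_mul_of_nonneg_right hA (mul_nonneg hF0 hE0)
      have j4 : Real.exp (θ ^ 2) * (F1 * E) ≤ F1 * Real.exp (θ ^ 2 * (n + 3 : ℕ)) := by
        have e : Real.exp (θ ^ 2) * (F1 * E) = F1 * Real.exp (θ ^ 2 * (n + 2 : ℕ)) := by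
          rw [hE]
          have : Real.exp (θ ^ 2 * (n + 2 : ℕ)) =
              Real.exp (θ ^ 2) * Real.exp (θ ^ 2 * (n + 1 : ℕ)) := by
            rw [← Real.exp_add]
            congr 1
            push_cast
            ring
          rw [this]
          ring
        rw [e]
        refine mul_le_mul_of_nonneg_left (Real.exp_le_exp.2 ?_) hF0
        refine mul_le_mul_of_nonneg_left ?_ (sq_nonneg _)
        push_cast
        linarith
      have h3 : (1 : ℝ) ≤ Real.exp (θ ^ 2 * (n + 3 : ℕ)) := Real.one_le_exp (by positivity)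
      have h5 : Real.exp M * (if n + 3 ≤ M then 1 else 0) + F1 ≤
          ((min (n + 3) M : ℕ) + 1 : ℝ) * Real.exp M := by
        rw [hF1]
        by_cases h : n + 3 ≤ M
        · rw [if_pos h, min_eq_left h, min_eq_left (by omega)]
          push_cast
          nlinarith
        · rw [if_neg h]
          have : (min (n + 1) M : ℕ) ≤ min (n + 3) M := min_le_min_right _ (by omega)
          have : ((min (n + 1) M : ℕ) : ℝ) ≤ (min (n + 3) M : ℕ) := by exact_mod_cast this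
          nlinarith
      have h6 : Real.exp M * (if n + 3 ≤ M then 1 else 0) ≤
          Real.exp M * (if n + 3 ≤ M then 1 else 0) * Real.exp (θ ^ 2 * (n + 3 : ℕ)) :=
        le_mul_of_one_le_right (by split_ifs <;> positivity) h3
      have h7 := mul_le_mul_of_nonneg_right h5 (Real.exp_pos (θ ^ 2 * (n + 3 : ℕ))).le
      rw [add_mul] at h7 j3
      linarith

/-- a constant for the upper bounds -/
noncomputable def CM (M : ℕ) : ℝ := (M + 1) * Real.exp M

theorem CM_pos (M : ℕ) : 0 < CM M := by unfold CM; positivity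

theorem Par.mom' (P : Par μ z) (M : ℕ) {θ : ℝ} (hθ : |θ| ≤ 1) (n : ℕ) :
    Vm μ z M θ n ≤ CM M * Real.exp (θ ^ 2 * n) := by
  refine (P.mom M hθ n).trans ?_
  unfold CM
  refine mul_le_mul_of_nonneg_right (mul_le_mul_of_nonneg_right ?_ (Real.exp_pos _).le)
    (Real.exp_pos _).le
  have : ((min n M : ℕ) : ℝ) ≤ M := by exact_mod_cast min_le_right n M
  linarith

/-- total mass, upper bound -/
theorem Par.tot (P : Par μ z) (M n : ℕ) : ∑ k ∈ range (n + 1), wt μ z M n k ≤ CM M := by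
  have h := P.mom' M (θ := 0) (by simp) n
  rw [Vm_sum] at h
  simpa using h

/-- total mass, lower bound -/
theorem Par.tot_low (P : Par μ z) : ∃ m : ℝ, 0 < m ∧ ∀ n : ℕ, 2 ≤ n →
    m ≤ ∑ k ∈ range (n + 1), wt μ z 0 n k := by
  obtain ⟨hμ, hz, hz1, h⟩ := P
  have hμ0 : 0 < μ := by linarith
  obtain ⟨m, hm⟩ : ∃ m : ℝ, m = min (z ^ 2 * μ) (min (z ^ 3 * μ) (z ^ 2 * μ * (z ^ 2 * μ))) :=
    ⟨_, rfl⟩
  have m1 : m ≤ z ^ 2 * μ := by rw [hm]; exact min_le_left _ _
  have m2 : m ≤ z ^ 3 * μ := by rw [hm]; exact (min_le_right _ _).trans (min_le_left _ _)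
  have m3 : m ≤ z ^ 2 * μ * (z ^ 2 * μ) := by
    rw [hm]; exact (min_le_right _ _).trans (min_le_right _ _)
  have m0 : 0 < m := by rw [hm]; positivity
  refine ⟨m, m0, fun n hn => ?_⟩
  have e : ∑ k ∈ range (n + 1), wt μ z 0 n k = Vm μ z 0 0 n := by
    rw [Vm_sum]
    simp
  rw [e]
  have v2 : Vm μ z 0 0 2 = z ^ 2 * μ := by rw [Vm_2]; simp
  have v1 : Vm μ z 0 0 1 = 0 := by rw [Vm_1]; simp
  have v3 : ∀ n, Vm μ z 0 0 (n + 3) = z ^ 2 * μ * Vm μ z 0 0 (n + 1) +
      z ^ 3 * μ * Vm μ z 0 0 n := by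
    intro n
    rw [Vm_3]
    simp
  have h1 : 0 < z ^ 3 * μ := by positivity
  have h2 : 0 < z ^ 2 * μ := by positivity
  induction n using Nat.strong_induction_on with
  | _ n ih =>
    match n, ih, hn with
    | 2, _, _ => rw [v2]; exact m1
    | 3, _, _ =>
      have := v3 0
      rw [Vm_0, v1] at this
      rw [this]
      linarith
    | 4, _, _ =>
      have := v3 1
      rw [v1] at this
      rw [this]
      have : Vm μ z 0 0 (1 + 1) = z ^ 2 * μ := v2
      rw [this]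
      linarith
    | n + 5, ih, _ =>
      have e : Vm μ z 0 0 (n + 5) = _ := v3 (n + 2)
      rw [e]
      have a1 := ih (n + 2 + 1) (by omega) (by omega) (by rw [Vm_sum]; simp)
      have a2 := ih (n + 2) (by omega) (by omega) (by rw [Vm_sum]; simp)
      have b1 := mul_le_mul_of_nonneg_left a1 h2.le
      have b2 := mul_le_mul_of_nonneg_left a2 h1.le
      have : z ^ 2 * μ * m + z ^ 3 * μ * m = m := by
        have : z ^ 2 * μ * m + z ^ 3 * μ * m = (z ^ 2 + z ^ 3) * μ * m := by ring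
        rw [this, h, one_mul]
      linarith

/-- tails -/
theorem Par.tail (P : Par μ z) (M n : ℕ) (hn : 1 ≤ n) {W : ℝ} (hW : 0 ≤ W) (hW2 : W ≤ 2 * n) :
    ∑ k ∈ (range (n + 1)).filter (fun k : ℕ => W ≤ |kap μ z * n - k|), wt μ z M n k ≤
      2 * CM M * Real.exp (-(W ^ 2 / (4 * n))) := by
  have hn0 : (0 : ℝ) < n := by exact_mod_cast hn
  obtain ⟨θ, hθ⟩ : ∃ θ : ℝ, θ = W / (2 * n) := ⟨_, rfl⟩
  have hθ0 : 0 ≤ θ := by rw [hθ]; positivity
  have hθ1 : |θ| ≤ 1 := by
    rw [abs_of_nonneg hθ0, hθ, div_le_one (by positivity)]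
    exact hW2
  have hθ2 : |(-θ)| ≤ 1 := by rw [abs_neg]; exact hθ1
  have h1 := P.mom' M hθ1 n
  have h2 := P.mom' M hθ2 n
  rw [neg_sq] at h2
  rw [Vm_sum] at h1 h2
  have key : ∀ k ∈ (range (n + 1)).filter (fun k : ℕ => W ≤ |kap μ z * n - k|),
      wt μ z M n k ≤ Real.exp (-(θ * W)) * (wt μ z M n k * Real.exp (θ * (kap μ z * n - k)) +
        wt μ z M n k * Real.exp (-θ * (kap μ z * n - k))) := by
    intro k hk
    obtain ⟨-, hk⟩ := mem_filter.1 hk
    have hw := wt_nonneg P M n k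
    have h3 : 1 ≤ Real.exp (-(θ * W)) * (Real.exp (θ * (kap μ z * n - k)) +
        Real.exp (-θ * (kap μ z * n - k))) := by
      have h4 : Real.exp (θ * W) ≤ Real.exp (θ * (kap μ z * n - k)) +
          Real.exp (-θ * (kap μ z * n - k)) := by
        have h5 := mul_le_mul_of_nonneg_left hk hθ0
        rcases abs_cases (kap μ z * n - k) with ⟨h6, -⟩ | ⟨h6, -⟩
        · rw [h6] at h5
          have := Real.exp_le_exp.2 h5
          have := Real.exp_pos (-θ * (kap μ z * n - k))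
          linarith
        · rw [h6] at h5
          have h7 := Real.exp_le_exp.2 h5
          have e : θ * -(kap μ z * n - k) = -θ * (kap μ z * n - k) := by ring
          rw [e] at h7
          have := Real.exp_pos (θ * (kap μ z * n - k))
          linarith
      calc (1 : ℝ) = Real.exp (-(θ * W)) * Real.exp (θ * W) := by
            rw [← Real.exp_add]; simp
        _ ≤ _ := mul_le_mul_of_nonneg_left h4 (Real.exp_pos _).le
    calc wt μ z M n k = wt μ z M n k * 1 := by ring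
      _ ≤ wt μ z M n k * (Real.exp (-(θ * W)) * (Real.exp (θ * (kap μ z * n - k)) +
        Real.exp (-θ * (kap μ z * n - k)))) := mul_le_mul_of_nonneg_left h3 hw
      _ = _ := by ring
  calc _ ≤ ∑ k ∈ (range (n + 1)).filter (fun k : ℕ => W ≤ |kap μ z * n - k|),
        Real.exp (-(θ * W)) * (wt μ z M n k * Real.exp (θ * (kap μ z * n - k)) +
        wt μ z M n k * Real.exp (-θ * (kap μ z * n - k))) := sum_le_sum key
    _ ≤ ∑ k ∈ range (n + 1),
        Real.exp (-(θ * W)) * (wt μ z M n k * Real.exp (θ * (kap μ z * n - k)) +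
        wt μ z M n k * Real.exp (-θ * (kap μ z * n - k))) := by
        refine sum_le_sum_of_subset_of_nonneg (filter_subset _ _) fun k _ _ => ?_
        have hw := wt_nonneg P M n k
        positivity
    _ = Real.exp (-(θ * W)) * (∑ k ∈ range (n + 1), wt μ z M n k *
        Real.exp (θ * (kap μ z * n - k)) + ∑ k ∈ range (n + 1), wt μ z M n k *
        Real.exp (-θ * (kap μ z * n - k))) := by
        rw [← mul_sum, sum_add_distrib]
    _ ≤ Real.exp (-(θ * W)) * (CM M * Real.exp (θ ^ 2 * n) + CM M * Real.exp (θ ^ 2 * n)) :=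
        mul_le_mul_of_nonneg_left (add_le_add h1 h2) (Real.exp_pos _).le
    _ = 2 * CM M * (Real.exp (-(θ * W)) * Real.exp (θ ^ 2 * n)) := by ring
    _ = _ := by
        rw [← Real.exp_add]
        congr 2
        rw [hθ]
        field_simp
        ring

/-- support -/
theorem wt_supp (M n k : ℕ) (h : wt μ z M n k ≠ 0) : 2 * k ≤ n ∧ n ≤ 3 * k + M := by
  constructor
  · by_contra hc
    exact h (by unfold wt; rw [cc_zero M k n (by omega)]; simp)
  · by_contra hc
    exact h (by unfold wt; rw [cc_zero' M k n (by omega)]; simp)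

theorem Sg_wt (P : Par μ z) (a : ℕ → ℝ) (M n : ℕ) : z ^ n * Sg a M n =
    ∑ k ∈ range (n + 1), a k / μ ^ k * wt μ z M n k := by
  have hμ : 0 < μ := by linarith [P.hμ]
  unfold Sg wt
  rw [mul_sum]
  refine sum_congr rfl fun k _ => ?_
  have : μ ^ k ≠ 0 := by positivity
  field_simp

/-- the parameter exists -/
theorem par_exists {μ : ℝ} (hμ : 1 ≤ μ) : ∃ z, Par μ z := by
  have hc : ContinuousOn (fun z : ℝ => (z ^ 2 + z ^ 3) * μ) (Set.Icc 0 1) := by fun_prop
  have h1 := intermediate_value_Icc (by norm_num : (0 : ℝ) ≤ 1) hc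
  have h2 : (1 : ℝ) ∈ Set.Icc ((((0 : ℝ) ^ 2 + 0 ^ 3) * μ)) (((1 : ℝ) ^ 2 + 1 ^ 3) * μ) := by
    constructor
    · norm_num
    · norm_num
      linarith
  obtain ⟨z, ⟨z0, z1⟩, hz⟩ := h1 h2
  refine ⟨z, hμ, lt_of_le_of_ne z0 ?_, z1, hz⟩
  rintro rfl
  norm_num at hz

end Pool.Agent.H90.FS
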