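import Pool.Agent.H90.FS.Ren

/-!
Regularity of the numbers of walks on the decorated lattice.
-/

set_option autoImplicit false

namespace Pool.Agent.H90.FS

open Finset Filter Topology Q215.SAW.Cvx

/-- the regularity which is used -/
structure NR (ell : ℕ → ℝ) : Prop where
  near : ∀ t : ℕ → ℕ, Tendsto t atTop atTop → Sparse t → ∀ ε : ℝ, 0 < ε → ∀ j1 : ℕ,
    ∃ N0 : ℕ, ∀ n, N0 ≤ n → ∃ j, j1 ≤ j ∧ n ≤ 2 * t j ∧ t j ≤ 2 * n ∧
      ell n ≤ ell (t j) + ε * Real.log n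
  osc : ∀ B : ℝ, (∀ᶠ n : ℕ in atTop, |ell n| ≤ B * Real.log n) → ∀ ε : ℝ, 0 < ε →
    ∃ η : ℝ, 0 < η ∧ η ≤ 1 ∧ ∀ᶠ m : ℕ in atTop, ∀ i : ℕ,
      (i : ℝ) ≤ η * √(m * Real.log m) → |ell (m + i) - ell m| ≤ ε * Real.log m

variable {μ z : ℝ} {r b : ℕ → ℝ} {c C m : ℝ}

theorem CM_zero : CM 0 = 1 := by simp [CM]

theorem AC_mono {x : ℕ → ℝ} {D D' : ℝ} {k0 k0' : ℕ} (h : AC x D k0) (hD : D ≤ D')
    (hk : k0 ≤ k0') : AC x D' k0' := by
  intro k hk'
  have h1 := h k (hk.trans hk')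
  have h2 : D / k ≤ D' / k := div_le_div_of_nonneg_right hD (Nat.cast_nonneg _)
  linarith

/-- between two members -/
theorem r_btw (E : Ser (fun k => Real.log (r k)) 2) {ε : ℝ} (hε : 0 < ε) :
    ∃ η : ℝ, 0 < η ∧ η ≤ 1 ∧ ∃ N : ℕ, ∀ k, N ≤ k → ∀ i i' : ℕ, i ≤ i' →
      (i' : ℝ) ≤ η * √(k * Real.log k) →
      Real.log (r (k + i)) ≤ max (Real.log (r k)) (Real.log (r (k + i'))) + ε * Real.log k := by
  obtain ⟨C1', N1, hst'⟩ := E.st
  obtain ⟨C1, hC1⟩ : ∃ C1 : ℝ, C1 = |C1'| := ⟨_, rfl⟩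
  have hC10 : 0 ≤ C1 := by rw [hC1]; exact abs_nonneg _
  have hst : ∀ n, N1 ≤ n → Real.log (r (n + 1)) ≤ Real.log (r n) + C1 ∧
      Real.log (r n) ≤ Real.log (r (n + 1)) + C1 := by
    intro n hn
    have h1 := abs_le.1 ((hst' n hn).trans (le_abs_self C1'))
    rw [← hC1] at h1
    constructor <;> linarith
  obtain ⟨D0, k0, hD0, hx0⟩ := E.ac 0 (by norm_num)
  obtain ⟨D2, k2, hD2, hx2⟩ := E.ac 1 (by norm_num)
  obtain ⟨D1, hD1⟩ : ∃ D1 : ℝ, D1 = D0 + D2 := ⟨_, rfl⟩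
  have hD10 : 0 ≤ D1 := by rw [hD1]; positivity
  obtain ⟨k1, hk1⟩ : ∃ k1 : ℕ, k1 = k0 + k2 := ⟨_, rfl⟩
  have hac : ∀ e, e < 2 → AC (fun k => Real.log (r (2 * k + e))) D1 k1 := by
    intro e he
    interval_cases e
    · exact AC_mono hx0 (by linarith) (by omega)
    · exact AC_mono hx2 (by linarith) (by omega)
  obtain ⟨η, hη⟩ : ∃ η : ℝ, η = min 1 (ε / (4 * (D1 + 1))) := ⟨_, rfl⟩
  have hη0 : 0 < η := by rw [hη]; exact lt_min one_pos (by positivity)
  have hη1 : η ≤ 1 := by rw [hη]; exact min_le_left _ _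
  have hη2 : η ≤ ε / (4 * (D1 + 1)) := by rw [hη]; exact min_le_right _ _
  obtain ⟨N2, hN2⟩ := eventually_atTop.1 (log_le_eps (show 0 < 3 * ε / 4 by positivity) (2 * C1))
  refine ⟨η, hη0, hη1, N1 + 2 * k1 + N2 + 10, fun k hk i i' hii hi' => ?_⟩
  have hk0 : (0 : ℝ) < k := by exact_mod_cast (show 0 < k by omega)
  have hk10 : (10 : ℝ) ≤ k := by exact_mod_cast (show 10 ≤ k by omega)
  have hlk : 0 < Real.log k := Real.log_pos (by linarith)
  obtain ⟨t, ht⟩ : ∃ t, t = k / 2 := ⟨_, rfl⟩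
  obtain ⟨e, he⟩ : ∃ e, e = k % 2 := ⟨_, rfl⟩
  have hkt : 2 * t + e = k := by omega
  have he2 : e < 2 := by omega
  have h1 := between (hac e he2) hD10 (t := t) (i := i / 2) (g := i' / 2) (by omega) (by omega)
    (Nat.div_le_div_right hii)
  have e1 : 2 * (t + i / 2) + e = k + 2 * (i / 2) := by omega
  have e2 : 2 * (t + i' / 2) + e = k + 2 * (i' / 2) := by omega
  simp only [e1, e2, hkt] at h1
  have h2 : Real.log (r (k + i)) ≤ Real.log (r (k + 2 * (i / 2))) + C1 := by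
    rcases Nat.mod_two_eq_zero_or_one i with h | h
    · have : k + 2 * (i / 2) = k + i := by omega
      rw [this]; linarith
    · have h3 := (hst (k + 2 * (i / 2)) (by omega)).1
      have : k + 2 * (i / 2) + 1 = k + i := by omega
      rw [this] at h3
      exact h3
  have h3 : Real.log (r (k + 2 * (i' / 2))) ≤ Real.log (r (k + i')) + C1 := by
    rcases Nat.mod_two_eq_zero_or_one i' with h | h
    · have : k + 2 * (i' / 2) = k + i' := by omega
      rw [this]; linarith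
    · have h3 := (hst (k + 2 * (i' / 2)) (by omega)).2
      have : k + 2 * (i' / 2) + 1 = k + i' := by omega
      rw [this] at h3
      exact h3
  have h4 : D1 * ((i' / 2 : ℕ) : ℝ) ^ 2 / t ≤ ε / 4 * Real.log k := by
    have g1 : (((i' / 2 : ℕ) : ℝ)) ≤ i' / 2 := by
      have := @Nat.cast_div_le ℝ _ _ _ i' 2
      exact_mod_cast this
    have g2 : (k : ℝ) / 3 ≤ t := by
      have : k ≤ 3 * t := by omega
      have : (k : ℝ) ≤ 3 * t := by exact_mod_cast this
      linarith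
    have g0 : (0 : ℝ) ≤ ((i' / 2 : ℕ) : ℝ) := Nat.cast_nonneg _
    have g3 : ((i' / 2 : ℕ) : ℝ) ^ 2 ≤ (η * √(k * Real.log k)) ^ 2 / 4 := by
      have : ((i' / 2 : ℕ) : ℝ) ≤ η * √(k * Real.log k) / 2 := by linarith
      have := pow_le_pow_left₀ g0 this 2
      linarith
    rw [mul_pow, Real.sq_sqrt (by positivity)] at g3
    have g4 : η ^ 2 ≤ ε / (4 * (D1 + 1)) := by nlinarith
    rw [div_le_iff₀ (by linarith)]
    have g5 : D1 * ((i' / 2 : ℕ) : ℝ) ^ 2 ≤ D1 * (η ^ 2 * (k * Real.log k) / 4) :=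
      mul_le_mul_of_nonneg_left g3 hD10
    have g6 : D1 * η ^ 2 ≤ ε / 4 := by
      have : D1 * η ^ 2 ≤ D1 * (ε / (4 * (D1 + 1))) := mul_le_mul_of_nonneg_left g4 hD10
      refine this.trans ?_
      rw [mul_div_assoc', div_le_div_iff₀ (by positivity) (by norm_num)]
      nlinarith
    have g7 : D1 * (η ^ 2 * (k * Real.log k) / 4) = D1 * η ^ 2 * (k * Real.log k) / 4 := by ring
    have g8 : D1 * η ^ 2 * (k * Real.log k) ≤ ε / 4 * (k * Real.log k) :=
      mul_le_mul_of_nonneg_right g6 (by positivity)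
    have g9 : ε / 4 * Real.log k * (k / 3) ≤ ε / 4 * Real.log k * t :=
      mul_le_mul_of_nonneg_left g2 (by positivity)
    have g10 : 0 < ε / 4 * (k * Real.log k) := by positivity
    nlinarith
  have h5 := hN2 k (by omega)
  have h6 : max (Real.log (r k)) (Real.log (r (k + 2 * (i' / 2)))) ≤
      max (Real.log (r k)) (Real.log (r (k + i'))) + C1 := by
    refine max_le ?_ ?_
    · have := le_max_left (Real.log (r k)) (Real.log (r (k + i')))
      linarith
    · have := le_max_right (Real.log (r k)) (Real.log (r (k + i')))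
      linarith
  linarith

/-- comparison of `√(x log x)` -/
theorem sq_cmp {x y a : ℝ} (hy : 3 ≤ y) (hx0 : 0 < x) (hxy : x ≤ a * y) (ha : a ≤ y) (ha1 : 1 ≤ a)
    (hx1 : 1 ≤ x) : √(x * Real.log x) ≤ √(2 * a) * √(y * Real.log y) := by
  rw [← Real.sqrt_mul (by linarith)]
  refine Real.sqrt_le_sqrt ?_
  have h1 : Real.log x ≤ 2 * Real.log y := by
    have h2 : Real.log x ≤ Real.log (y ^ 2) := Real.log_le_log hx0 (by nlinarith)
    rw [Real.log_pow] at h2
    exact_mod_cast h2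
  have h3 : 0 ≤ Real.log x := Real.log_nonneg hx1
  calc x * Real.log x ≤ (a * y) * (2 * Real.log y) := mul_le_mul hxy h1 h3 (by nlinarith)
    _ = _ := by ring

theorem Dat.near_aux (D : Dat μ z r b c C m) (E : Ser (fun k => Real.log (r k)) 2) {ε : ℝ}
    (hε : 0 < ε) : ∃ (η X : ℝ) (N : ℕ), 0 < η ∧ η ≤ 1 ∧ 0 < X ∧ ∀ s u w : ℕ, N ≤ s →
      2 * (u + 2) ≤ w → (w : ℝ) ≤ η * √(s * Real.log s) →
      Bk μ z r (s + 2 + u) ≤ X * Real.exp (ε * Real.log s) *
        (Bk μ z r (s + 2) + Bk μ z r (s + 2 + w)) := by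
  obtain ⟨ηr, hη0, hη1, N, hN⟩ := r_btw E hε
  obtain ⟨q, N1, hq, hq1, hnb⟩ := D.nbs E
  have hr0 : ∀ k, 0 ≤ r k := fun k => by linarith [D.r1 k]
  have hrp : ∀ k, 0 < r k := fun k => by linarith [D.r1 k]
  have hm := D.m0
  refine ⟨ηr / 3, 3 * (1 / q ^ 2 + 1 / m), 3 * N + N1 + 30, by positivity, by linarith,
    by positivity, fun s u w hs huw hw => ?_⟩
  have hs0 : (0 : ℝ) < s := by exact_mod_cast (show 0 < s by omega)
  obtain ⟨Ex, hEx⟩ : ∃ Ex : ℝ, Ex = Real.exp (ε * Real.log s) := ⟨_, rfl⟩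
  have hEx0 : 0 < Ex := by rw [hEx]; exact Real.exp_pos _
  have hin : ∀ v : ℕ, v ≤ 2 → ∀ k : ℕ, 2 * k ≤ s + 2 - v → s + 2 - v ≤ 3 * k →
      Gk μ z r (u + v) k ≤ Ex * (r k + 1 / m * Gk μ z r (w + v) k) := by
    intro v hv k hk1 hk2
    have hk0 : (0 : ℝ) < k := by exact_mod_cast (show 0 < k by omega)
    have hsk : (s : ℝ) ≤ 3 * k := by exact_mod_cast (show s ≤ 3 * k by omega)
    have hks : (k : ℝ) ≤ s := by exact_mod_cast (show k ≤ s by omega)
    have hk9 : (9 : ℝ) ≤ k := by exact_mod_cast (show 9 ≤ k by omega)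
    have hs30 : (30 : ℝ) ≤ s := by exact_mod_cast (show 30 ≤ s by omega)
    have hexp : Real.exp (ε * Real.log k) ≤ Ex := by
      rw [hEx]
      refine Real.exp_le_exp.2 (mul_le_mul_of_nonneg_left (Real.log_le_log hk0 hks) hε.le)
    have hG : 0 ≤ Gk μ z r (w + v) k := Gk_nonneg D.P hr0 _ _
    have key : ∀ i, 2 * i ≤ u + v → r (k + i) ≤ Ex * (r k + 1 / m * Gk μ z r (w + v) k) := by
      intro i hi
      obtain ⟨x, hx⟩ : ∃ x : ℝ, x = r (k + i) / Ex - r k := ⟨_, rfl⟩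
      have hxi : ∀ i', 2 * i' ≤ w + v → w + v ≤ 3 * i' → x ≤ r (k + i') := by
        intro i' h1 h2
        have h3 := hN k (by omega) i i' (by omega) (by
          have h4 : (i' : ℝ) ≤ w := by exact_mod_cast (show i' ≤ w by omega)
          have h5 := sq_cmp (x := s) (y := k) (a := 3) (by linarith) hs0 hsk (by linarith)
            (by norm_num) (by linarith)
          have h6 : √(2 * 3 : ℝ) ≤ 3 := by
            rw [Real.sqrt_le_left (by norm_num)]
            norm_num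
          have h7 : √((s : ℝ) * Real.log s) ≤ 3 * √((k : ℝ) * Real.log k) :=
            h5.trans (mul_le_mul_of_nonneg_right h6 (Real.sqrt_nonneg _))
          have h8 := mul_le_mul_of_nonneg_left h7 (show 0 ≤ ηr / 3 by positivity)
          linarith)
        have h4 : r (k + i) ≤ Ex * (r k + r (k + i')) := by
          rw [← Real.exp_log (hrp (k + i))]
          refine (Real.exp_le_exp.2 h3).trans ?_
          rw [Real.exp_add, mul_comm]
          refine mul_le_mul hexp ?_ (Real.exp_pos _).le hEx0.le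
          rcases max_choice (Real.log (r k)) (Real.log (r (k + i'))) with h | h
          · rw [h, Real.exp_log (hrp _)]
            linarith [hr0 (k + i')]
          · rw [h, Real.exp_log (hrp _)]
            linarith [hr0 k]
        rw [hx, sub_le_iff_le_add, div_le_iff₀ hEx0]
        linarith
      have h5 : x * m ≤ Gk μ z r (w + v) k := by
        rcases le_total 0 x with h | h
        · have h6 : Bk μ z (fun _ => x) (w + v) ≤ Gk μ z r (w + v) k := by
            unfold Gk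
            exact Bk_mono D.P hxi
          rw [Bk_const D.P] at h6
          have h7 := mul_le_mul_of_nonneg_left (D.low (w + v) (by omega)) h
          linarith
        · have := mul_nonpos_of_nonpos_of_nonneg h hm.le
          linarith
      have h6 : x ≤ 1 / m * Gk μ z r (w + v) k := by
        rw [one_div, ← div_eq_inv_mul, le_div_iff₀ hm]
        exact h5
      rw [hx, sub_le_iff_le_add, div_le_iff₀ hEx0] at h6
      linarith
    obtain ⟨y, hy⟩ : ∃ y : ℝ, y = Ex * (r k + 1 / m * Gk μ z r (w + v) k) := ⟨_, rfl⟩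
    have hy0 : 0 ≤ y := by
      rw [hy]
      have := hr0 k
      positivity
    rw [← hy] at key ⊢
    have h1 : Gk μ z r (u + v) k ≤ Bk μ z (fun _ => y) (u + v) := by
      unfold Gk
      exact Bk_mono D.P fun i hi _ => key i hi
    rw [Bk_const D.P] at h1
    have h2 := mul_le_mul_of_nonneg_left (D.P.tot 0 (u + v)) hy0
    rw [CM_zero] at h2
    linarith
  have hout : ∀ v : ℕ, v ≤ 2 → Bk μ z (Gk μ z r (u + v)) (s + 2 - v) ≤
      Ex * (Bk μ z r (s + 2 - v) + 1 / m * Bk μ z r (s + 2 + w)) := by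
    intro v hv
    have h1 := Bk_mono D.P (ρ := Gk μ z r (u + v))
      (σ := fun k => Ex * (r k + 1 / m * Gk μ z r (w + v) k)) (n := s + 2 - v) (hin v hv)
    refine h1.trans ?_
    rw [Bk_smul, Bk_add, Bk_smul]
    refine mul_le_mul_of_nonneg_left ?_ hEx0.le
    have h2 := Bk_lo D.P hr0 (s + 2 - v) (w + v)
    have e : s + 2 - v + (w + v) = s + 2 + w := by omega
    rw [e] at h2
    have h3 := mul_le_mul_of_nonneg_left h2 (show 0 ≤ 1 / m by positivity)
    linarith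
  have h0 := Bk_up D.P hr0 s u
  have o0 := hout 0 (by omega)
  have o1 := hout 1 (by omega)
  have o2 := hout 2 (by omega)
  have n1 := (hnb s (by omega)).1
  have n2 := (hnb (s + 1) (by omega)).1
  have p0 := Bk_nonneg D.P hr0 s
  have p1 := Bk_nonneg D.P hr0 (s + 1)
  have p2 : 0 ≤ Bk μ z r (s + 2) := Bk_nonneg D.P hr0 _
  have p3 := Bk_nonneg D.P hr0 (s + 2 + w)
  have e1 : s + 2 - 1 = s + 1 := by omega
  have e2 : s + 2 - 2 = s := by omega
  rw [add_zero, Nat.sub_zero] at o0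
  rw [e1] at o1
  rw [e2] at o2
  have e3 : s + 1 + 1 = s + 2 := rfl
  rw [e3] at n2
  have q2 : 0 < q ^ 2 := by positivity
  have a1 : Bk μ z r (s + 1) ≤ 1 / q ^ 2 * Bk μ z r (s + 2) := by
    rw [one_div, ← div_eq_inv_mul, le_div_iff₀ q2]
    have : q ^ 2 * Bk μ z r (s + 1) ≤ q * Bk μ z r (s + 1) :=
      mul_le_mul_of_nonneg_right (by nlinarith) p1
    linarith
  have a0 : Bk μ z r s ≤ 1 / q ^ 2 * Bk μ z r (s + 2) := by
    rw [one_div, ← div_eq_inv_mul, le_div_iff₀ q2]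
    have := mul_le_mul_of_nonneg_left n1 hq.le
    nlinarith
  have a2 : Bk μ z r (s + 2) ≤ 1 / q ^ 2 * Bk μ z r (s + 2) := by
    have : (1 : ℝ) ≤ 1 / q ^ 2 := by
      rw [le_div_iff₀ q2]
      nlinarith
    nlinarith
  have g : ∀ y : ℝ, y ≤ 1 / q ^ 2 * Bk μ z r (s + 2) →
      Ex * (y + 1 / m * Bk μ z r (s + 2 + w)) ≤ (1 / q ^ 2 + 1 / m) * Ex *
        (Bk μ z r (s + 2) + Bk μ z r (s + 2 + w)) := by
    intro y hy
    have h1 : y + 1 / m * Bk μ z r (s + 2 + w) ≤ (1 / q ^ 2 + 1 / m) *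
        (Bk μ z r (s + 2) + Bk μ z r (s + 2 + w)) := by
      have h2 : 0 ≤ 1 / m * Bk μ z r (s + 2) := by positivity
      have h3 : 0 ≤ 1 / q ^ 2 * Bk μ z r (s + 2 + w) := by positivity
      linarith
    have h2 := mul_le_mul_of_nonneg_left h1 hEx0.le
    linarith
  have g0 := g _ a2
  have g1 := g _ a1
  have g2 := g _ a0
  rw [← hEx]
  linarith

end Pool.Agent.H90.FS
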