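import Pool.Agent.H90.FS.Reg

/-!
Regularity of the numbers of walks on the decorated lattice, second part.
-/

set_option autoImplicit false

namespace Pool.Agent.H90.FS

open Finset Filter Topology Q215.SAW.Cvx

variable {μ z : ℝ} {r b : ℕ → ℝ} {c C m : ℝ}

theorem sqrt_tend : Tendsto (fun n : ℕ => √((n : ℝ) * Real.log n)) atTop atTop :=
  Real.tendsto_sqrt_atTop.comp (tendsto_natCast_atTop_atTop.atTop_mul_atTop₀ log_tend)

/-- near a member of a sparse sequence -/
theorem Dat.near (D : Dat μ z r b c C m) (E : Ser (fun k => Real.log (r k)) 2) (t : ℕ → ℕ)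
    (ht : Tendsto t atTop atTop) (hsp : Sparse t) (ε : ℝ) (hε : 0 < ε) (j1 : ℕ) :
    ∃ N0 : ℕ, ∀ n, N0 ≤ n → ∃ j, j1 ≤ j ∧ n ≤ 2 * t j ∧ t j ≤ 2 * n ∧
      Real.log (b n) ≤ Real.log (b (t j)) + ε * Real.log n := by
  obtain ⟨η, X0, N, hη0, hη1, hX0, hN⟩ := D.near_aux E (show 0 < ε / 2 by positivity)
  obtain ⟨x, X, N3, hx, hX, hN3⟩ := D.comp E
  have hr0 : ∀ k, 0 ≤ r k := fun k => by linarith [D.r1 k]
  obtain ⟨j0, hj0⟩ := eventually_atTop.1 ((large ht hsp (show 0 < η / 20 by positivity) 1).and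
    (ht.eventually_ge_atTop (N + N3 + 100)))
  obtain ⟨N0, hN0⟩ := index ht (max j0 j1)
  have hev : ∀ᶠ n : ℕ in atTop, Real.log (X * (2 * X0) / x) ≤ ε / 2 * Real.log n ∧
      16 / η ≤ √((n : ℝ) * Real.log n) :=
    (log_le_eps (by positivity) _).and (sqrt_tend.eventually_ge_atTop _)
  obtain ⟨N4, hN4⟩ := eventually_atTop.1 hev
  refine ⟨N0 + 2 * N4 + N3 + 100, fun n hn => ?_⟩
  obtain ⟨j, hj, h1, h2⟩ := hN0 n (by omega)
  obtain ⟨⟨a1, a2, a3, a4, a5⟩, a6⟩ := hj0 j ((le_max_left _ _).trans hj)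
  obtain ⟨T, hT⟩ : ∃ T, T = t j := ⟨_, rfl⟩
  rw [← hT] at a1 a2 a3 a4 a5 a6 h1
  have hT0 : (0 : ℝ) < T := by exact_mod_cast (show 0 < T by omega)
  have hT100 : (100 : ℝ) ≤ T := by exact_mod_cast (show 100 ≤ T by omega)
  have hsqT : √((T : ℝ) * Real.log T) ≤ T := by
    rw [Real.sqrt_le_left hT0.le]
    nlinarith
  obtain ⟨u, rfl⟩ : ∃ u, n = T + u := ⟨n - T, by omega⟩
  have hu : (u : ℝ) ≤ η / 20 * √(T * Real.log T) := by
    have : ((T + u : ℕ) : ℝ) ≤ t (j + 1) := by exact_mod_cast h2.le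
    push_cast at this
    linarith
  have huT : (u : ℝ) ≤ T / 20 := by nlinarith
  have huT' : u ≤ T := by
    have : (u : ℝ) ≤ T := by linarith
    exact_mod_cast this
  obtain ⟨j', hj', h3, h4⟩ := hN0 (T + 2 * (u + 2)) (by omega)
  obtain ⟨⟨b1, b2, b3, b4, b5⟩, b6⟩ := hj0 j' ((le_max_left _ _).trans hj')
  have hS0 : (0 : ℝ) < t j' := by exact_mod_cast (show 0 < t j' by omega)
  have hS1 : (1 : ℝ) ≤ t j' := by exact_mod_cast (show 1 ≤ t j' by omega)
  have hS2 : (t j' : ℝ) ≤ 2 * T := by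
    have : (t j' : ℝ) ≤ ((T + 2 * (u + 2) : ℕ) : ℝ) := by exact_mod_cast h3
    push_cast at this
    linarith
  have hsqS : √((t j' : ℝ) * Real.log (t j')) ≤ 2 * √((T : ℝ) * Real.log T) := by
    have h5 := sq_cmp (x := t j') (y := T) (a := 2) (by linarith) hS0 hS2 (by linarith)
      (by norm_num) hS1
    have h6 : √(2 * 2 : ℝ) = 2 := by
      rw [show (2 * 2 : ℝ) = 2 ^ 2 by norm_num]
      exact Real.sqrt_sq (by norm_num)
    rwa [h6] at h5
  obtain ⟨w, hw⟩ : ∃ w, w = t (j' + 1) - T := ⟨_, rfl⟩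
  have hw' : T + w = t (j' + 1) := by omega
  have hwr : (w : ℝ) ≤ η / 4 * √((T : ℝ) * Real.log T) + 4 := by
    have h5 : ((T + w : ℕ) : ℝ) = t (j' + 1) := by rw [hw']
    push_cast at h5
    have h6 : (t j' : ℝ) ≤ ((T + 2 * (u + 2) : ℕ) : ℝ) := by exact_mod_cast h3
    push_cast at h6
    have h7 := mul_le_mul_of_nonneg_left hsqS (show 0 ≤ η / 20 by positivity)
    have h8 : 0 ≤ η * √((T : ℝ) * Real.log T) := by positivity
    linarith
  -- the comparison with `s = T - 2`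
  obtain ⟨s, rfl⟩ : ∃ s, T = s + 2 := ⟨T - 2, by omega⟩
  have hs98 : (98 : ℝ) ≤ s := by
    push_cast at hT100
    linarith
  have hs0 : (0 : ℝ) < s := by linarith
  have hTs : √(((s + 2 : ℕ) : ℝ) * Real.log ((s + 2 : ℕ) : ℝ)) ≤ 2 * √((s : ℝ) * Real.log s) := by
    have h5 := sq_cmp (x := ((s + 2 : ℕ) : ℝ)) (y := s) (a := 2) (by linarith) hT0
      (by push_cast; linarith) (by linarith) (by norm_num) (by linarith)
    have h6 : √(2 * 2 : ℝ) = 2 := by
      rw [show (2 * 2 : ℝ) = 2 ^ 2 by norm_num]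
      exact Real.sqrt_sq (by norm_num)
    rwa [h6] at h5
  have hs16 := (hN4 s (by omega)).2
  have hws : (w : ℝ) ≤ η * √(s * Real.log s) := by
    have h5 := mul_le_mul_of_nonneg_left hTs (show 0 ≤ η / 4 by positivity)
    rw [div_le_iff₀ hη0] at hs16
    nlinarith
  have key := hN s u w (by omega) (by omega) hws
  have hn0 : (0 : ℝ) < ((s + 2 + u : ℕ) : ℝ) := by positivity
  have hsn : Real.log (s : ℝ) ≤ Real.log ((s + 2 + u : ℕ) : ℝ) :=
    Real.log_le_log hs0 (by push_cast; have : (0 : ℝ) ≤ u := Nat.cast_nonneg _; linarith)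
  have hexp : Real.exp (ε / 2 * Real.log s) ≤
      Real.exp (ε / 2 * Real.log ((s + 2 + u : ℕ) : ℝ)) :=
    Real.exp_le_exp.2 (mul_le_mul_of_nonneg_left hsn (by positivity))
  obtain ⟨Y, hY⟩ : ∃ Y : ℝ, Y = Real.exp (ε / 2 * Real.log ((s + 2 + u : ℕ) : ℝ)) := ⟨_, rfl⟩
  have hY0 : 0 < Y := by rw [hY]; exact Real.exp_pos _
  rw [← hY] at hexp
  have hP1 : 0 ≤ Bk μ z r (s + 2) := Bk_nonneg D.P hr0 _
  have hP2 : 0 ≤ Bk μ z r (s + 2 + w) := Bk_nonneg D.P hr0 _
  have key2 : Bk μ z r (s + 2 + u) ≤ X0 * Y * (Bk μ z r (s + 2) + Bk μ z r (s + 2 + w)) := by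
    refine key.trans ?_
    refine mul_le_mul_of_nonneg_right ?_ (by linarith)
    exact mul_le_mul_of_nonneg_left hexp hX0.le
  have hfin : ∀ i : ℕ, 3 ≤ i → N3 ≤ i → Bk μ z r (s + 2) + Bk μ z r (s + 2 + w) ≤
      2 * Bk μ z r i → Real.log (b (s + 2 + u)) ≤
        Real.log (b i) + ε * Real.log ((s + 2 + u : ℕ) : ℝ) := by
    intro i hi3 hi hle
    have c1 := (hN3 (s + 2 + u) (by omega)).2
    have c2 := (hN3 i hi).1
    have c3 : b (s + 2 + u) ≤ X * (2 * X0) / x * Y * b i := by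
      have c4 : Bk μ z r i ≤ b i / x := by
        rw [le_div_iff₀ hx]
        linarith
      calc b (s + 2 + u) ≤ X * Bk μ z r (s + 2 + u) := c1
        _ ≤ X * (X0 * Y * (2 * (b i / x))) := by
            refine mul_le_mul_of_nonneg_left ?_ hX.le
            refine key2.trans (mul_le_mul_of_nonneg_left ?_ (by positivity))
            linarith
        _ = _ := by ring
    have hbi : 0 < b i := D.b_pos hi3
    have hbn : 0 < b (s + 2 + u) := D.b_pos (by omega)
    have c5 := Real.log_le_log hbn c3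
    rw [Real.log_mul (by positivity) hbi.ne', Real.log_mul (by positivity) hY0.ne', hY,
      Real.log_exp] at c5
    have c6 := (hN4 (s + 2 + u) (by omega)).1
    linarith
  rcases le_total (Bk μ z r (s + 2)) (Bk μ z r (s + 2 + w)) with hc | hc
  · refine ⟨j' + 1, by have := le_max_right j0 j1; omega, by omega, ?_, ?_⟩
    · rw [← hw']
      have h5 : (w : ℝ) ≤ ((s + 2 : ℕ) : ℝ) := by
        have : 0 ≤ √(((s + 2 : ℕ) : ℝ) * Real.log ((s + 2 : ℕ) : ℝ)) := Real.sqrt_nonneg _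
        nlinarith
      have h6 : w ≤ s + 2 := by exact_mod_cast h5
      omega
    · rw [← hw']
      exact hfin _ (by omega) (by omega) (by linarith)
  · refine ⟨j, (le_max_right _ _).trans hj, by omega, by omega, ?_⟩
    rw [← hT]
    exact hfin _ (by omega) (by omega) (by linarith)

/-- small oscillations -/
theorem Dat.osc (D : Dat μ z r b c C m) (E : Ser (fun k => Real.log (r k)) 2) (B : ℝ)
    (hB : ∀ᶠ n : ℕ in atTop, |Real.log (b n)| ≤ B * Real.log n) (ε : ℝ) (hε : 0 < ε) :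
    ∃ η : ℝ, 0 < η ∧ η ≤ 1 ∧ ∀ᶠ n : ℕ in atTop, ∀ u : ℕ,
      (u : ℝ) ≤ η * √(n * Real.log n) →
      |Real.log (b (n + u)) - Real.log (b n)| ≤ ε * Real.log n := by
  have hr0 : ∀ k, 0 ≤ r k := fun k => by linarith [D.r1 k]
  have hrp : ∀ k, 0 < r k := fun k => by linarith [D.r1 k]
  have hlogpos : ∀ᶠ n : ℕ in atTop, 0 < Real.log (n : ℝ) := log_tend.eventually_gt_atTop 0
  have hgB : ∀ ε : ℝ, 0 < ε → ∀ᶠ n : ℕ in atTop,
      Real.log (b n) ≤ (max B 0 + ε) * Real.log n := by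
    intro ε' hε'
    filter_upwards [hB, hlogpos] with n h1 h2
    have h3 := (le_abs_self _).trans h1
    have h4 := mul_le_mul_of_nonneg_right (le_max_left B 0) h2.le
    have h5 : 0 < ε' * Real.log n := by positivity
    linarith
  have hr := D.A3 E (le_max_right B 0) hgB 1 one_pos
  have hr' : ∀ᶠ n : ℕ in atTop, |(fun k => Real.log (r k)) n| ≤ (max B 0 + 1) * Real.log n := by
    filter_upwards [hr] with n hn
    rw [abs_of_nonneg (Real.log_nonneg (D.r1 n))]
    exact hn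
  obtain ⟨ηr, hη0, hη1, hosc⟩ := E.osc hr' (show 0 < ε / 2 by positivity)
  obtain ⟨N, hN⟩ := eventually_atTop.1 hosc
  obtain ⟨q, N1, hq, hq1, hnb⟩ := D.nbs E
  obtain ⟨x, X, N3, hx, hX, hN3⟩ := D.comp E
  have hm := D.m0
  obtain ⟨Z, hZ⟩ : ∃ Z : ℝ, Z = |Real.log (m * q * x / X)| + |Real.log (3 / q ^ 2 * X / x)| :=
    ⟨_, rfl⟩
  have hev : ∀ᶠ n : ℕ in atTop, Z ≤ ε / 2 * Real.log n ∧
      12 / ηr ≤ √((n : ℝ) * Real.log n) :=
    (log_le_eps (by positivity) _).and (sqrt_tend.eventually_ge_atTop _)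
  refine ⟨ηr / 12, by positivity, by linarith, ?_⟩
  filter_upwards [hev, eventually_ge_atTop (3 * N + N1 + N3 + 50)] with n ⟨hn1, hn2⟩ hn3 u hu
  have hn0 : (0 : ℝ) < n := by exact_mod_cast (show 0 < n by omega)
  have hn50 : (50 : ℝ) ≤ n := by exact_mod_cast (show 50 ≤ n by omega)
  rw [div_le_iff₀ hη0] at hn2
  obtain ⟨Ex, hEx⟩ : ∃ Ex : ℝ, Ex = Real.exp (ε / 2 * Real.log n) := ⟨_, rfl⟩
  have hEx0 : 0 < Ex := by rw [hEx]; exact Real.exp_pos _
  have hEx1 : 1 ≤ Ex := by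
    rw [hEx]
    refine Real.one_le_exp ?_
    have := Real.log_nonneg (show (1 : ℝ) ≤ n by linarith)
    positivity
  have hrr : ∀ k i : ℕ, n ≤ 3 * k + 2 → k ≤ n → i ≤ u + 1 →
      r k ≤ Ex * r (k + i) ∧ r (k + i) ≤ Ex * r k := by
    intro k i h1 h2 h3
    have hk0 : (0 : ℝ) < k := by exact_mod_cast (show 0 < k by omega)
    have hk9 : (9 : ℝ) ≤ k := by exact_mod_cast (show 9 ≤ k by omega)
    have hkn : (k : ℝ) ≤ n := by exact_mod_cast h2
    have h4 : (n : ℝ) ≤ 4 * k := by exact_mod_cast (show n ≤ 4 * k by omega)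
    have h5 := sq_cmp (x := n) (y := k) (a := 4) (by linarith) hn0 h4 (by linarith)
      (by norm_num) (by linarith)
    have h6 : √(2 * 4 : ℝ) ≤ 3 := by
      rw [Real.sqrt_le_left (by norm_num)]
      norm_num
    have h7 : √((n : ℝ) * Real.log n) ≤ 3 * √((k : ℝ) * Real.log k) :=
      h5.trans (mul_le_mul_of_nonneg_right h6 (Real.sqrt_nonneg _))
    have h8 : (i : ℝ) ≤ ηr * √((k : ℝ) * Real.log k) := by
      have h9 : (i : ℝ) ≤ u + 1 := by exact_mod_cast h3
      have h10 := mul_le_mul_of_nonneg_left h7 (show 0 ≤ ηr / 6 by positivity)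
      have h11 : 0 ≤ ηr * √((k : ℝ) * Real.log k) := by positivity
      linarith
    have h9 := abs_le.1 (hN k (by omega) i h8)
    have h10 : ε / 2 * Real.log k ≤ ε / 2 * Real.log n :=
      mul_le_mul_of_nonneg_left (Real.log_le_log hk0 hkn) (by positivity)
    constructor
    · rw [← Real.log_le_log_iff (hrp _) (mul_pos hEx0 (hrp _)),
        Real.log_mul hEx0.ne' (hrp _).ne', hEx, Real.log_exp]
      linarith
    · rw [← Real.log_le_log_iff (hrp _) (mul_pos hEx0 (hrp _)),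
        Real.log_mul hEx0.ne' (hrp _).ne', hEx, Real.log_exp]
      linarith
  have hPn := Bk_nonneg D.P hr0 n
  have hm1 : m ≤ 1 := by
    have h1 := D.low 2 le_rfl
    have h2 := D.P.tot 0 2
    rw [CM_zero] at h2
    exact h1.trans h2
  -- lower
  have hlo : m * q * Bk μ z r n ≤ Ex * Bk μ z r (n + u) := by
    rcases Nat.lt_or_ge u 2 with hu2 | hu2
    · have h1 : q * Bk μ z r n ≤ Bk μ z r (n + u) := by
        interval_cases u
        · rw [add_zero]
          nlinarith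
        · exact (hnb n (by omega)).1
      have h2 : Bk μ z r (n + u) ≤ Ex * Bk μ z r (n + u) :=
        le_mul_of_one_le_left (Bk_nonneg D.P hr0 _) hEx1
      have h3 : m * (q * Bk μ z r n) ≤ 1 * (q * Bk μ z r n) :=
        mul_le_mul_of_nonneg_right hm1 (by positivity)
      linarith
    · have h1 := Bk_lo D.P hr0 n u
      have h2 : Bk μ z (fun k => m / Ex * r k) n ≤ Bk μ z (Gk μ z r u) n := by
        refine Bk_mono D.P fun k hk1 hk2 => ?_
        have h3 : Bk μ z (fun _ => r k / Ex) u ≤ Gk μ z r u k := by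
          unfold Gk
          refine Bk_mono D.P fun i hi1 hi2 => ?_
          rw [div_le_iff₀ hEx0]
          have := (hrr k i (by omega) (by omega) (by omega)).1
          linarith
        rw [Bk_const D.P] at h3
        have h4 := mul_le_mul_of_nonneg_left (D.low u hu2)
          (show 0 ≤ r k / Ex from div_nonneg (hr0 k) hEx0.le)
        have e : m / Ex * r k = r k / Ex * m := by ring
        rw [e]
        linarith
      rw [Bk_smul] at h2
      have h3 := mul_le_mul_of_nonneg_left (h2.trans h1) hEx0.le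
      have e : Ex * (m / Ex * Bk μ z r n) = m * Bk μ z r n := by field_simp
      rw [e] at h3
      have h4 : m * q * Bk μ z r n ≤ m * 1 * Bk μ z r n := by gcongr
      linarith
  -- upper
  have hup : Bk μ z r (n + u) ≤ 3 / q ^ 2 * Ex * Bk μ z r n := by
    obtain ⟨s, rfl⟩ : ∃ s, n = s + 2 := ⟨n - 2, by omega⟩
    have h0 := Bk_up D.P hr0 s u
    have hin : ∀ v : ℕ, v ≤ 2 → Bk μ z (Gk μ z r (u + v)) (s + 2 - v) ≤
        Ex * Bk μ z r (s + 2 - v) := by
      intro v hv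
      rw [← Bk_smul]
      refine Bk_mono D.P fun k hk1 hk2 => ?_
      have h3 : Gk μ z r (u + v) k ≤ Bk μ z (fun _ => Ex * r k) (u + v) := by
        unfold Gk
        refine Bk_mono D.P fun i hi1 hi2 => ?_
        exact (hrr k i (by omega) (by omega) (by omega)).2
      rw [Bk_const D.P] at h3
      have h4 := mul_le_mul_of_nonneg_left (D.P.tot 0 (u + v))
        (show 0 ≤ Ex * r k from mul_nonneg hEx0.le (hr0 k))
      rw [CM_zero] at h4
      linarith
    have o0 := hin 0 (by omega)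
    have o1 := hin 1 (by omega)
    have o2 := hin 2 (by omega)
    have n1 := (hnb s (by omega)).1
    have n2 := (hnb (s + 1) (by omega)).1
    have p0 := Bk_nonneg D.P hr0 s
    have p1 := Bk_nonneg D.P hr0 (s + 1)
    have e1 : s + 2 - 1 = s + 1 := by omega
    have e2 : s + 2 - 2 = s := by omega
    rw [add_zero, Nat.sub_zero] at o0
    rw [e1] at o1
    rw [e2] at o2
    have e3 : s + 1 + 1 = s + 2 := rfl
    rw [e3] at n2
    have q2 : 0 < q ^ 2 := by positivity
    have a1 : Bk μ z r (s + 1) ≤ 1 / q ^ 2 * Bk μ z r (s + 2) := by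
      rw [one_div, ← div_eq_inv_mul, le_div_iff₀ q2]
      have : q ^ 2 * Bk μ z r (s + 1) ≤ q * Bk μ z r (s + 1) :=
        mul_le_mul_of_nonneg_right (by nlinarith) p1
      linarith
    have a0 : Bk μ z r s ≤ 1 / q ^ 2 * Bk μ z r (s + 2) := by
      rw [one_div, ← div_eq_inv_mul, le_div_iff₀ q2]
      have := mul_le_mul_of_nonneg_left n1 hq.le
      nlinarith
    have a2 : Bk μ z r (s + 2) ≤ 1 / q ^ 2 * Bk μ z r (s + 2) := by
      have : (1 : ℝ) ≤ 1 / q ^ 2 := by
        rw [le_div_iff₀ q2]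
        nlinarith
      nlinarith
    have g0 := mul_le_mul_of_nonneg_left a0 hEx0.le
    have g1 := mul_le_mul_of_nonneg_left a1 hEx0.le
    have g2 := mul_le_mul_of_nonneg_left a2 hEx0.le
    have e4 : 3 / q ^ 2 * Ex * Bk μ z r (s + 2) =
        3 * (Ex * (1 / q ^ 2 * Bk μ z r (s + 2))) := by ring
    rw [e4]
    linarith
  -- the numbers `b`
  have b1 := hN3 n (by omega)
  have b2 := hN3 (n + u) (by omega)
  have hbn : 0 < b n := D.b_pos (by omega)
  have hbu : 0 < b (n + u) := D.b_pos (by omega)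
  have l1 : m * q * x / X * b n ≤ Ex * b (n + u) := by
    have h1 : b n / X ≤ Bk μ z r n := by
      rw [div_le_iff₀ hX]
      linarith
    calc m * q * x / X * b n = m * q * (b n / X) * x := by ring
      _ ≤ m * q * Bk μ z r n * x := by gcongr
      _ ≤ Ex * Bk μ z r (n + u) * x := by gcongr
      _ = Ex * (x * Bk μ z r (n + u)) := by ring
      _ ≤ _ := by gcongr; exact b2.1
  have l2 : b (n + u) ≤ 3 / q ^ 2 * X / x * Ex * b n := by
    have h1 : Bk μ z r n ≤ b n / x := by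
      rw [le_div_iff₀ hx]
      linarith
    calc b (n + u) ≤ X * Bk μ z r (n + u) := b2.2
      _ ≤ X * (3 / q ^ 2 * Ex * Bk μ z r n) := by gcongr
      _ ≤ X * (3 / q ^ 2 * Ex * (b n / x)) := by gcongr
      _ = _ := by ring
  have k1 := Real.log_le_log (by positivity) l1
  have k2 := Real.log_le_log hbu l2
  rw [Real.log_mul (by positivity) hbn.ne', Real.log_mul hEx0.ne' hbu.ne', hEx,
    Real.log_exp] at k1
  rw [Real.log_mul (by positivity) hbn.ne', Real.log_mul (by positivity) hEx0.ne', hEx,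
    Real.log_exp] at k2
  have z1 := neg_abs_le (Real.log (m * q * x / X))
  have z2 := le_abs_self (Real.log (3 / q ^ 2 * X / x))
  have z3 := abs_nonneg (Real.log (m * q * x / X))
  have z4 := abs_nonneg (Real.log (3 / q ^ 2 * X / x))
  rw [abs_le]
  constructor <;> linarith

theorem Dat.nr (D : Dat μ z r b c C m) (E : Ser (fun k => Real.log (r k)) 2) :
    NR (fun n => Real.log (b n)) :=
  ⟨fun t ht hsp ε hε j1 => D.near E t ht hsp ε hε j1, fun B hB ε hε => D.osc E B hB ε hε⟩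

end Pool.Agent.H90.FS
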