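import Pool.Agent.H90.FS.Tau

/-!
Renewal inequalities for the kernel sums.
-/

set_option autoImplicit false

namespace Pool.Agent.H90.FS

open Finset Filter Topology Q215.SAW.Cvx

/-! ### compositions with a renewal -/

theorem Sg_congr {α β : ℕ → ℝ} (h : ∀ k, α k = β k) (M n : ℕ) : Sg α M n = Sg β M n := by
  have : α = β := funext h
  rw [this]

theorem T2 (α : ℕ → ℝ) : Sg α 0 2 = α 1 := by
  rw [Sg_2, Sg_0]
  simp

theorem T3 (α : ℕ → ℝ) : Sg α 0 3 = α 1 := by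
  have := Sg_3 α 0 0
  rw [Sg_1, Sg_0] at this
  simpa using this

theorem Tn (α : ℕ → ℝ) (n : ℕ) : Sg α 0 (n + 3) =
    Sg (fun k => α (k + 1)) 0 (n + 1) + Sg (fun k => α (k + 1)) 0 n := by
  rw [Sg_3]
  simp

/-- the inner sums -/
noncomputable def Gf (ρ : ℕ → ℝ) (u k : ℕ) : ℝ := Sg (fun i => ρ (k + i)) 0 u

theorem Gf_nonneg {ρ : ℕ → ℝ} (h : ∀ k, 0 ≤ ρ k) (u k : ℕ) : 0 ≤ Gf ρ u k :=
  Sg_nonneg (fun _ => h _) _ _

theorem Gf_succ (ρ : ℕ → ℝ) (u : ℕ) : (fun k => Gf ρ u (k + 1)) = Gf (fun k => ρ (k + 1)) u := by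
  funext k
  unfold Gf
  refine Sg_congr (fun i => ?_) _ _
  rw [show k + 1 + i = k + i + 1 by ring]

theorem Gf_0 (ρ : ℕ → ℝ) (u : ℕ) : Gf ρ u 0 = Sg ρ 0 u := by
  unfold Gf
  exact Sg_congr (fun i => by rw [zero_add]) _ _

theorem Gf_1 (ρ : ℕ → ℝ) (u : ℕ) : Gf ρ u 1 = Sg (fun k => ρ (k + 1)) 0 u := by
  unfold Gf
  exact Sg_congr (fun i => by rw [add_comm]) _ _

theorem T_lo (n : ℕ) : ∀ (ρ : ℕ → ℝ), (∀ k, 0 ≤ ρ k) → ∀ u : ℕ,
    Sg (Gf ρ u) 0 n ≤ Sg ρ 0 (n + u) := by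
  induction n using Nat.strong_induction_on with
  | _ n ih =>
    intro ρ hρ u
    have hρ' : ∀ k, 0 ≤ (fun k => ρ (k + 1)) k := fun k => hρ _
    match n, ih with
    | 0, _ =>
      rw [Sg_0, Gf_0, zero_add]
    | 1, _ =>
      rw [Sg_1]
      simpa using Sg_nonneg hρ 0 (1 + u)
    | 2, _ =>
      rw [T2, Gf_1]
      rcases Nat.eq_zero_or_pos u with rfl | hu
      · rw [Sg_0]
        exact (T2 ρ).ge
      · obtain ⟨w, rfl⟩ : ∃ w, u = w + 1 := ⟨u - 1, by omega⟩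
        have e : 2 + (w + 1) = w + 3 := by ring
        rw [e, Tn]
        have := Sg_nonneg hρ' 0 w
        linarith
    | n + 3, ih =>
      have e : n + 3 + u = n + u + 3 := by ring
      rw [e, Tn, Tn, Gf_succ]
      have h1 := ih (n + 1) (by omega) _ hρ' u
      have h2 := ih n (by omega) _ hρ' u
      have e1 : n + 1 + u = n + u + 1 := by ring
      rw [e1] at h1
      linarith

theorem T_up (n : ℕ) : ∀ (ρ : ℕ → ℝ), (∀ k, 0 ≤ ρ k) → ∀ u : ℕ,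
    Sg ρ 0 (n + 2 + u) ≤ Sg (Gf ρ u) 0 (n + 2) + Sg (Gf ρ (u + 1)) 0 (n + 1) +
      Sg (Gf ρ (u + 2)) 0 n := by
  induction n using Nat.strong_induction_on with
  | _ n ih =>
    intro ρ hρ u
    have hρ' : ∀ k, 0 ≤ (fun k => ρ (k + 1)) k := fun k => hρ _
    match n, ih with
    | 0, _ =>
      have h1 := Sg_nonneg (Gf_nonneg hρ u) 0 (0 + 2)
      have h2 := Sg_nonneg (Gf_nonneg hρ (u + 1)) 0 (0 + 1)
      have e : 0 + 2 + u = u + 2 := by ring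
      rw [Sg_0, Gf_0, e]
      linarith
    | 1, _ =>
      have h2 := Sg_nonneg (Gf_nonneg hρ (u + 2)) 0 1
      have e : 1 + 2 + u = u + 3 := by ring
      have e1 : Sg (Gf ρ u) 0 (1 + 2) = Gf ρ u 1 := T3 _
      have e2 : Sg (Gf ρ (u + 1)) 0 (1 + 1) = Gf ρ (u + 1) 1 := T2 _
      rw [e1, e2, Gf_1, Gf_1, e, Tn]
      linarith
    | 2, _ =>
      have h1 := Sg_nonneg (Gf_nonneg hρ u) 0 (2 + 2)
      have e : 2 + 2 + u = (u + 1) + 3 := by ring
      have e1 : Sg (Gf ρ (u + 1)) 0 (2 + 1) = Gf ρ (u + 1) 1 := T3 _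
      have e2 : Sg (Gf ρ (u + 2)) 0 2 = Gf ρ (u + 2) 1 := T2 _
      have e3 : u + 1 + 1 = u + 2 := rfl
      rw [e1, e2, Gf_1, Gf_1, e, Tn, e3]
      linarith
    | n + 3, ih =>
      have h1 := ih (n + 1) (by omega) _ hρ' u
      have h2 := ih n (by omega) _ hρ' u
      have e : n + 3 + 2 + u = (n + 2 + u) + 3 := by ring
      have e1 : n + 3 + 2 = (n + 2) + 3 := by ring
      have e2 : n + 3 + 1 = (n + 1) + 3 := by ring
      rw [e, e1, e2, Tn ρ, Tn (Gf ρ u), Tn (Gf ρ (u + 1)), Tn (Gf ρ (u + 2)), Gf_succ, Gf_succ,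
        Gf_succ]
      have e3 : n + 1 + 2 + u = n + 2 + u + 1 := by ring
      rw [e3] at h1
      have e4 : n + 1 + 2 = n + 2 + 1 := by ring
      rw [e4] at h1
      linarith

/-! ### weighted sums -/

/-- the kernel sum -/
noncomputable def Bk (μ z : ℝ) (ρ : ℕ → ℝ) (n : ℕ) : ℝ := z ^ n * Sg (fun k => ρ k * μ ^ k) 0 n

/-- the inner sum -/
noncomputable def Gk (μ z : ℝ) (ρ : ℕ → ℝ) (u k : ℕ) : ℝ := Bk μ z (fun i => ρ (k + i)) u

variable {μ z : ℝ} {r b : ℕ → ℝ} {c C m : ℝ}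

theorem Bk_eq (P : Par μ z) (ρ : ℕ → ℝ) (n : ℕ) :
    Bk μ z ρ n = ∑ k ∈ range (n + 1), ρ k * wt μ z 0 n k := by
  have hμ : 0 < μ := by linarith [P.hμ]
  unfold Bk
  rw [Sg_wt P]
  refine sum_congr rfl fun k _ => ?_
  have : μ ^ k ≠ 0 := by positivity
  field_simp

theorem Bk_nonneg (P : Par μ z) {ρ : ℕ → ℝ} (h : ∀ k, 0 ≤ ρ k) (n : ℕ) : 0 ≤ Bk μ z ρ n := by
  rw [Bk_eq P]
  exact sum_nonneg fun k _ => mul_nonneg (h k) (wt_nonneg P _ _ _)

theorem Bk_mono (P : Par μ z) {ρ σ : ℕ → ℝ} {n : ℕ}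
    (h : ∀ k, 2 * k ≤ n → n ≤ 3 * k → ρ k ≤ σ k) : Bk μ z ρ n ≤ Bk μ z σ n := by
  rw [Bk_eq P, Bk_eq P]
  refine sum_le_sum fun k _ => ?_
  have hw := wt_nonneg P 0 n k
  rcases hw.eq_or_lt with h1 | h1
  · rw [← h1]; simp
  · obtain ⟨h2, h3⟩ := wt_supp 0 n k h1.ne'
    exact mul_le_mul_of_nonneg_right (h k h2 (by omega)) hw

theorem Bk_smul (x : ℝ) (ρ : ℕ → ℝ) (n : ℕ) :
    Bk μ z (fun k => x * ρ k) n = x * Bk μ z ρ n := by
  unfold Bk
  have e : (fun k => x * ρ k * μ ^ k) = fun k => x * (ρ k * μ ^ k) := by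
    funext k
    ring
  rw [e, Sg_smul]
  ring

theorem Bk_add (ρ σ : ℕ → ℝ) (n : ℕ) :
    Bk μ z (fun k => ρ k + σ k) n = Bk μ z ρ n + Bk μ z σ n := by
  unfold Bk
  have e : (fun k => (ρ k + σ k) * μ ^ k) = fun k => ρ k * μ ^ k + σ k * μ ^ k := by
    funext k
    ring
  rw [e, Sg_add]
  ring

theorem Bk_const (P : Par μ z) (x : ℝ) (n : ℕ) :
    Bk μ z (fun _ => x) n = x * ∑ k ∈ range (n + 1), wt μ z 0 n k := by
  rw [Bk_eq P, mul_sum]

theorem Gk_nonneg (P : Par μ z) {ρ : ℕ → ℝ} (h : ∀ k, 0 ≤ ρ k) (u k : ℕ) :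
    0 ≤ Gk μ z ρ u k := Bk_nonneg P (fun _ => h _) _

theorem Gk_Gf (ρ : ℕ → ℝ) (n u : ℕ) : Bk μ z (Gk μ z ρ u) n =
    z ^ (n + u) * Sg (Gf (fun k => ρ k * μ ^ k) u) 0 n := by
  have e : (fun k => Gk μ z ρ u k * μ ^ k) =
      fun k => z ^ u * Gf (fun k => ρ k * μ ^ k) u k := by
    funext k
    unfold Gk Bk Gf
    rw [mul_assoc, mul_comm (Sg _ 0 u), ← Sg_smul]
    congr 1
    refine Sg_congr (fun i => ?_) _ _
    simp only [pow_add]
    ring
  unfold Bk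
  rw [e, Sg_smul, pow_add]
  ring

theorem Bk_lo (P : Par μ z) {ρ : ℕ → ℝ} (h : ∀ k, 0 ≤ ρ k) (n u : ℕ) :
    Bk μ z (Gk μ z ρ u) n ≤ Bk μ z ρ (n + u) := by
  have hz := P.hz
  have hμ : 0 ≤ μ := by linarith [P.hμ]
  rw [Gk_Gf]
  unfold Bk
  exact mul_le_mul_of_nonneg_left (T_lo n _ (fun k => mul_nonneg (h k) (pow_nonneg hμ _)) u)
    (by positivity)

theorem Bk_up (P : Par μ z) {ρ : ℕ → ℝ} (h : ∀ k, 0 ≤ ρ k) (n u : ℕ) :
    Bk μ z ρ (n + 2 + u) ≤ Bk μ z (Gk μ z ρ u) (n + 2) + Bk μ z (Gk μ z ρ (u + 1)) (n + 1) +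
      Bk μ z (Gk μ z ρ (u + 2)) n := by
  have hz := P.hz
  have hμ : 0 ≤ μ := by linarith [P.hμ]
  rw [Gk_Gf, Gk_Gf, Gk_Gf]
  unfold Bk
  have h1 := mul_le_mul_of_nonneg_left (T_up n _ (fun k => mul_nonneg (h k) (pow_nonneg hμ k)) u)
    (show 0 ≤ z ^ (n + 2 + u) by positivity)
  have e1 : z ^ (n + 1 + (u + 1)) = z ^ (n + 2 + u) := by ring
  have e2 : z ^ (n + (u + 2)) = z ^ (n + 2 + u) := by ring
  rw [e1, e2]
  linarith

theorem Gk_2 (ρ : ℕ → ℝ) (k : ℕ) : Gk μ z ρ 2 k = z ^ 2 * μ * ρ (k + 1) := by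
  unfold Gk Bk
  rw [T2]
  ring

theorem Gk_3 (ρ : ℕ → ℝ) (k : ℕ) : Gk μ z ρ 3 k = z ^ 3 * μ * ρ (k + 1) := by
  unfold Gk Bk
  rw [T3]
  ring

theorem Bk_n (ρ : ℕ → ℝ) (n : ℕ) : Bk μ z ρ (n + 3) =
    z ^ 2 * μ * Bk μ z (fun k => ρ (k + 1)) (n + 1) +
      z ^ 3 * μ * Bk μ z (fun k => ρ (k + 1)) n := by
  unfold Bk
  rw [Tn]
  have e : (fun k => ρ (k + 1) * μ ^ (k + 1)) = fun k => μ * (ρ (k + 1) * μ ^ k) := by
    funext k
    ring
  rw [e, Sg_smul, Sg_smul]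
  ring

/-! ### the sequence `r` -/

/-- one step changes `r` by a bounded factor -/
theorem Dat.ratio (D : Dat μ z r b c C m) (E : Ser (fun k => Real.log (r k)) 2) :
    ∃ (q : ℝ) (N : ℕ), 0 < q ∧ q ≤ 1 ∧ ∀ k, N ≤ k → q * r k ≤ r (k + 1) ∧ q * r (k + 1) ≤ r k := by
  obtain ⟨C1, N, h⟩ := E.st
  refine ⟨Real.exp (-|C1|), N, Real.exp_pos _, ?_, fun k hk => ?_⟩
  · rw [Real.exp_le_one_iff]
    have := abs_nonneg C1
    linarith
  · have h1 := abs_le.1 ((h k hk).trans (le_abs_self C1))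
    have p1 : 0 < r k := by linarith [D.r1 k]
    have p2 : 0 < r (k + 1) := by linarith [D.r1 (k + 1)]
    constructor
    · rw [← Real.log_le_log_iff (mul_pos (Real.exp_pos _) p1) p2,
        Real.log_mul (Real.exp_pos _).ne' p1.ne', Real.log_exp]
      linarith
    · rw [← Real.log_le_log_iff (mul_pos (Real.exp_pos _) p2) p1,
        Real.log_mul (Real.exp_pos _).ne' p2.ne', Real.log_exp]
      linarith

/-- neighbouring kernel sums are comparable -/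
theorem Dat.nbs (D : Dat μ z r b c C m) (E : Ser (fun k => Real.log (r k)) 2) :
    ∃ (q : ℝ) (N : ℕ), 0 < q ∧ q ≤ 1 ∧ ∀ n, N ≤ n →
      q * Bk μ z r n ≤ Bk μ z r (n + 1) ∧ q * Bk μ z r (n + 1) ≤ Bk μ z r n := by
  obtain ⟨q, N, hq, hq1, h⟩ := D.ratio E
  have hμ0 : 0 < μ := by linarith [D.P.hμ]
  have hz := D.P.hz
  have hr0 : ∀ k, 0 ≤ r k := fun k => by linarith [D.r1 k]
  have hp3 : 0 < z ^ 3 * μ := by positivity
  have hp2 : 0 < z ^ 2 * μ := by positivity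
  have hp : z ^ 2 * μ + z ^ 3 * μ = 1 := by
    have := D.P.h
    linarith
  obtain ⟨s, hs⟩ : ∃ s : ℝ, s = q * (z ^ 3 * μ) := ⟨_, rfl⟩
  have hs0 : 0 < s := by rw [hs]; positivity
  have hs1 : s ≤ 1 := by
    rw [hs]
    exact mul_le_one₀ hq1 hp3.le (by linarith)
  have hzz : z ^ 3 * μ ≤ z ^ 2 * μ := by
    have : z ^ 3 ≤ z ^ 2 := by
      have := D.P.hz1
      nlinarith [sq_nonneg z]
    exact mul_le_mul_of_nonneg_right this hμ0.le
  have h2 : ∀ n, 3 * N ≤ n → s * Bk μ z r n ≤ Bk μ z r (n + 2) := by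
    intro n hn
    refine le_trans ?_ (Bk_lo D.P hr0 n 2)
    rw [← Bk_smul]
    refine Bk_mono D.P fun k _ h3 => ?_
    rw [Gk_2]
    have h4 := (h k (by omega)).1
    rw [hs]
    have h5 := mul_le_mul_of_nonneg_left h4 hp2.le
    have h6 := mul_le_mul_of_nonneg_right hzz (mul_nonneg hq.le (hr0 k))
    nlinarith
  have h3 : ∀ n, 3 * N ≤ n → s * Bk μ z r n ≤ Bk μ z r (n + 3) := by
    intro n hn
    refine le_trans ?_ (Bk_lo D.P hr0 n 3)
    rw [← Bk_smul]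
    refine Bk_mono D.P fun k _ h3 => ?_
    rw [Gk_3]
    have h4 := (h k (by omega)).1
    rw [hs]
    have h5 := mul_le_mul_of_nonneg_left h4 hp3.le
    linarith
  have hstep : ∀ j, 3 * N ≤ j → q * Bk μ z r (j + 3) ≤ Bk μ z r (j + 1) + Bk μ z r j := by
    intro j hj
    have a1 : q * Bk μ z (fun k => r (k + 1)) (j + 1) ≤ Bk μ z r (j + 1) := by
      rw [← Bk_smul]
      exact Bk_mono D.P fun k _ h3 => (h k (by omega)).2
    have a2 : q * Bk μ z (fun k => r (k + 1)) j ≤ Bk μ z r j := by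
      rw [← Bk_smul]
      exact Bk_mono D.P fun k _ h3 => (h k (by omega)).2
    have b1 := mul_le_mul_of_nonneg_left a1 hp2.le
    have b2 := mul_le_mul_of_nonneg_left a2 hp3.le
    have b3 : z ^ 2 * μ * Bk μ z r (j + 1) ≤ 1 * Bk μ z r (j + 1) :=
      mul_le_mul_of_nonneg_right (by linarith) (Bk_nonneg D.P hr0 _)
    have b4 : z ^ 3 * μ * Bk μ z r j ≤ 1 * Bk μ z r j :=
      mul_le_mul_of_nonneg_right (by linarith) (Bk_nonneg D.P hr0 _)
    rw [Bk_n]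
    linarith
  -- one step up
  have hup : ∀ n, 3 * N + 3 ≤ n → q * s ^ 2 / 2 * Bk μ z r n ≤ Bk μ z r (n + 1) := by
    intro n hn
    obtain ⟨j, rfl⟩ : ∃ j, n = j + 3 := ⟨n - 3, by omega⟩
    have c1 := hstep j (by omega)
    have c2 := h3 (j + 1) (by omega)
    have c3 := h2 j (by omega)
    have c4 := h2 (j + 2) (by omega)
    have e1 : j + 1 + 3 = j + 3 + 1 := by ring
    have e2 : j + 2 + 2 = j + 3 + 1 := by ring
    rw [e1] at c2
    rw [e2] at c4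
    have p0 := Bk_nonneg D.P hr0 j
    have p1 := Bk_nonneg D.P hr0 (j + 1)
    have d1 : s ^ 2 * Bk μ z r (j + 1) ≤ Bk μ z r (j + 3 + 1) := by
      refine le_trans ?_ c2
      refine mul_le_mul_of_nonneg_right ?_ p1
      nlinarith
    have d2 : s ^ 2 * Bk μ z r j ≤ Bk μ z r (j + 3 + 1) := by
      have := mul_le_mul_of_nonneg_left c3 hs0.le
      nlinarith
    have d3 := mul_le_mul_of_nonneg_left c1 (show 0 ≤ s ^ 2 / 2 by positivity)
    have e3 : s ^ 2 / 2 * (q * Bk μ z r (j + 3)) = q * s ^ 2 / 2 * Bk μ z r (j + 3) := by ring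
    rw [e3] at d3
    linarith
  obtain ⟨q1, hq1'⟩ : ∃ q1 : ℝ, q1 = q * s ^ 2 / 2 := ⟨_, rfl⟩
  have hq10 : 0 < q1 := by rw [hq1']; positivity
  have hq11 : q1 ≤ s := by
    rw [hq1']
    have : q * s ^ 2 ≤ 1 * s := by
      have h5 : s ^ 2 ≤ s := by nlinarith
      exact mul_le_mul hq1 h5 (sq_nonneg _) zero_le_one
    linarith
  have hq12 : q1 ≤ 1 := hq11.trans hs1
  rw [← hq1'] at hup
  have hdn : ∀ n, 3 * N + 6 ≤ n → q * q1 / 2 * Bk μ z r (n + 1) ≤ Bk μ z r n := by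
    intro n hn
    obtain ⟨j, rfl⟩ : ∃ j, n = j + 2 := ⟨n - 2, by omega⟩
    have c1 := hstep j (by omega)
    have c2 := hup (j + 1) (by omega)
    have c3 := h2 j (by omega)
    have p0 := Bk_nonneg D.P hr0 j
    have e1 : j + 1 + 1 = j + 2 := by ring
    have e2 : j + 2 + 1 = j + 3 := by ring
    rw [e1] at c2
    rw [e2]
    have d2 : q1 * Bk μ z r j ≤ Bk μ z r (j + 2) :=
      (mul_le_mul_of_nonneg_right hq11 p0).trans c3
    have d3 := mul_le_mul_of_nonneg_left c1 (show 0 ≤ q1 / 2 by positivity)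
    have e3 : q1 / 2 * (q * Bk μ z r (j + 3)) = q * q1 / 2 * Bk μ z r (j + 3) := by ring
    rw [e3] at d3
    linarith
  refine ⟨q * q1 / 2, 3 * N + 6, by positivity, ?_, fun n hn => ⟨?_, hdn n hn⟩⟩
  · have : q * q1 ≤ 1 := mul_le_one₀ hq1 hq10.le hq12
    linarith
  · refine le_trans ?_ (hup n (by omega))
    refine mul_le_mul_of_nonneg_right ?_ (Bk_nonneg D.P hr0 _)
    have : q * q1 ≤ 1 * q1 := mul_le_mul_of_nonneg_right hq1 hq10.le
    linarith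

theorem cc_k0 (M k : ℕ) : cc M k 0 = cc 0 k 0 := by
  cases k <;> simp [cc]

theorem cc_dec (M k n : ℕ) : cc (M + 1) k (n + 1) = cc M k n + cc 0 k (n + 1) := by
  induction k generalizing n with
  | zero =>
    simp only [cc]
    split_ifs <;> omega
  | succ k ih =>
    match n with
    | 0 => rfl
    | 1 =>
      simp only [cc]
      rw [cc_k0 (M + 1)]
      omega
    | 2 =>
      have h := ih 0
      simp only [cc, Nat.reduceAdd] at h ⊢
      rw [cc_k0 (M + 1), h]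
      ring
    | n + 3 =>
      have h1 := ih (n + 1)
      have h2 := ih n
      simp only [cc] at h1 h2 ⊢
      rw [h1, h2]
      ring

/-- the sums with several initial lengths -/
theorem Dat.BM (D : Dat μ z r b c C m) (E : Ser (fun k => Real.log (r k)) 2) (M : ℕ) :
    ∃ (X : ℝ) (N : ℕ), 0 ≤ X ∧ ∀ n, N ≤ n →
      ∑ k ∈ range (n + 1), r k * wt μ z M n k ≤ X * Bk μ z r n := by
  obtain ⟨q, N1, hq, hq1, h⟩ := D.nbs E
  have hr0 : ∀ k, 0 ≤ r k := fun k => by linarith [D.r1 k]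
  have hz := D.P.hz
  induction M with
  | zero =>
    refine ⟨1, 0, zero_le_one, fun n _ => ?_⟩
    rw [one_mul, Bk_eq D.P]
  | succ M ih =>
    obtain ⟨X, N, hX, hN⟩ := ih
    refine ⟨X / q + 1, max N N1 + 1, by positivity, fun n hn => ?_⟩
    obtain ⟨n, rfl⟩ : ∃ j, n = j + 1 := ⟨n - 1, by omega⟩
    have h1 := hN n (by omega)
    have h2 := (h n (by omega)).1
    have e : ∀ k, r k * wt μ z (M + 1) (n + 1) k =
        z * (r k * wt μ z M n k) + r k * wt μ z 0 (n + 1) k := by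
      intro k
      unfold wt
      rw [cc_dec]
      push_cast
      ring
    rw [sum_congr rfl fun k _ => e k, sum_add_distrib, ← mul_sum, ← Bk_eq D.P]
    have e2 : ∑ k ∈ range (n + 1 + 1), r k * wt μ z M n k =
        ∑ k ∈ range (n + 1), r k * wt μ z M n k := by
      rw [sum_range_succ]
      have : wt μ z M n (n + 1) = 0 := by
        unfold wt
        rw [cc_zero M _ _ (by omega)]
        simp
      rw [this, mul_zero, add_zero]
    rw [e2]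
    have h3 : 0 ≤ ∑ k ∈ range (n + 1), r k * wt μ z M n k :=
      sum_nonneg fun k _ => mul_nonneg (hr0 k) (wt_nonneg D.P _ _ _)
    have h4 : z * ∑ k ∈ range (n + 1), r k * wt μ z M n k ≤ X * Bk μ z r n := by
      have := mul_le_mul_of_nonneg_right D.P.hz1 h3
      linarith
    have h5 : X * Bk μ z r n ≤ X / q * Bk μ z r (n + 1) := by
      have h6 := mul_le_mul_of_nonneg_left h2 (show 0 ≤ X / q by positivity)
      have e3 : X / q * (q * Bk μ z r n) = X * Bk μ z r n := by field_simp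
      linarith
    rw [add_mul, one_mul]
    linarith

/-- `b` and the kernel sum are comparable -/
theorem Dat.comp (D : Dat μ z r b c C m) (E : Ser (fun k => Real.log (r k)) 2) :
    ∃ (x X : ℝ) (N : ℕ), 0 < x ∧ 0 < X ∧ ∀ n, N ≤ n →
      x * Bk μ z r n ≤ b n ∧ b n ≤ X * Bk μ z r n := by
  obtain ⟨q, N1, hq, hq1, h⟩ := D.nbs E
  obtain ⟨q', N2, hq', hq1', h'⟩ := D.ratio E
  obtain ⟨X, N3, hX, h3⟩ := D.BM E 6
  have hr0 : ∀ k, 0 ≤ r k := fun k => by linarith [D.r1 k]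
  have hc := D.c0
  have hC := D.C0
  refine ⟨c * q' * q, C * X + 1, N1 + 3 * N2 + N3 + 4, by positivity, by positivity,
    fun n hn => ⟨?_, ?_⟩⟩
  · obtain ⟨n, rfl⟩ : ∃ j, n = j + 1 := ⟨n - 1, by omega⟩
    refine le_trans ?_ (D.bl n)
    have h1 := (h n (by omega)).2
    have h2 : q' * Bk μ z r n ≤ ∑ k ∈ range (n + 1), r (k + 1) * wt μ z 0 n k := by
      rw [← Bk_eq D.P (fun k => r (k + 1)), ← Bk_smul]
      exact Bk_mono D.P fun k _ h4 => (h' k (by omega)).1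
    calc c * q' * q * Bk μ z r (n + 1) = c * (q' * (q * Bk μ z r (n + 1))) := by ring
      _ ≤ c * (q' * Bk μ z r n) := by gcongr
      _ ≤ _ := by gcongr
  · refine (D.bu n (by omega)).trans ?_
    have h1 := mul_le_mul_of_nonneg_left (h3 n (by omega)) hC.le
    have h2 := Bk_nonneg D.P hr0 n
    nlinarith

end Pool.Agent.H90.FS
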